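import Pool.Agent.U327.LT.C10

set_option autoImplicit false

/-!
# A uniform lower bound for the gain
-/

open Set Filter Topology Real

namespace Pool.Agent.U327.LT

theorem log_sub_ge {s : ℝ} (hs0 : 0 ≤ s) (hs1 : s < 1) : 2 * s ≤ log (1 + s) - log (1 - s) := by
  have h := Real.hasSum_log_sub_log_of_abs_lt_one (x := s) (by rwa [abs_of_nonneg hs0])
  have h1 := le_hasSum h 0 (fun k _ => by positivity)
  simpa using h1

theorem entropy_ge {s : ℝ} (hs0 : 0 ≤ s) (hs1 : s < 1) :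
    s ^ 2 ≤ (1 + s) * log (1 + s) + (1 - s) * log (1 - s) := by
  have hder : ∀ t : ℝ, 0 ≤ t → t < 1 →
      HasDerivAt (fun t : ℝ => (1 + t) * log (1 + t) + (1 - t) * log (1 - t) - t ^ 2)
        (log (1 + t) - log (1 - t) - 2 * t) t := by
    intro t ht0 ht1
    have h1 : (1 + t) ≠ 0 := by linarith
    have h2 : (1 - t) ≠ 0 := by linarith
    have a1 : HasDerivAt (fun t : ℝ => 1 + t) 1 t := (hasDerivAt_id' t).const_add 1
    have a2 : HasDerivAt (fun t : ℝ => 1 - t) (-1) t := (hasDerivAt_id' t).const_sub 1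
    have b1 := a1.mul (a1.log h1)
    have b2 := a2.mul (a2.log h2)
    have b3 := (b1.add b2).sub ((hasDerivAt_id' t).pow 2)
    refine HasDerivAt.congr_deriv b3 ?_
    have e1 : (1 + t) * (1 / (1 + t)) = 1 := mul_one_div_cancel h1
    have e2 : (1 - t) * (-1 / (1 - t)) = -1 := by field_simp
    simp only [Nat.cast_ofNat, one_mul, mul_one]
    rw [e1, e2]
    ring
  have hmono : MonotoneOn (fun t : ℝ => (1 + t) * log (1 + t) + (1 - t) * log (1 - t) - t ^ 2)
      (Ico 0 1) := by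
    refine monotoneOn_of_deriv_nonneg (convex_Ico 0 1) ?_ ?_ ?_
    · intro t ht
      exact (hder t ht.1 ht.2).continuousAt.continuousWithinAt
    · intro t ht
      rw [interior_Ico] at ht
      exact (hder t ht.1.le ht.2).differentiableAt.differentiableWithinAt
    · intro t ht
      rw [interior_Ico] at ht
      rw [(hder t ht.1.le ht.2).deriv]
      have := log_sub_ge ht.1.le ht.2
      linarith
  have h := hmono (left_mem_Ico.2 one_pos) (⟨hs0, hs1⟩ : s ∈ Ico (0:ℝ) 1) hs0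
  simp only [add_zero, sub_zero, log_one, mul_zero] at h
  norm_num at h
  linarith

/-- the uniform lower bound `exp (s²)` of the gain -/
theorem kap_pow_ge_exp {d : ℕ} (hd : 1 ≤ d) {s : ℝ} (hs0 : 0 ≤ s) (hs1 : s < 1) :
    exp (s ^ 2) ≤ kap d s ^ d := by
  refine le_trans ?_ (kap_pow_ge hd hs0 hs1)
  have h1 : 0 < 1 + s := by linarith
  have h2 : 0 < 1 - s := by linarith
  rw [Real.rpow_def_of_pos h1, Real.rpow_def_of_pos h2, ← Real.exp_add]
  refine Real.exp_le_exp.2 ?_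
  have := entropy_ge hs0 hs1
  linarith

theorem unif {d m : ℕ} (hd : 1 ≤ d) (hm : 2 ≤ m) :
    3 / 4 * exp (1 / (m:ℝ) ^ 2) * (1 + 4 * ((m:ℝ) - 1) * (1 / (2 * (m:ℝ))) / (m:ℝ) ^ 2) ^ m ≤
      3 / 4 * kap d (2 * √(1 / (2 * (m:ℝ)) * (1 - 1 / (2 * (m:ℝ))))) ^ d := by
  have hm' : (2:ℝ) ≤ m := by exact_mod_cast hm
  have hm0 : (0:ℝ) < m := by linarith
  obtain ⟨b, hb⟩ : ∃ b, b = 1 / (2 * (m:ℝ)) := ⟨_, rfl⟩
  have hb0 : 0 < b := by rw [hb]; positivity
  have hb1 : b < 1 / 2 := by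
    rw [hb, div_lt_div_iff₀ (by positivity) (by norm_num)]
    linarith
  rw [← hb]
  have h0 : 0 < b * (1 - b) := mul_pos hb0 (by linarith)
  have hs0 : 0 ≤ 2 * √(b * (1 - b)) := by positivity
  have hs2 : (2 * √(b * (1 - b))) ^ 2 = 4 * (b * (1 - b)) := by
    rw [mul_pow, Real.sq_sqrt h0.le]
    norm_num
  have hs1 : 2 * √(b * (1 - b)) < 1 := by
    have h2 : b * (1 - b) < (1 / 2) ^ 2 := by
      nlinarith [mul_pos (sub_pos.2 hb1) (sub_pos.2 hb1)]
    have h3 : √(b * (1 - b)) < 1 / 2 := (Real.sqrt_lt' (by norm_num)).2 h2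
    linarith
  have h1 := kap_pow_ge_exp hd hs0 hs1
  rw [hs2] at h1
  set c : ℝ := 4 * ((m:ℝ) - 1) * b / (m:ℝ) ^ 2 with hc
  have hc0 : 0 ≤ c := by
    have : 0 ≤ (m:ℝ) - 1 := by linarith
    positivity
  have h2 : (1 + c) ^ m ≤ exp (m * c) := by
    rw [Real.exp_nat_mul]
    refine pow_le_pow_left₀ (by positivity) ?_ m
    rw [add_comm]
    exact Real.add_one_le_exp c
  have h3 : exp (1 / (m:ℝ) ^ 2) * exp (m * c) = exp (4 * (b * (1 - b))) := by
    rw [← Real.exp_add]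
    congr 1
    rw [hc, hb]
    field_simp
    ring
  rw [mul_assoc]
  refine mul_le_mul_of_nonneg_left ?_ (by norm_num)
  calc exp (1 / (m:ℝ) ^ 2) * (1 + c) ^ m ≤ exp (1 / (m:ℝ) ^ 2) * exp (m * c) :=
        mul_le_mul_of_nonneg_left h2 (Real.exp_pos _).le
    _ = _ := h3
    _ ≤ _ := h1

end Pool.Agent.U327.LT
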