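import Pool.Agent.Helper717.LT.P_core

set_option autoImplicit false

/-!
# Hardy's inequality for functions which are odd in some coordinate: the vector field
-/

open MeasureTheory Set Filter Topology Real

namespace Pool.Agent.U327.LT

open LTd

variable {d : ℕ}

/-- The sum of the squares of the coordinates in `S`. -/
def rr (S : Finset (Fin d)) (x : Fin d → ℝ) : ℝ := ∑ k ∈ S, x k ^ 2

theorem rr_nonneg (S : Finset (Fin d)) (x : Fin d → ℝ) : 0 ≤ rr S x :=
  Finset.sum_nonneg fun _ _ => sq_nonneg _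

theorem contDiff_rr (S : Finset (Fin d)) : ContDiff ℝ 1 (rr S) :=
  ContDiff.sum fun k _ => (contDiff_apply ℝ ℝ k).pow 2

theorem pd_line {f : (Fin d → ℝ) → ℝ} {x : Fin d → ℝ} {k : Fin d} {f' : ℝ}
    (hf : DifferentiableAt ℝ f x)
    (h : HasDerivAt (fun t : ℝ => f (x + t • (Pi.single k 1 : Fin d → ℝ))) f' 0) :
    pd k f x = f' := by
  have h1 : HasDerivAt (fun t : ℝ => x + t • (Pi.single k 1 : Fin d → ℝ))
      (Pi.single k 1 : Fin d → ℝ) 0 := by
    have := ((hasDerivAt_id (0:ℝ)).smul_const (Pi.single k 1 : Fin d → ℝ)).const_add x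
    simpa using this
  have h0 : x + (0:ℝ) • (Pi.single k 1 : Fin d → ℝ) = x := by simp
  have h2 : HasFDerivAt f (fderiv ℝ f x) (x + (0:ℝ) • (Pi.single k 1 : Fin d → ℝ)) := by
    rw [h0]; exact hf.hasFDerivAt
  have h3 := h2.comp_hasDerivAt (0:ℝ) h1
  exact h3.unique h

theorem line_apply (x : Fin d → ℝ) (k i : Fin d) (t : ℝ) :
    (x + t • (Pi.single k 1 : Fin d → ℝ)) i = x i + if i = k then t else 0 := by
  by_cases h : i = k
  · subst h; simp
  · simp [h]

theorem rr_line {S : Finset (Fin d)} (x : Fin d → ℝ) {k : Fin d} (hk : k ∈ S) (t : ℝ) :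
    rr S (x + t • (Pi.single k 1 : Fin d → ℝ)) = rr S x + (2 * t * x k + t ^ 2) := by
  unfold rr
  have h : ∀ i ∈ S, (x + t • (Pi.single k 1 : Fin d → ℝ)) i ^ 2 =
      x i ^ 2 + if i = k then 2 * t * x k + t ^ 2 else 0 := by
    intro i _
    rw [line_apply]
    by_cases h : i = k
    · subst h; simp; ring
    · simp [h]
  rw [Finset.sum_congr rfl h, Finset.sum_add_distrib, Finset.sum_ite_eq' S k, if_pos hk]

theorem rr_line_not {S : Finset (Fin d)} (x : Fin d → ℝ) {k : Fin d} (hk : k ∉ S) (t : ℝ) :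
    rr S (x + t • (Pi.single k 1 : Fin d → ℝ)) = rr S x := by
  unfold rr
  refine Finset.sum_congr rfl fun i hi => ?_
  have hne : i ≠ k := fun h => hk (h ▸ hi)
  rw [line_apply, if_neg hne, add_zero]

/-- derivative of `rr` along a coordinate line -/
theorem hasDerivAt_rr_line {S : Finset (Fin d)} (x : Fin d → ℝ) {k : Fin d} (hk : k ∈ S) :
    HasDerivAt (fun t : ℝ => rr S (x + t • (Pi.single k 1 : Fin d → ℝ))) (2 * x k) 0 := by
  simp only [rr_line x hk]
  have h1 : HasDerivAt (fun t : ℝ => rr S x + (2 * t * x k + t ^ 2))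
      (0 + (2 * 1 * x k + ((2:ℕ) * (0:ℝ) ^ (2 - 1) * 1))) 0 := by
    refine (hasDerivAt_const (0:ℝ) (rr S x)).add (HasDerivAt.add ?_ ?_)
    · exact ((hasDerivAt_id (0:ℝ)).const_mul 2).mul_const (x k)
    · exact (hasDerivAt_id (0:ℝ)).pow 2
  simpa using h1

/-- The first part of the vector field. -/
noncomputable def va (j : Fin d) (η : ℝ) (x : Fin d → ℝ) : ℝ := x j / (x j ^ 2 + η ^ 2)

/-- The second part of the vector field. -/
noncomputable def vb (S : Finset (Fin d)) (δ : ℝ) (k : Fin d) (x : Fin d → ℝ) : ℝ :=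
  x k / (rr S x + δ)

theorem contDiff_va (j : Fin d) {η : ℝ} (hη : 0 < η) : ContDiff ℝ 1 (va j η) := by
  unfold va
  refine (contDiff_apply ℝ ℝ j).div (((contDiff_apply ℝ ℝ j).pow 2).add contDiff_const) ?_
  intro x
  positivity

theorem contDiff_vb (S : Finset (Fin d)) {δ : ℝ} (hδ : 0 < δ) (k : Fin d) :
    ContDiff ℝ 1 (vb S δ k) := by
  unfold vb
  refine (contDiff_apply ℝ ℝ k).div ((contDiff_rr S).add contDiff_const) ?_
  intro x
  have := rr_nonneg S x
  positivity

theorem pd_va (j : Fin d) {η : ℝ} (hη : 0 < η) (x : Fin d → ℝ) :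
    pd j (va j η) x = 1 / (x j ^ 2 + η ^ 2) - 2 * x j ^ 2 / (x j ^ 2 + η ^ 2) ^ 2 := by
  have hs : x j ^ 2 + η ^ 2 ≠ 0 := by positivity
  refine pd_line ((contDiff_va j hη).differentiable one_ne_zero x) ?_
  unfold va
  simp only [line_apply, if_true]
  have h1 : HasDerivAt (fun t : ℝ => x j + t) 1 0 := (hasDerivAt_id (0:ℝ)).const_add (x j)
  have h2 : HasDerivAt (fun t : ℝ => (x j + t) ^ 2 + η ^ 2) (((2:ℕ) * (x j + 0) ^ (2 - 1) * 1)) 0 :=
    (h1.pow 2).add_const _
  have h3 := h1.div h2 (by simpa using hs)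
  refine h3.congr_deriv ?_
  simp only [add_zero, Nat.cast_ofNat, mul_one]
  field_simp
  ring

theorem pd_va_ne (j : Fin d) {η : ℝ} (hη : 0 < η) {k : Fin d} (hk : k ≠ j) (x : Fin d → ℝ) :
    pd k (va j η) x = 0 := by
  refine pd_line ((contDiff_va j hη).differentiable one_ne_zero x) ?_
  unfold va
  simp only [line_apply, if_neg (Ne.symm hk), add_zero]
  exact hasDerivAt_const _ _

theorem pd_vb {S : Finset (Fin d)} {δ : ℝ} (hδ : 0 < δ) {k : Fin d} (hk : k ∈ S)
    (x : Fin d → ℝ) :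
    pd k (vb S δ k) x = 1 / (rr S x + δ) - 2 * x k ^ 2 / (rr S x + δ) ^ 2 := by
  have hs : rr S x + δ ≠ 0 := by
    have := rr_nonneg S x
    positivity
  refine pd_line ((contDiff_vb S hδ k).differentiable one_ne_zero x) ?_
  unfold vb
  have h1 : HasDerivAt (fun t : ℝ => (x + t • (Pi.single k 1 : Fin d → ℝ)) k) 1 0 := by
    simp only [line_apply, if_true]
    exact (hasDerivAt_id (0:ℝ)).const_add (x k)
  have h2 := (hasDerivAt_rr_line x hk).add_const δ
  have h3 := h1.div h2 (by simpa using hs)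
  refine h3.congr_deriv ?_
  simp only [zero_smul, add_zero]
  field_simp

/-- integration by parts -/
theorem ibp {f V : (Fin d → ℝ) → ℝ} (hf : ContDiff ℝ 1 f) (hc : HasCompactSupport f)
    (hV : ContDiff ℝ 1 V) (k : Fin d) :
    ∫ x, 2 * f x * pd k f x * V x = - ∫ x, f x ^ 2 * pd k V x := by
  have hf2 : ContDiff ℝ 1 (fun x => f x ^ 2) := hf.pow 2
  have hc2 : HasCompactSupport (fun x => f x ^ 2) :=
    hc.comp_left (g := fun t : ℝ => t ^ 2) (by norm_num)
  have hpd : ∀ x, fderiv ℝ (fun x => f x ^ 2) x (Pi.single k 1) = 2 * f x * pd k f x := by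
    intro x
    have h1 := ((hf.differentiable one_ne_zero x).hasFDerivAt.pow 2).fderiv
    unfold pd
    rw [h1]
    simp
  have hcV : Continuous (fun x => fderiv ℝ V x (Pi.single k 1)) :=
    (hV.continuous_fderiv one_ne_zero).clm_apply continuous_const
  have hcf : Continuous (fun x => fderiv ℝ (fun x => f x ^ 2) x (Pi.single k 1)) :=
    (hf2.continuous_fderiv one_ne_zero).clm_apply continuous_const
  have hsf : HasCompactSupport (fun x => fderiv ℝ (fun x => f x ^ 2) x (Pi.single k 1)) :=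
    (pd_basic hf2 hc2 k).2
  have h := integral_mul_fderiv_eq_neg_fderiv_mul_of_integrable (μ := volume)
    (f := fun x => f x ^ 2) (g := V) (v := (Pi.single k 1 : Fin d → ℝ))
    ((hcf.mul hV.continuous).integrable_of_hasCompactSupport hsf.mul_right)
    ((hf2.continuous.mul hcV).integrable_of_hasCompactSupport hc2.mul_right)
    ((hf2.continuous.mul hV.continuous).integrable_of_hasCompactSupport hc2.mul_right)
    (fun x _ => hf2.differentiable one_ne_zero x)
    (fun x _ => hV.differentiable one_ne_zero x)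
  simp only [hpd] at h
  have h2 : ∫ x, f x ^ 2 * fderiv ℝ V x (Pi.single k 1) = ∫ x, f x ^ 2 * pd k V x := rfl
  rw [← h2, h, neg_neg]

theorem key_alg {m δ η y s t R : ℝ} (hδ : δ ≠ 0) (hs : s ≠ 0) (ht : t ≠ 0) (hR : R = s - δ)
    (hX : y ^ 2 = t - η ^ 2) :
    - (((1 / t - 2 * y ^ 2 / t ^ 2) - m / 2 * (m / s - 2 * R / s ^ 2)) +
          ((y / t) ^ 2 - m * (y / t) * (y / s) + m ^ 2 / 4 * (R / s ^ 2))) +
          (η ^ 2 / t ^ 2 + m / δ * (η ^ 2 / t)) - m ^ 2 / 4 * (1 / s) =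
          m * (δ / s ^ 2) + m ^ 2 / 4 * (δ / s ^ 2) + m * (η ^ 2 / t) * (1 / δ - 1 / s) := by
  have e1 : (y / t) ^ 2 = y ^ 2 / t ^ 2 := by rw [div_pow]
  have e2 : m * (y / t) * (y / s) = m * (y ^ 2 / t) / s := by ring
  rw [e1, e2, hR, hX]
  field_simp
  ring

/-- Hardy's inequality with an error term -/
theorem hardy_eta {f : (Fin d → ℝ) → ℝ} (hf : ContDiff ℝ 1 f) (hc : HasCompactSupport f)
    {S : Finset (Fin d)} {j : Fin d} (hj : j ∈ S) {δ η : ℝ} (hδ : 0 < δ) (hη : 0 < η) :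
    (S.card : ℝ) ^ 2 / 4 * ∫ x, f x ^ 2 / (rr S x + δ) ≤
      (∫ x, ∑ k ∈ S, pd k f x ^ 2) +
        ∫ x, f x ^ 2 * (η ^ 2 / (x j ^ 2 + η ^ 2) ^ 2 +
          S.card / δ * (η ^ 2 / (x j ^ 2 + η ^ 2))) := by
  set m : ℝ := (S.card : ℝ) with hm
  have hm0 : 0 ≤ m := Nat.cast_nonneg _
  -- the vector field
  obtain ⟨V, hVdef⟩ : ∃ V : Fin d → (Fin d → ℝ) → ℝ, V = fun k x =>
    (if k = j then va j η x else 0) - m / 2 * vb S δ k x := ⟨_, rfl⟩
  have hVc : ∀ k, ContDiff ℝ 1 (V k) := by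
    intro k
    rw [hVdef]
    refine ContDiff.sub ?_ (contDiff_const.mul (contDiff_vb S hδ k))
    by_cases h : k = j
    · simp only [h, if_true]; exact contDiff_va j hη
    · simp only [h, if_false]; exact contDiff_const
  have hpdV : ∀ k ∈ S, ∀ x, pd k (V k) x =
      (if k = j then 1 / (x j ^ 2 + η ^ 2) - 2 * x j ^ 2 / (x j ^ 2 + η ^ 2) ^ 2 else 0) -
        m / 2 * (1 / (rr S x + δ) - 2 * x k ^ 2 / (rr S x + δ) ^ 2) := by
    intro k hk x
    have h1 : pd k (V k) x = (if k = j then pd k (va j η) x else 0) - m / 2 * pd k (vb S δ k) x := by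
      rw [hVdef]
      unfold pd
      by_cases h : k = j
      · simp only [h, if_true]
        rw [fderiv_fun_sub ((contDiff_va j hη).differentiable one_ne_zero x)
          (((contDiff_vb S hδ j).differentiable one_ne_zero x).const_mul _),
          fderiv_const_mul ((contDiff_vb S hδ j).differentiable one_ne_zero x)]
        rfl
      · simp only [h, if_false]
        rw [fderiv_fun_sub (differentiableAt_const _)
          (((contDiff_vb S hδ k).differentiable one_ne_zero x).const_mul _),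
          fderiv_const_mul ((contDiff_vb S hδ k).differentiable one_ne_zero x)]
        simp
    rw [h1, pd_vb hδ hk]
    by_cases h : k = j
    · subst h
      simp only [if_true]
      rw [pd_va k hη]
    · simp only [h, if_false]
  have hfc := hf.continuous
  have hpf : ∀ k, Continuous (pd k f) := fun k => (pd_basic hf hc k).1
  have hpfs : ∀ k, HasCompactSupport (pd k f) := fun k => (pd_basic hf hc k).2
  have hpV : ∀ k, Continuous (pd k (V k)) := fun k =>
    ((hVc k).continuous_fderiv one_ne_zero).clm_apply continuous_const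
  have hc2 : HasCompactSupport (fun x => f x ^ 2) :=
    hc.comp_left (g := fun t : ℝ => t ^ 2) (by norm_num)
  have i1 : ∀ k, Integrable fun x => pd k f x ^ 2 := by
    intro k
    have c1 : Continuous fun x => pd k f x ^ 2 := (hpf k).pow 2
    have s1 : HasCompactSupport fun x => pd k f x ^ 2 :=
      (hpfs k).comp_left (g := fun t : ℝ => t ^ 2) (by norm_num)
    exact c1.integrable_of_hasCompactSupport s1
  have i2 : ∀ k, Integrable fun x => 2 * f x * pd k f x * V k x := fun k =>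
    (((continuous_const.mul hfc).mul (hpf k)).mul (hVc k).continuous).integrable_of_hasCompactSupport
      (((hpfs k).mul_left (f := fun x => 2 * f x)).mul_right)
  have i3 : ∀ k, Integrable fun x => f x ^ 2 * V k x ^ 2 := fun k =>
    ((hfc.pow 2).mul ((hVc k).continuous.pow 2)).integrable_of_hasCompactSupport hc2.mul_right
  have i4 : ∀ k, Integrable fun x => f x ^ 2 * pd k (V k) x := fun k =>
    ((hfc.pow 2).mul (hpV k)).integrable_of_hasCompactSupport hc2.mul_right
  have i43 : ∀ k, Integrable fun x => f x ^ 2 * pd k (V k) x + f x ^ 2 * V k x ^ 2 :=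
    fun k => (i4 k).add (i3 k)
  -- completing the square
  have hk : ∀ k, - ∫ x, (f x ^ 2 * pd k (V k) x + f x ^ 2 * V k x ^ 2) ≤ ∫ x, pd k f x ^ 2 := by
    intro k
    rw [integral_add (i4 k) (i3 k), neg_add, ← ibp hf hc (hVc k) k, ← sub_eq_add_neg,
      ← integral_sub (i2 k) (i3 k)]
    refine integral_mono ((i2 k).sub (i3 k)) (i1 k) fun x => ?_
    nlinarith [sq_nonneg (pd k f x - f x * V k x)]
  have hsum : - ∫ x, ∑ k ∈ S, (f x ^ 2 * pd k (V k) x + f x ^ 2 * V k x ^ 2) ≤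
      ∫ x, ∑ k ∈ S, pd k f x ^ 2 := by
    rw [integral_finsetSum _ fun k _ => i43 k, integral_finsetSum _ fun k _ => i1 k,
      ← Finset.sum_neg_distrib]
    exact Finset.sum_le_sum fun k _ => hk k
  -- pointwise bound
  have hA : ∀ x, ∑ k ∈ S, V k x ^ 2 = va j η x ^ 2 - m * va j η x * (x j / (rr S x + δ)) +
      m ^ 2 / 4 * (rr S x / (rr S x + δ) ^ 2) := by
    intro x
    have h1 : ∀ k ∈ S, V k x ^ 2 = (if k = j then va j η x ^ 2 -
        m * va j η x * (x j / (rr S x + δ)) else 0) +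
        m ^ 2 / 4 * (1 / (rr S x + δ) ^ 2) * x k ^ 2 := by
      intro k _
      rw [hVdef]
      unfold vb
      dsimp only
      generalize rr S x + δ = s
      by_cases h : k = j
      · subst h
        simp only [if_true]
        ring
      · simp only [h, if_false]
        ring
    rw [Finset.sum_congr rfl h1, Finset.sum_add_distrib, Finset.sum_ite_eq' S j, if_pos hj,
      ← Finset.mul_sum]
    have : ∑ k ∈ S, x k ^ 2 = rr S x := rfl
    rw [this]
    generalize rr S x + δ = s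
    ring
  have hB : ∀ x, ∑ k ∈ S, pd k (V k) x =
      (1 / (x j ^ 2 + η ^ 2) - 2 * x j ^ 2 / (x j ^ 2 + η ^ 2) ^ 2) -
        m / 2 * (m / (rr S x + δ) - 2 * rr S x / (rr S x + δ) ^ 2) := by
    intro x
    rw [Finset.sum_congr rfl fun k hk => hpdV k hk x, Finset.sum_sub_distrib,
      Finset.sum_ite_eq' S j, if_pos hj, ← Finset.mul_sum, Finset.sum_sub_distrib,
      Finset.sum_const, ← Finset.sum_div, ← Finset.mul_sum]
    have : ∑ k ∈ S, x k ^ 2 = rr S x := rfl
    rw [this, nsmul_eq_mul, ← hm]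
    generalize rr S x + δ = s
    ring
  have hpt : ∀ x, m ^ 2 / 4 * (f x ^ 2 / (rr S x + δ)) ≤
      - (∑ k ∈ S, (f x ^ 2 * pd k (V k) x + f x ^ 2 * V k x ^ 2)) +
        f x ^ 2 * (η ^ 2 / (x j ^ 2 + η ^ 2) ^ 2 + m / δ * (η ^ 2 / (x j ^ 2 + η ^ 2))) := by
    intro x
    have hs : 0 < rr S x + δ := by have := rr_nonneg S x; positivity
    have ht : 0 < x j ^ 2 + η ^ 2 := by positivity
    rw [Finset.sum_add_distrib, ← Finset.mul_sum, ← Finset.mul_sum, hA, hB]
    have key : m ^ 2 / 4 * (1 / (rr S x + δ)) ≤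
        - (((1 / (x j ^ 2 + η ^ 2) - 2 * x j ^ 2 / (x j ^ 2 + η ^ 2) ^ 2) -
        m / 2 * (m / (rr S x + δ) - 2 * rr S x / (rr S x + δ) ^ 2)) +
        (va j η x ^ 2 - m * va j η x * (x j / (rr S x + δ)) +
          m ^ 2 / 4 * (rr S x / (rr S x + δ) ^ 2))) +
        (η ^ 2 / (x j ^ 2 + η ^ 2) ^ 2 + m / δ * (η ^ 2 / (x j ^ 2 + η ^ 2))) := by
      unfold va
      have e := key_alg (m := m) (δ := δ) (η := η) (y := x j) (s := rr S x + δ)
        (t := x j ^ 2 + η ^ 2) (R := rr S x) hδ.ne' hs.ne' ht.ne' (by ring) (by ring)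
      have h1 : 0 ≤ 1 / δ - 1 / (rr S x + δ) := by
        have : 1 / (rr S x + δ) ≤ 1 / δ := one_div_le_one_div_of_le hδ (by
          have := rr_nonneg S x; linarith)
        linarith
      have h2 : 0 ≤ m * (δ / (rr S x + δ) ^ 2) + m ^ 2 / 4 * (δ / (rr S x + δ) ^ 2) +
          m * (η ^ 2 / (x j ^ 2 + η ^ 2)) * (1 / δ - 1 / (rr S x + δ)) := by
        positivity
      linarith
    have h3 := mul_le_mul_of_nonneg_left key (sq_nonneg (f x))
    have e1 : f x ^ 2 * (m ^ 2 / 4 * (1 / (rr S x + δ))) =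
        m ^ 2 / 4 * (f x ^ 2 / (rr S x + δ)) := by ring
    rw [e1] at h3
    refine h3.trans (le_of_eq ?_)
    ring
  -- integrate
  have hsc : Continuous fun x => rr S x := (contDiff_rr S).continuous
  have i5 : Integrable fun x => f x ^ 2 / (rr S x + δ) := by
    have hcont : Continuous fun x => f x ^ 2 * (rr S x + δ)⁻¹ :=
      (hfc.pow 2).mul ((hsc.add continuous_const).inv₀ fun x =>
        (add_pos_of_nonneg_of_pos (rr_nonneg S x) hδ).ne')
    exact hcont.integrable_of_hasCompactSupport hc2.mul_right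
  have i6 : Integrable fun x => f x ^ 2 * (η ^ 2 / (x j ^ 2 + η ^ 2) ^ 2 +
      m / δ * (η ^ 2 / (x j ^ 2 + η ^ 2))) := by
    have hxc : Continuous fun x : Fin d → ℝ => x j ^ 2 + η ^ 2 :=
      ((continuous_apply j).pow 2).add continuous_const
    have hx0 : ∀ x : Fin d → ℝ, x j ^ 2 + η ^ 2 ≠ 0 := fun x => by positivity
    refine ((hfc.pow 2).mul ?_).integrable_of_hasCompactSupport hc2.mul_right
    exact (continuous_const.div (hxc.pow 2) fun x => pow_ne_zero 2 (hx0 x)).add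
      (continuous_const.mul (continuous_const.div hxc hx0))
  have i7 : Integrable fun x => ∑ k ∈ S, (f x ^ 2 * pd k (V k) x + f x ^ 2 * V k x ^ 2) :=
    integrable_finsetSum _ fun k _ => i43 k
  rw [← integral_const_mul]
  have h5 := integral_mono (i5.const_mul (m ^ 2 / 4)) (i7.neg.add i6) hpt
  refine h5.trans ?_
  have h6 : ∫ x, ((-fun x => ∑ k ∈ S, (f x ^ 2 * pd k (V k) x + f x ^ 2 * V k x ^ 2)) +
      fun x => f x ^ 2 * (η ^ 2 / (x j ^ 2 + η ^ 2) ^ 2 +
      m / δ * (η ^ 2 / (x j ^ 2 + η ^ 2)))) x =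
      - (∫ x, ∑ k ∈ S, (f x ^ 2 * pd k (V k) x + f x ^ 2 * V k x ^ 2)) +
      ∫ x, f x ^ 2 * (η ^ 2 / (x j ^ 2 + η ^ 2) ^ 2 +
        m / δ * (η ^ 2 / (x j ^ 2 + η ^ 2))) := by
    rw [integral_add' i7.neg i6, integral_neg']
  rw [h6]
  exact add_le_add hsum le_rfl

end Pool.Agent.U327.LT
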