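import Pool.Agent.U327.LT.V3
import Pool.Agent.U327.LT.H1

set_option autoImplicit false

/-!
# Clifford matrices and the rotation `W = A + B X`
-/

open MeasureTheory Set Filter Topology Real
open scoped Matrix

namespace Pool.Agent.U327.LT

open LTd

variable {d : ℕ} {κ : Type} [Fintype κ] [DecidableEq κ]

/-- real symmetric matrices which generate a Clifford algebra -/
structure Cl (S : Finset (Fin d)) (Γ : Fin d → Matrix κ κ ℝ) : Prop where
  sym : ∀ k ∈ S, (Γ k)ᵀ = Γ k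
  anti : ∀ k ∈ S, ∀ l ∈ S, Γ k * Γ l + Γ l * Γ k = if k = l then (2:ℝ) • 1 else 0
  tr : ∀ k ∈ S, (Γ k).trace = 0

/-- `X = ∑ x_k Γ_k` -/
noncomputable def XX (S : Finset (Fin d)) (Γ : Fin d → Matrix κ κ ℝ) (x : Fin d → ℝ) :
    Matrix κ κ ℝ := ∑ k ∈ S, x k • Γ k

/-- `W = A + B X` -/
noncomputable def WW (S : Finset (Fin d)) (Γ : Fin d → Matrix κ κ ℝ) (A B : ℝ) (x : Fin d → ℝ) :
    Matrix κ κ ℝ := A • 1 + B • XX S Γ x

variable {S : Finset (Fin d)} {Γ : Fin d → Matrix κ κ ℝ}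

theorem XX_transpose (h : Cl S Γ) (x : Fin d → ℝ) : (XX S Γ x)ᵀ = XX S Γ x := by
  unfold XX
  rw [Matrix.transpose_sum]
  refine Finset.sum_congr rfl fun k hk => ?_
  rw [Matrix.transpose_smul, h.sym k hk]

theorem XX_mul (h : Cl S Γ) (x : Fin d → ℝ) : XX S Γ x * XX S Γ x = rr S x • 1 := by
  have h1 : XX S Γ x * XX S Γ x = ∑ k ∈ S, ∑ l ∈ S, (x k * x l) • (Γ k * Γ l) := by
    unfold XX
    rw [Finset.sum_mul]
    refine Finset.sum_congr rfl fun k _ => ?_
    rw [Finset.mul_sum]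
    refine Finset.sum_congr rfl fun l _ => ?_
    rw [Matrix.smul_mul, Matrix.mul_smul, smul_smul]
  have h2 : XX S Γ x * XX S Γ x = ∑ k ∈ S, ∑ l ∈ S, (x k * x l) • (Γ l * Γ k) := by
    rw [h1, Finset.sum_comm]
    refine Finset.sum_congr rfl fun k _ => Finset.sum_congr rfl fun l _ => ?_
    rw [mul_comm (x l)]
  have h3 : XX S Γ x * XX S Γ x + XX S Γ x * XX S Γ x = (2 * rr S x) • 1 := by
    conv_lhs => rw [h1]
    conv_lhs => rw [← h1, h1]
    have h4 : XX S Γ x * XX S Γ x + XX S Γ x * XX S Γ x =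
        ∑ k ∈ S, ∑ l ∈ S, (x k * x l) • (Γ k * Γ l + Γ l * Γ k) := by
      conv_lhs => rw [h2]
      rw [← h2]
      conv_lhs => enter [1]; rw [h1]
      conv_lhs => enter [2]; rw [h2]
      rw [← Finset.sum_add_distrib]
      refine Finset.sum_congr rfl fun k _ => ?_
      rw [← Finset.sum_add_distrib]
      refine Finset.sum_congr rfl fun l _ => ?_
      rw [smul_add]
    rw [← h1, h4]
    have h5 : ∀ k ∈ S, ∑ l ∈ S, (x k * x l) • (Γ k * Γ l + Γ l * Γ k) =
        (2 * x k ^ 2) • (1 : Matrix κ κ ℝ) := by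
      intro k hk
      have h6 : ∀ l ∈ S, (x k * x l) • (Γ k * Γ l + Γ l * Γ k) =
          if k = l then (2 * x k ^ 2) • (1 : Matrix κ κ ℝ) else 0 := by
        intro l hl
        rw [h.anti k hk l hl]
        by_cases hkl : k = l
        · subst hkl
          simp only [if_true]
          rw [smul_smul]
          congr 1
          ring
        · simp only [hkl, if_false, smul_zero]
      rw [Finset.sum_congr rfl h6, Finset.sum_ite_eq S k, if_pos hk]
    rw [Finset.sum_congr rfl h5, ← Finset.sum_smul, ← Finset.mul_sum]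
    rfl
  have h7 : (2:ℝ) • (XX S Γ x * XX S Γ x) = (2:ℝ) • (rr S x • (1 : Matrix κ κ ℝ)) := by
    rw [two_smul, h3, smul_smul]
  exact smul_right_injective _ (two_ne_zero) h7

theorem XX_trace (h : Cl S Γ) (x : Fin d → ℝ) : (XX S Γ x).trace = 0 := by
  unfold XX
  rw [Matrix.trace_sum]
  refine Finset.sum_eq_zero fun k hk => ?_
  rw [Matrix.trace_smul, h.tr k hk, smul_zero]

theorem trace_gg (h : Cl S Γ) {k l : Fin d} (hk : k ∈ S) (hl : l ∈ S) :
    (Γ k * Γ l).trace = if k = l then (Fintype.card κ : ℝ) else 0 := by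
  have h1 := congrArg Matrix.trace (h.anti k hk l hl)
  rw [Matrix.trace_add, Matrix.trace_mul_comm (Γ l) (Γ k)] at h1
  by_cases hkl : k = l
  · simp only [hkl, if_true, Matrix.trace_smul, Matrix.trace_one, smul_eq_mul] at h1 ⊢
    linarith
  · simp only [hkl, if_false, Matrix.trace_zero] at h1 ⊢
    linarith

theorem trace_xg (h : Cl S Γ) (x : Fin d → ℝ) {k : Fin d} (hk : k ∈ S) :
    (XX S Γ x * Γ k).trace = Fintype.card κ * x k := by
  unfold XX
  rw [Finset.sum_mul, Matrix.trace_sum]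
  have h1 : ∀ l ∈ S, (x l • Γ l * Γ k).trace = if l = k then Fintype.card κ * x k else 0 := by
    intro l hl
    rw [Matrix.smul_mul, Matrix.trace_smul, trace_gg h hl hk]
    by_cases hlk : l = k
    · subst hlk
      simp only [if_true, smul_eq_mul]
      ring
    · simp only [hlk, if_false, smul_zero]
  rw [Finset.sum_congr rfl h1, Finset.sum_ite_eq' S k, if_pos hk]

theorem ww_gram (h : Cl S Γ) {A B : ℝ} (x : Fin d → ℝ) (hAB : A ^ 2 + B ^ 2 * rr S x = 1) :
    (WW S Γ A B x)ᵀ * WW S Γ A B x = 1 + (2 * A * B) • XX S Γ x := by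
  unfold WW
  rw [Matrix.transpose_add, Matrix.transpose_smul, Matrix.transpose_smul, Matrix.transpose_one,
    XX_transpose h, Matrix.add_mul, Matrix.mul_add, Matrix.mul_add]
  simp only [Matrix.smul_mul, Matrix.mul_smul, Matrix.one_mul, Matrix.mul_one, smul_smul,
    XX_mul h]
  have e : (A ^ 2 + B ^ 2 * rr S x) • (1 : Matrix κ κ ℝ) + (2 * A * B) • XX S Γ x =
      1 + (2 * A * B) • XX S Γ x := by rw [hAB, one_smul]
  rw [← e]
  module

theorem ww_sq (h : Cl S Γ) {A B : ℝ} (x : Fin d → ℝ) (hAB : A ^ 2 + B ^ 2 * rr S x = 1) {σ : ℝ}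
    (hσ : σ ^ 2 = 4 * A ^ 2 * B ^ 2 * rr S x) :
    ((WW S Γ A B x)ᵀ * WW S Γ A B x) * ((WW S Γ A B x)ᵀ * WW S Γ A B x) =
      (2:ℝ) • ((WW S Γ A B x)ᵀ * WW S Γ A B x) - (1 - σ ^ 2) • 1 := by
  rw [ww_gram h x hAB, Matrix.add_mul, Matrix.mul_add, Matrix.mul_add]
  simp only [Matrix.smul_mul, Matrix.mul_smul, Matrix.one_mul, Matrix.mul_one, smul_smul,
    XX_mul h]
  rw [hσ]
  module

theorem ww_trace (h : Cl S Γ) {A B : ℝ} (x : Fin d → ℝ) (hAB : A ^ 2 + B ^ 2 * rr S x = 1) :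
    ((WW S Γ A B x)ᵀ * WW S Γ A B x).trace = Fintype.card κ := by
  rw [ww_gram h x hAB, Matrix.trace_add, Matrix.trace_one, Matrix.trace_smul, XX_trace h,
    smul_zero, add_zero]

omit [DecidableEq κ] in
theorem ip_trace (P Q : Matrix κ κ ℝ) : ∑ c, ∑ a, P c a * Q c a = (Pᵀ * Q).trace := by
  rw [Matrix.trace, Finset.sum_comm]
  refine Finset.sum_congr rfl fun a _ => ?_
  rw [Matrix.diag_apply, Matrix.mul_apply]
  rfl

/-- The sum over the entries of the square of `P F + W D`, `P` the derivative of `W`. -/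
theorem entries (h : Cl S Γ) {A B a' b' : ℝ} (x : Fin d → ℝ) (hAB : A ^ 2 + B ^ 2 * rr S x = 1)
    (hd : 2 * A * a' + 2 * B * b' * rr S x + B ^ 2 = 0) {k : Fin d} (hk : k ∈ S) (F D : ℝ) :
    ∑ c, ∑ a, (((2 * x k * a') • (1 : Matrix κ κ ℝ) + (2 * x k * b') • XX S Γ x + B • Γ k) c a * F +
        WW S Γ A B x c a * D) ^ 2 =
      Fintype.card κ * (D ^ 2 + F ^ 2 * (4 * x k ^ 2 * a' ^ 2 + 4 * x k ^ 2 * b' ^ 2 * rr S x +
        B ^ 2 + 4 * x k ^ 2 * (b' * B))) := by
  set P : Matrix κ κ ℝ := (2 * x k * a') • (1 : Matrix κ κ ℝ) + (2 * x k * b') • XX S Γ x + B • Γ k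
    with hP
  set W := WW S Γ A B x with hW
  have h1 : ∑ c, ∑ a, (P c a * F + W c a * D) ^ 2 =
      F ^ 2 * (Pᵀ * P).trace + 2 * F * D * (Pᵀ * W).trace + D ^ 2 * (Wᵀ * W).trace := by
    rw [← ip_trace, ← ip_trace, ← ip_trace, Finset.mul_sum, Finset.mul_sum, Finset.mul_sum,
      ← Finset.sum_add_distrib, ← Finset.sum_add_distrib]
    refine Finset.sum_congr rfl fun c _ => ?_
    rw [Finset.mul_sum, Finset.mul_sum, Finset.mul_sum, ← Finset.sum_add_distrib,
      ← Finset.sum_add_distrib]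
    refine Finset.sum_congr rfl fun a _ => ?_
    ring
  have hPt : Pᵀ = P := by
    rw [hP, Matrix.transpose_add, Matrix.transpose_add, Matrix.transpose_smul,
      Matrix.transpose_smul, Matrix.transpose_smul, Matrix.transpose_one, XX_transpose h,
      h.sym k hk]
  have hgx : (Γ k * XX S Γ x).trace = Fintype.card κ * x k := by
    rw [Matrix.trace_mul_comm, trace_xg h x hk]
  have hgg : (Γ k * Γ k).trace = Fintype.card κ := by
    rw [trace_gg h hk hk, if_pos rfl]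
  have h2 : (Pᵀ * P).trace = Fintype.card κ * (4 * x k ^ 2 * a' ^ 2 +
      4 * x k ^ 2 * b' ^ 2 * rr S x + B ^ 2 + 4 * x k ^ 2 * (b' * B)) := by
    rw [hPt, hP]
    simp only [Matrix.add_mul, Matrix.mul_add, Matrix.smul_mul, Matrix.mul_smul, Matrix.one_mul,
      Matrix.mul_one, XX_mul h, Matrix.trace_add, Matrix.trace_smul, Matrix.trace_one,
      XX_trace h, h.tr k hk, hgx, hgg, trace_xg h x hk, smul_eq_mul]
    ring
  have h3 : (Pᵀ * W).trace = 0 := by
    rw [hPt, hP, hW]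
    unfold WW
    simp only [Matrix.add_mul, Matrix.mul_add, Matrix.smul_mul, Matrix.mul_smul, Matrix.one_mul,
      Matrix.mul_one, XX_mul h, Matrix.trace_add, Matrix.trace_smul, Matrix.trace_one,
      XX_trace h, h.tr k hk, hgx, smul_eq_mul]
    linear_combination (Fintype.card κ * x k) * hd
  rw [h1, h2, h3, hW, ww_trace h x hAB]
  ring

theorem entries' (h : Cl S Γ) {A B : ℝ} (x : Fin d → ℝ) (hAB : A ^ 2 + B ^ 2 * rr S x = 1)
    (D : ℝ) :
    ∑ c, ∑ a, (WW S Γ A B x c a * D) ^ 2 = Fintype.card κ * D ^ 2 := by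
  have h1 : ∑ c, ∑ a, (WW S Γ A B x c a * D) ^ 2 =
      D ^ 2 * ((WW S Γ A B x)ᵀ * WW S Γ A B x).trace := by
    rw [← ip_trace, Finset.mul_sum]
    refine Finset.sum_congr rfl fun c _ => ?_
    rw [Finset.mul_sum]
    refine Finset.sum_congr rfl fun a _ => ?_
    ring
  rw [h1, ww_trace h x hAB]
  ring

end Pool.Agent.U327.LT
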