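import Mathlib

set_option autoImplicit false

/-!
# The numerical constants
-/

open Set Filter Topology Real

namespace Pool.Agent.U327.LT

/-- the gain `((1+s)^p + (1-s)^p)/2`, `p = 1 + 2/d` -/
noncomputable def kap (d : ℕ) (s : ℝ) : ℝ :=
  ((1 + s) ^ (1 + 2 / (d:ℝ)) + (1 - s) ^ (1 + 2 / (d:ℝ))) / 2

theorem kap_pos (d : ℕ) {s : ℝ} (hs0 : 0 ≤ s) (hs1 : s < 1) : 0 < kap d s := by
  unfold kap
  have h1 : 0 < (1 + s) ^ (1 + 2 / (d:ℝ)) := Real.rpow_pos_of_pos (by linarith) _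
  have h2 : 0 < (1 - s) ^ (1 + 2 / (d:ℝ)) := Real.rpow_pos_of_pos (by linarith) _
  positivity

theorem const_le {d m : ℕ} (hd : 1 ≤ d) {C κ c : ℝ} (hC : 0 < C) (hκ : 0 < κ) (hc : 0 < c)
    (h : C * c ^ m ≤ 3 / 4 * κ ^ d) :
    C ^ (1 / (d:ℝ)) ≤ (3 / 4 : ℝ) ^ (1 / (d:ℝ)) * κ * c ^ (-((m:ℝ) / d)) := by
  have hd0 : (0:ℝ) < d := by exact_mod_cast hd
  have h1 : (C * c ^ m) ^ (1 / (d:ℝ)) ≤ (3 / 4 * κ ^ d) ^ (1 / (d:ℝ)) :=
    Real.rpow_le_rpow (by positivity) h (by positivity)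
  rw [Real.mul_rpow hC.le (by positivity), Real.mul_rpow (by norm_num) (by positivity),
    ← Real.rpow_natCast, ← Real.rpow_natCast, ← Real.rpow_mul hc.le, ← Real.rpow_mul hκ.le,
    mul_one_div_cancel hd0.ne', Real.rpow_one] at h1
  have e : (m:ℝ) * (1 / (d:ℝ)) = (m:ℝ) / d := by ring
  rw [e] at h1
  rw [Real.rpow_neg hc.le, ← div_eq_mul_inv, le_div_iff₀ (Real.rpow_pos_of_pos hc _)]
  exact h1

theorem kap_eq (d : ℕ) {s : ℝ} (hs0 : 0 ≤ s) (hs1 : s < 1) :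
    kap d s = (1 + s) / 2 * (1 + s) ^ (2 / (d:ℝ)) + (1 - s) / 2 * (1 - s) ^ (2 / (d:ℝ)) := by
  unfold kap
  rw [Real.rpow_add (by linarith), Real.rpow_add (by linarith), Real.rpow_one, Real.rpow_one]
  ring

/-- The gain in all dimensions. -/
theorem kap_pow_ge {d : ℕ} (hd : 1 ≤ d) {s : ℝ} (hs0 : 0 ≤ s) (hs1 : s < 1) :
    (1 + s) ^ (1 + s) * (1 - s) ^ (1 - s) ≤ kap d s ^ d := by
  have hd0 : (0:ℝ) < d := by exact_mod_cast hd
  have h1s : 0 < 1 + s := by linarith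
  have h2s : 0 < 1 - s := by linarith
  have h := Real.geom_mean_le_arith_mean2_weighted (w₁ := (1 + s) / 2) (w₂ := (1 - s) / 2)
    (p₁ := (1 + s) ^ (2 / (d:ℝ))) (p₂ := (1 - s) ^ (2 / (d:ℝ))) (by positivity) (by positivity)
    (by positivity) (by positivity) (by ring)
  rw [← kap_eq d hs0 hs1, ← Real.rpow_mul h1s.le, ← Real.rpow_mul h2s.le] at h
  have h2 := pow_le_pow_left₀ (by positivity) h d
  refine le_trans (le_of_eq ?_) h2
  rw [mul_pow, ← Real.rpow_natCast, ← Real.rpow_natCast, ← Real.rpow_mul h1s.le,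
    ← Real.rpow_mul h2s.le]
  congr 2 <;> field_simp

/-- The gain decreases in the dimension. -/
theorem kap_pow_anti {d e : ℕ} (hd : 1 ≤ d) (hde : d ≤ e) {s : ℝ} (hs0 : 0 ≤ s) (hs1 : s < 1) :
    kap e s ^ e ≤ kap d s ^ d := by
  have hd0 : (0:ℝ) < d := by exact_mod_cast hd
  have he0 : (0:ℝ) < e := by exact_mod_cast hd.trans hde
  have hde' : (d:ℝ) ≤ e := by exact_mod_cast hde
  have h1s : 0 < 1 + s := by linarith
  have h2s : 0 < 1 - s := by linarith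
  have hp : 1 ≤ (e:ℝ) / d := (one_le_div hd0).2 hde'
  have hx : (1 + s) ^ (2 / (e:ℝ)) ∈ Ici (0:ℝ) := mem_Ici.2 (by positivity)
  have hy : (1 - s) ^ (2 / (e:ℝ)) ∈ Ici (0:ℝ) := mem_Ici.2 (by positivity)
  have hw1 : 0 ≤ (1 + s) / 2 := by positivity
  have hw2 : 0 ≤ (1 - s) / 2 := by positivity
  have h := (convexOn_rpow hp).2 hx hy hw1 hw2 (by ring)
  simp only [smul_eq_mul] at h
  rw [← kap_eq e hs0 hs1, ← Real.rpow_mul h1s.le, ← Real.rpow_mul h2s.le] at h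
  have e1 : 2 / (e:ℝ) * ((e:ℝ) / d) = 2 / (d:ℝ) := by field_simp
  rw [e1, ← kap_eq d hs0 hs1] at h
  have hk := kap_pos e hs0 hs1
  have h2 := pow_le_pow_left₀ (by positivity) h d
  refine le_trans (le_of_eq ?_) h2
  rw [← Real.rpow_natCast, ← Real.rpow_natCast, ← Real.rpow_mul hk.le]
  congr 1
  field_simp

/-- bounds for a rational power -/
theorem le_rpow_of_pow {x y : ℝ} (hx : 0 < x) (hy : 0 < y) {a b : ℕ} (hb : 0 < b)
    (h : y ^ b ≤ x ^ a) : y ≤ x ^ ((a:ℝ) / b) := by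
  have hb0 : (b:ℝ) ≠ 0 := by exact_mod_cast hb.ne'
  have h1 : x ^ ((a:ℝ) / b) = (x ^ a) ^ ((b:ℝ)⁻¹) := by
    rw [← Real.rpow_natCast, ← Real.rpow_mul hx.le, div_eq_mul_inv]
  rw [h1]
  calc y = (y ^ b) ^ ((b:ℝ)⁻¹) := by
        rw [← Real.rpow_natCast, ← Real.rpow_mul hy.le, mul_inv_cancel₀ hb0, Real.rpow_one]
    _ ≤ _ := Real.rpow_le_rpow (by positivity) h (by positivity)

theorem num_22 : (3 / 2 : ℝ) * (17 / 13) ^ 2 ≤ 3 / 4 * kap 2 (12 / 13) ^ 2 := by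
  have h : kap 2 (12 / 13) = 313 / 169 := by
    unfold kap
    have e : (1 + 2 / ((2:ℕ):ℝ)) = ((2:ℕ):ℝ) := by norm_num
    rw [e, Real.rpow_natCast, Real.rpow_natCast]
    norm_num
  rw [h]
  norm_num

theorem num_33 : (6 / 5 : ℝ) * (149 / 117) ^ 3 ≤ 3 / 4 * kap 3 (12 / 13) ^ 3 := by
  have h : (2973 / 1000 + 139 / 10000) / 2 ≤ kap 3 (12 / 13) := by
    unfold kap
    have e : (1 + 2 / ((3:ℕ):ℝ)) = ((5:ℕ):ℝ) / ((3:ℕ):ℝ) := by norm_num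
    rw [e]
    have h1 : (2973 / 1000 : ℝ) ≤ (1 + 12 / 13) ^ (((5:ℕ):ℝ) / ((3:ℕ):ℝ)) :=
      le_rpow_of_pow (by norm_num) (by norm_num) (by norm_num) (by norm_num)
    have h2 : (139 / 10000 : ℝ) ≤ (1 - 12 / 13) ^ (((5:ℕ):ℝ) / ((3:ℕ):ℝ)) :=
      le_rpow_of_pow (by norm_num) (by norm_num) (by norm_num) (by norm_num)
    linarith
  have h3 := pow_le_pow_left₀ (by norm_num) h 3
  refine le_trans ?_ (mul_le_mul_of_nonneg_left h3 (by norm_num))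
  norm_num

theorem num_44 : (107 / 100 : ℝ) * (163 / 136) ^ 4 ≤ 3 / 4 * kap 4 (15 / 17) ^ 4 := by
  have h : (25825 / 10000 + 403 / 10000) / 2 ≤ kap 4 (15 / 17) := by
    unfold kap
    have e : (1 + 2 / ((4:ℕ):ℝ)) = ((3:ℕ):ℝ) / ((2:ℕ):ℝ) := by norm_num
    rw [e]
    have h1 : (25825 / 10000 : ℝ) ≤ (1 + 15 / 17) ^ (((3:ℕ):ℝ) / ((2:ℕ):ℝ)) :=
      le_rpow_of_pow (by norm_num) (by norm_num) (by norm_num) (by norm_num)
    have h2 : (403 / 10000 : ℝ) ≤ (1 - 15 / 17) ^ (((3:ℕ):ℝ) / ((2:ℕ):ℝ)) :=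
      le_rpow_of_pow (by norm_num) (by norm_num) (by norm_num) (by norm_num)
    linarith
  have h3 := pow_le_pow_left₀ (by norm_num) h 4
  refine le_trans ?_ (mul_le_mul_of_nonneg_left h3 (by norm_num))
  norm_num

theorem num_4 {d : ℕ} (hd : 4 ≤ d) (hd' : d ≤ 11) :
    (1 : ℝ) * (16 / 13) ^ 4 ≤ 3 / 4 * kap d (12 / 13) ^ d := by
  have h : (216586 / 100000 + 48252 / 1000000) / 2 ≤ kap 11 (12 / 13) := by
    unfold kap
    have e : (1 + 2 / ((11:ℕ):ℝ)) = ((13:ℕ):ℝ) / ((11:ℕ):ℝ) := by norm_num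
    rw [e]
    have h1 : (216586 / 100000 : ℝ) ≤ (1 + 12 / 13) ^ (((13:ℕ):ℝ) / ((11:ℕ):ℝ)) :=
      le_rpow_of_pow (by norm_num) (by norm_num) (by norm_num) (by norm_num)
    have h2 : (48252 / 1000000 : ℝ) ≤ (1 - 12 / 13) ^ (((13:ℕ):ℝ) / ((11:ℕ):ℝ)) :=
      le_rpow_of_pow (by norm_num) (by norm_num) (by norm_num) (by norm_num)
    linarith
  have h3 := pow_le_pow_left₀ (by norm_num) h 11
  have h4 := kap_pow_anti (d := d) (e := 11) (by omega) hd' (s := 12 / 13) (by norm_num)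
    (by norm_num)
  refine le_trans ?_ (mul_le_mul_of_nonneg_left (h3.trans h4) (by norm_num))
  norm_num

theorem gain_3 : (4 / 3 * (107 / 100) * (497 / 369) ^ 3 : ℝ) ≤
    (1 + 40 / 41) ^ (1 + 40 / 41 : ℝ) * (1 - 40 / 41) ^ (1 - 40 / 41 : ℝ) := by
  have e1 : (1 + 40 / 41 : ℝ) = 81 / 41 := by norm_num
  have e2 : (1 - 40 / 41 : ℝ) = 1 / 41 := by norm_num
  rw [e1, e2]
  have h1 : (81 / 41 : ℝ) ^ (81 / 41 : ℝ) = ((81 / 41 : ℝ) ^ 81) ^ (1 / 41 : ℝ) := by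
    rw [← Real.rpow_natCast, ← Real.rpow_mul (by norm_num)]
    norm_num
  rw [h1, ← Real.mul_rpow (by positivity) (by positivity)]
  have h2 : (4 / 3 * (107 / 100) * (497 / 369) ^ 3 : ℝ) =
      ((4 / 3 * (107 / 100) * (497 / 369) ^ 3 : ℝ) ^ 41) ^ (1 / 41 : ℝ) := by
    have h3 : ∀ A : ℝ, 0 ≤ A → A = (A ^ 41) ^ (1 / 41 : ℝ) := by
      intro A hA
      rw [← Real.rpow_natCast, ← Real.rpow_mul hA]
      norm_num
    exact h3 _ (by positivity)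
  rw [h2]
  refine Real.rpow_le_rpow (by positivity) ?_ (by norm_num)
  norm_num

theorem num_3 {d : ℕ} (hd : 3 ≤ d) :
    (107 / 100 : ℝ) * (497 / 369) ^ 3 ≤ 3 / 4 * kap d (40 / 41) ^ d := by
  have h := gain_3.trans (kap_pow_ge (d := d) (by omega) (s := 40 / 41) (by norm_num) (by norm_num))
  linarith

theorem gain_2 : (4 / 3 * (137 / 100) * (162 / 113) ^ 2 : ℝ) ≤
    (1 + 112 / 113) ^ (1 + 112 / 113 : ℝ) * (1 - 112 / 113) ^ (1 - 112 / 113 : ℝ) := by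
  have e1 : (1 + 112 / 113 : ℝ) = 225 / 113 := by norm_num
  have e2 : (1 - 112 / 113 : ℝ) = 1 / 113 := by norm_num
  rw [e1, e2]
  have h1 : (225 / 113 : ℝ) ^ (225 / 113 : ℝ) = ((225 / 113 : ℝ) ^ 225) ^ (1 / 113 : ℝ) := by
    rw [← Real.rpow_natCast, ← Real.rpow_mul (by norm_num)]
    norm_num
  rw [h1, ← Real.mul_rpow (by positivity) (by positivity)]
  have h2 : (4 / 3 * (137 / 100) * (162 / 113) ^ 2 : ℝ) =
      ((4 / 3 * (137 / 100) * (162 / 113) ^ 2 : ℝ) ^ 113) ^ (1 / 113 : ℝ) := by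
    have h3 : ∀ A : ℝ, 0 ≤ A → A = (A ^ 113) ^ (1 / 113 : ℝ) := by
      intro A hA
      rw [← Real.rpow_natCast, ← Real.rpow_mul hA]
      norm_num
    exact h3 _ (by positivity)
  rw [h2]
  refine Real.rpow_le_rpow (by positivity) ?_ (by norm_num)
  norm_num

theorem num_2 {d : ℕ} (hd : 2 ≤ d) :
    (137 / 100 : ℝ) * (162 / 113) ^ 2 ≤ 3 / 4 * kap d (112 / 113) ^ d := by
  have h := gain_2.trans (kap_pow_ge (d := d) (by omega) (s := 112 / 113) (by norm_num)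
    (by norm_num))
  linarith

end Pool.Agent.U327.LT
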