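import Pool.Agent.U327.LT.H1
import Pool.Agent.Helper717.LT.P_cutoff

set_option autoImplicit false

/-!
# Hardy's inequality for odd functions
-/

open MeasureTheory Set Filter Topology Real

namespace Pool.Agent.U327.LT

open LTd

variable {d : ℕ}

/-- The reflection which changes the signs of the coordinates in `T`. -/
def sg (T : Finset (Fin d)) (x : Fin d → ℝ) : Fin d → ℝ := fun k => if k ∈ T then - x k else x k

theorem sg_sg (T : Finset (Fin d)) (x : Fin d → ℝ) : sg T (sg T x) = x := by
  funext k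
  unfold sg
  by_cases h : k ∈ T <;> simp [h]

theorem sg_comm (T T' : Finset (Fin d)) (x : Fin d → ℝ) : sg T (sg T' x) = sg T' (sg T x) := by
  funext k
  unfold sg
  by_cases h : k ∈ T <;> by_cases h' : k ∈ T' <;> simp [h, h']

theorem sg_insert {T : Finset (Fin d)} {j : Fin d} (hj : j ∉ T) (x : Fin d → ℝ) :
    sg (insert j T) x = sg {j} (sg T x) := by
  funext k
  unfold sg
  by_cases h : k = j
  · subst h; simp [hj]
  · simp [h]

theorem continuous_sg (T : Finset (Fin d)) : Continuous (sg T) := by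
  refine continuous_pi fun k => ?_
  unfold sg
  by_cases h : k ∈ T
  · simp only [h, if_true]; exact (continuous_apply k).neg
  · simp only [h, if_false]; exact continuous_apply k

/-- the reflection as a homeomorphism -/
def sgH (T : Finset (Fin d)) : (Fin d → ℝ) ≃ₜ (Fin d → ℝ) where
  toFun := sg T
  invFun := sg T
  left_inv := sg_sg T
  right_inv := sg_sg T
  continuous_toFun := continuous_sg T
  continuous_invFun := continuous_sg T

theorem mp_sg (T : Finset (Fin d)) : MeasurePreserving (sg T) volume volume := by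
  have h : MeasurePreserving (fun (a : Fin d → ℝ) i => (fun i (t : ℝ) => if i ∈ T then - t else t) i (a i))
      volume volume := by
    refine volume_preserving_pi (α' := fun _ : Fin d => ℝ) (β' := fun _ : Fin d => ℝ)
      (f := fun i (t : ℝ) => if i ∈ T then - t else t) fun i => ?_
    by_cases hi : i ∈ T
    · simp only [hi, if_true]
      exact Measure.measurePreserving_neg volume
    · simp only [hi, if_false]
      exact MeasurePreserving.id volume
  exact h

theorem integral_sg (T : Finset (Fin d)) (g : (Fin d → ℝ) → ℝ) :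
    ∫ x, g (sg T x) = ∫ x, g x :=
  (mp_sg T).integral_comp (sgH T).measurableEmbedding g

theorem rr_sg (S T : Finset (Fin d)) (x : Fin d → ℝ) : rr S (sg T x) = rr S x := by
  unfold rr sg
  refine Finset.sum_congr rfl fun k _ => ?_
  by_cases h : k ∈ T <;> simp [h]

/-- the linear map -/
noncomputable def sgL (T : Finset (Fin d)) : (Fin d → ℝ) →L[ℝ] (Fin d → ℝ) :=
  ContinuousLinearMap.pi fun k => if k ∈ T then -ContinuousLinearMap.proj k
    else ContinuousLinearMap.proj k

theorem sgL_apply (T : Finset (Fin d)) (x : Fin d → ℝ) : sgL T x = sg T x := by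
  funext k
  unfold sgL sg
  by_cases h : k ∈ T <;> simp [h]

theorem contDiff_comp_sg (T : Finset (Fin d)) {f : (Fin d → ℝ) → ℝ} (hf : ContDiff ℝ 1 f) :
    ContDiff ℝ 1 (fun x => f (sg T x)) := by
  have h := hf.comp (sgL T).contDiff (n := 1)
  have e : (f ∘ (sgL T)) = fun x => f (sg T x) := by
    funext x; simp [sgL_apply]
  rw [e] at h
  exact h

theorem hcs_comp_sg (T : Finset (Fin d)) {f : (Fin d → ℝ) → ℝ} (hc : HasCompactSupport f) :
    HasCompactSupport (fun x => f (sg T x)) :=
  hc.comp_homeomorph (sgH T)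

theorem pd_comp_sg (T : Finset (Fin d)) {f : (Fin d → ℝ) → ℝ} (hf : ContDiff ℝ 1 f) (k : Fin d)
    (x : Fin d → ℝ) :
    pd k (fun x => f (sg T x)) x = (if k ∈ T then -1 else 1) * pd k f (sg T x) := by
  have h1 : HasFDerivAt (fun x => f (sg T x)) ((fderiv ℝ f (sg T x)).comp (sgL T)) x := by
    have h2 : HasFDerivAt f (fderiv ℝ f (sg T x)) (sgL T x) := by
      rw [sgL_apply]
      exact (hf.differentiable one_ne_zero _).hasFDerivAt
    have h3 := h2.comp x (sgL T).hasFDerivAt
    have e : (f ∘ (sgL T)) = fun x => f (sg T x) := by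
      funext x; simp [sgL_apply]
    rw [e] at h3
    exact h3
  unfold pd
  rw [h1.fderiv, ContinuousLinearMap.comp_apply, sgL_apply]
  have h4 : sg T (Pi.single k 1 : Fin d → ℝ) = (if k ∈ T then (-1:ℝ) else 1) • Pi.single k 1 := by
    funext i
    unfold sg
    by_cases hi : i = k
    · subst hi
      by_cases hT : i ∈ T <;> simp [hT]
    · by_cases hT : i ∈ T <;> simp [hi, hT]
  rw [h4, map_smul, smul_eq_mul]

/-- the even part and the odd part -/
noncomputable def ev (j : Fin d) (f : (Fin d → ℝ) → ℝ) (x : Fin d → ℝ) : ℝ := (f x + f (sg {j} x)) / 2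

/-- the odd part -/
noncomputable def od (j : Fin d) (f : (Fin d → ℝ) → ℝ) (x : Fin d → ℝ) : ℝ := (f x - f (sg {j} x)) / 2

theorem hardy_coord {f : (Fin d → ℝ) → ℝ} (hf : ContDiff ℝ 1 f) (hc : HasCompactSupport f)
    {S : Finset (Fin d)} {j : Fin d} (hj : j ∈ S) (ho : ∀ x, f (sg {j} x) = - f x)
    {δ : ℝ} (hδ : 0 < δ) :
    (S.card : ℝ) ^ 2 / 4 * ∫ x, f x ^ 2 / (rr S x + δ) ≤ ∫ x, ∑ k ∈ S, pd k f x ^ 2 := by
  -- Lipschitz bound
  obtain ⟨C, hC⟩ := (hf.continuous_fderiv one_ne_zero).bounded_above_of_compact_support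
    (hc.fderiv ℝ)
  have hC0 : 0 ≤ C := (norm_nonneg _).trans (hC 0)
  have hzero : ∀ x : Fin d → ℝ, x j = 0 → f x = 0 := by
    intro x hx
    have h1 : sg {j} x = x := by
      funext k
      unfold sg
      by_cases h : k = j
      · subst h; simp [hx]
      · simp [h]
    have h2 := ho x
    rw [h1] at h2
    linarith
  have hb : ∀ x, f x ^ 2 ≤ C ^ 2 * x j ^ 2 := by
    intro x
    have h1 : ‖f x - f (Function.update x j 0)‖ ≤ C * ‖x - Function.update x j 0‖ :=
      convex_univ.norm_image_sub_le_of_norm_fderiv_le (𝕜 := ℝ)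
        (fun y _ => hf.differentiable one_ne_zero y) (fun y _ => hC y) (mem_univ _) (mem_univ _)
    have h2 : f (Function.update x j 0) = 0 := hzero _ (by simp)
    have h3 : ‖x - Function.update x j 0‖ ≤ |x j| := by
      rw [pi_norm_le_iff_of_nonneg (abs_nonneg _)]
      intro i
      by_cases hi : i = j
      · subst hi; simp
      · simp [hi]
    rw [h2, sub_zero, Real.norm_eq_abs] at h1
    have h4 : |f x| ≤ C * |x j| := h1.trans (mul_le_mul_of_nonneg_left h3 hC0)
    have h5 := mul_self_le_mul_self (abs_nonneg _) h4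
    have e1 : |f x| * |f x| = f x ^ 2 := by rw [← sq, sq_abs]
    have e2 : C * |x j| * (C * |x j|) = C ^ 2 * x j ^ 2 := by
      rw [← sq_abs (x j)]; ring
    rw [e1, e2] at h5
    exact h5
  obtain ⟨M, hM⟩ := hc.isCompact.isBounded.subset_closedBall 0
  obtain ⟨C', hC'⟩ := cutoff d
  obtain ⟨χ, hχ1, hχ2, hχ3, hχ4, -⟩ := hC' (max 1 M) (le_max_left _ _)
  have hone : ∀ x, f x ≠ 0 → χ x = 1 := by
    intro x hx
    have h1 := hM (subset_tsupport f hx)
    rw [Metric.mem_closedBall, dist_zero_right] at h1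
    exact hχ4 x (h1.trans (le_max_right _ _))
  set m : ℝ := (S.card : ℝ) with hm
  have hm0 : 0 ≤ m := Nat.cast_nonneg _
  have hlim : Tendsto (fun n : ℕ => ∫ x, f x ^ 2 * ((1 / ((n:ℝ) + 1)) ^ 2 /
      (x j ^ 2 + (1 / ((n:ℝ) + 1)) ^ 2) ^ 2 +
          m / δ * ((1 / ((n:ℝ) + 1)) ^ 2 / (x j ^ 2 + (1 / ((n:ℝ) + 1)) ^ 2)))) atTop
      (𝓝 (∫ x : Fin d → ℝ, (0:ℝ))) := by
    refine tendsto_integral_of_dominated_convergence
      (fun x => C ^ 2 * χ x + m / δ * f x ^ 2) ?_ ?_ ?_ ?_
    · intro n
      have hη : 0 < (1 / ((n:ℝ) + 1)) := by positivity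
      have hxc : Continuous fun x : Fin d → ℝ => x j ^ 2 + (1 / ((n:ℝ) + 1)) ^ 2 :=
        ((continuous_apply j).pow 2).add continuous_const
      have hx0 : ∀ x : Fin d → ℝ, x j ^ 2 + (1 / ((n:ℝ) + 1)) ^ 2 ≠ 0 := fun x => by positivity
      exact ((hf.continuous.pow 2).mul
        ((continuous_const.div (hxc.pow 2) fun x => pow_ne_zero 2 (hx0 x)).add
          (continuous_const.mul (continuous_const.div hxc hx0)))).aestronglyMeasurable
    · have i1 : Integrable fun x => C ^ 2 * χ x :=
        (continuous_const.mul hχ1.continuous).integrable_of_hasCompactSupport hχ2.mul_left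
      have c2 : Continuous fun x => m / δ * f x ^ 2 := continuous_const.mul (hf.continuous.pow 2)
      have s2 : HasCompactSupport fun x => m / δ * f x ^ 2 :=
        hc.comp_left (g := fun t : ℝ => m / δ * t ^ 2) (by norm_num)
      exact i1.add (c2.integrable_of_hasCompactSupport s2)
    · intro n
      refine Eventually.of_forall fun x => ?_
      have hη : 0 < (1 / ((n:ℝ) + 1)) := by positivity
      generalize 1 / ((n:ℝ) + 1) = η at hη
      have ht : 0 < x j ^ 2 + η ^ 2 := by positivity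
      rw [Real.norm_eq_abs, abs_of_nonneg (by positivity)]
      by_cases hx : f x = 0
      · rw [hx]
        have h1 := (hχ3 x).1
        have : 0 ≤ C ^ 2 * χ x := by positivity
        simpa using this
      · rw [hone x hx, mul_one, mul_add]
        refine add_le_add ?_ ?_
        · have h1 : f x ^ 2 * (η ^ 2 / (x j ^ 2 + η ^ 2) ^ 2) ≤
              C ^ 2 * x j ^ 2 * (η ^ 2 / (x j ^ 2 + η ^ 2) ^ 2) :=
            mul_le_mul_of_nonneg_right (hb x) (by positivity)
          refine h1.trans ?_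
          rw [mul_assoc]
          refine mul_le_of_le_one_right (sq_nonneg _) ?_
          rw [← mul_div_assoc, div_le_one (by positivity)]
          nlinarith [sq_nonneg (x j), sq_nonneg η, mul_nonneg (sq_nonneg (x j)) (sq_nonneg η)]
        · have h1 : η ^ 2 / (x j ^ 2 + η ^ 2) ≤ 1 := by
            rw [div_le_one ht]
            nlinarith [sq_nonneg (x j)]
          calc f x ^ 2 * (m / δ * (η ^ 2 / (x j ^ 2 + η ^ 2)))
              = (m / δ * f x ^ 2) * (η ^ 2 / (x j ^ 2 + η ^ 2)) := by ring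
            _ ≤ (m / δ * f x ^ 2) * 1 := mul_le_mul_of_nonneg_left h1 (by positivity)
            _ = _ := by ring
    · refine Eventually.of_forall fun x => ?_
      by_cases hx : x j = 0
      · rw [hzero x hx]
        simp
      · have hη : Tendsto (fun n : ℕ => (1 / ((n:ℝ) + 1)) ^ 2) atTop (𝓝 (0 ^ 2)) :=
          tendsto_one_div_add_atTop_nhds_zero_nat.pow 2
        rw [zero_pow two_ne_zero] at hη
        have hx2 : x j ^ 2 + 0 ≠ 0 := by
          rw [add_zero]
          exact pow_ne_zero 2 hx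
        have h1 := (((hη.div ((hη.const_add (x j ^ 2)).pow 2) (pow_ne_zero 2 hx2)).add
          ((hη.div (hη.const_add (x j ^ 2)) hx2).const_mul (m / δ))).const_mul (f x ^ 2))
        simpa using h1
  rw [integral_zero] at hlim
  refine ge_of_tendsto' (x := atTop) (f := fun n : ℕ => (∫ x, ∑ k ∈ S, pd k f x ^ 2) +
    ∫ x, f x ^ 2 * ((1 / ((n:ℝ) + 1)) ^ 2 /
      (x j ^ 2 + (1 / ((n:ℝ) + 1)) ^ 2) ^ 2 +
          m / δ * ((1 / ((n:ℝ) + 1)) ^ 2 / (x j ^ 2 + (1 / ((n:ℝ) + 1)) ^ 2)))) ?_ ?_
  · simpa using hlim.const_add (∫ x, ∑ k ∈ S, pd k f x ^ 2)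
  · intro n
    exact hardy_eta hf hc hj hδ (by positivity)

theorem contDiff_ev (j : Fin d) {f : (Fin d → ℝ) → ℝ} (hf : ContDiff ℝ 1 f) :
    ContDiff ℝ 1 (ev j f) := (hf.add (contDiff_comp_sg {j} hf)).div_const 2

theorem contDiff_od (j : Fin d) {f : (Fin d → ℝ) → ℝ} (hf : ContDiff ℝ 1 f) :
    ContDiff ℝ 1 (od j f) := (hf.sub (contDiff_comp_sg {j} hf)).div_const 2

theorem hcs_ev (j : Fin d) {f : (Fin d → ℝ) → ℝ} (hc : HasCompactSupport f) :
    HasCompactSupport (ev j f) :=
  cs_fam' (ι := Bool) (fun b => if b then f else fun x => f (sg {j} x))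
    (fun b => by
      cases b
      · exact hcs_comp_sg {j} hc
      · exact hc) _ fun x h => by
    have h1 := h true
    have h2 := h false
    simp only [if_true] at h1
    simp only [Bool.false_eq_true, if_false] at h2
    unfold ev
    rw [h1, h2]
    simp

theorem hcs_od (j : Fin d) {f : (Fin d → ℝ) → ℝ} (hc : HasCompactSupport f) :
    HasCompactSupport (od j f) :=
  cs_fam' (ι := Bool) (fun b => if b then f else fun x => f (sg {j} x))
    (fun b => by
      cases b
      · exact hcs_comp_sg {j} hc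
      · exact hc) _ fun x h => by
    have h1 := h true
    have h2 := h false
    simp only [if_true] at h1
    simp only [Bool.false_eq_true, if_false] at h2
    unfold od
    rw [h1, h2]
    simp

theorem pd_ev (j : Fin d) {f : (Fin d → ℝ) → ℝ} (hf : ContDiff ℝ 1 f) (k : Fin d)
    (x : Fin d → ℝ) :
    pd k (ev j f) x = (pd k f x + (if k ∈ ({j} : Finset (Fin d)) then -1 else 1) *
      pd k f (sg {j} x)) / 2 := by
  have h1 := pd_comp_sg {j} hf k x
  have h2 : HasFDerivAt (ev j f) ((2:ℝ)⁻¹ • (fderiv ℝ f x + fderiv ℝ (fun x => f (sg {j} x)) x)) x := by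
    have h3 := ((hf.differentiable one_ne_zero x).hasFDerivAt.add
      ((contDiff_comp_sg {j} hf).differentiable one_ne_zero x).hasFDerivAt).const_mul (2:ℝ)⁻¹
    refine h3.congr_of_eventuallyEq (Eventually.of_forall fun y => ?_)
    unfold ev
    simp only [Pi.add_apply]
    ring
  rw [← h1]
  unfold pd
  rw [h2.fderiv]
  simp only [_root_.smul_apply, _root_.add_apply, smul_eq_mul]
  ring

theorem pd_od (j : Fin d) {f : (Fin d → ℝ) → ℝ} (hf : ContDiff ℝ 1 f) (k : Fin d)
    (x : Fin d → ℝ) :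
    pd k (od j f) x = (pd k f x - (if k ∈ ({j} : Finset (Fin d)) then -1 else 1) *
      pd k f (sg {j} x)) / 2 := by
  have h1 := pd_comp_sg {j} hf k x
  have h2 : HasFDerivAt (od j f) ((2:ℝ)⁻¹ • (fderiv ℝ f x - fderiv ℝ (fun x => f (sg {j} x)) x)) x := by
    have h3 := ((hf.differentiable one_ne_zero x).hasFDerivAt.sub
      ((contDiff_comp_sg {j} hf).differentiable one_ne_zero x).hasFDerivAt).const_mul (2:ℝ)⁻¹
    refine h3.congr_of_eventuallyEq (Eventually.of_forall fun y => ?_)
    unfold od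
    simp only [Pi.sub_apply]
    ring
  rw [← h1]
  unfold pd
  rw [h2.fderiv]
  simp only [_root_.smul_apply, _root_.sub_apply, smul_eq_mul]
  ring

theorem int_sq_pd {f : (Fin d → ℝ) → ℝ} (hf : ContDiff ℝ 1 f) (hc : HasCompactSupport f)
    (k : Fin d) : Integrable fun x => pd k f x ^ 2 := by
  have c1 : Continuous fun x => pd k f x ^ 2 := (pd_basic hf hc k).1.pow 2
  have s1 : HasCompactSupport fun x => pd k f x ^ 2 :=
    (pd_basic hf hc k).2.comp_left (g := fun t : ℝ => t ^ 2) (by norm_num)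
  exact c1.integrable_of_hasCompactSupport s1

theorem int_sq_rr {f : (Fin d → ℝ) → ℝ} (hf : Continuous f) (hc : HasCompactSupport f)
    (S : Finset (Fin d)) {δ : ℝ} (hδ : 0 < δ) :
    Integrable fun x => f x ^ 2 / (rr S x + δ) := by
  have hc2 : HasCompactSupport (fun x => f x ^ 2) :=
    hc.comp_left (g := fun t : ℝ => t ^ 2) (by norm_num)
  have hcont : Continuous fun x => f x ^ 2 * (rr S x + δ)⁻¹ :=
    (hf.pow 2).mul (((contDiff_rr S).continuous.add continuous_const).inv₀ fun x =>
        (add_pos_of_nonneg_of_pos (rr_nonneg S x) hδ).ne')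
  exact hcont.integrable_of_hasCompactSupport hc2.mul_right

theorem split_pd (j : Fin d) {f : (Fin d → ℝ) → ℝ} (hf : ContDiff ℝ 1 f)
    (hc : HasCompactSupport f) (k : Fin d) :
    ∫ x, pd k f x ^ 2 = (∫ x, pd k (ev j f) x ^ 2) + ∫ x, pd k (od j f) x ^ 2 := by
  rw [← integral_add (int_sq_pd (contDiff_ev j hf) (hcs_ev j hc) k)
    (int_sq_pd (contDiff_od j hf) (hcs_od j hc) k)]
  have h1 : ∀ x, pd k (ev j f) x ^ 2 + pd k (od j f) x ^ 2 =
      (pd k f x ^ 2 + pd k f (sg {j} x) ^ 2) / 2 := by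
    intro x
    rw [pd_ev j hf, pd_od j hf]
    by_cases h : k ∈ ({j} : Finset (Fin d))
    · simp only [h, if_true]; ring
    · simp only [h, if_false]; ring
  simp only [h1]
  have i2 : Integrable fun x => pd k f (sg {j} x) ^ 2 :=
    (mp_sg {j}).integrable_comp_of_integrable (int_sq_pd hf hc k)
  rw [integral_div, integral_add (int_sq_pd hf hc k) i2,
    integral_sg {j} (fun x => pd k f x ^ 2)]
  ring

theorem split_rr (j : Fin d) {f : (Fin d → ℝ) → ℝ} (hf : ContDiff ℝ 1 f)
    (hc : HasCompactSupport f) (S : Finset (Fin d)) {δ : ℝ} (hδ : 0 < δ) :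
    ∫ x, f x ^ 2 / (rr S x + δ) =
      (∫ x, ev j f x ^ 2 / (rr S x + δ)) + ∫ x, od j f x ^ 2 / (rr S x + δ) := by
  rw [← integral_add (int_sq_rr (contDiff_ev j hf).continuous (hcs_ev j hc) S hδ)
    (int_sq_rr (contDiff_od j hf).continuous (hcs_od j hc) S hδ)]
  have h1 : ∀ x, ev j f x ^ 2 / (rr S x + δ) + od j f x ^ 2 / (rr S x + δ) =
      (f x ^ 2 / (rr S x + δ) + f (sg {j} x) ^ 2 / (rr S (sg {j} x) + δ)) / 2 := by
    intro x
    rw [rr_sg]
    unfold ev od
    ring
  simp only [h1]
  have i2 : Integrable fun x => f (sg {j} x) ^ 2 / (rr S (sg {j} x) + δ) :=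
    (mp_sg {j}).integrable_comp_of_integrable (int_sq_rr hf.continuous hc S hδ)
  rw [integral_div, integral_add (int_sq_rr hf.continuous hc S hδ) i2,
    integral_sg {j} (fun x => f x ^ 2 / (rr S x + δ))]
  ring

theorem inv_all {f : (Fin d → ℝ) → ℝ} (T : Finset (Fin d)) (h : ∀ j ∈ T, ∀ x, f (sg {j} x) = f x) :
    ∀ x, f (sg T x) = f x := by
  induction T using Finset.induction_on with
  | empty =>
    intro x
    have h0 : sg (∅ : Finset (Fin d)) x = x := by
      funext k
      simp [sg]
    rw [h0]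
  | insert j T hj ih =>
    intro x
    rw [sg_insert hj, h j (Finset.mem_insert_self _ _),
      ih fun i hi => h i (Finset.mem_insert_of_mem hi)]

theorem hardy_aux (S : Finset (Fin d)) {δ : ℝ} (hδ : 0 < δ) (U : Finset (Fin d)) :
    U ⊆ S → ∀ f : (Fin d → ℝ) → ℝ, ContDiff ℝ 1 f → HasCompactSupport f →
      (∀ x, f (sg S x) = - f x) → (∀ j ∈ S, j ∉ U → ∀ x, f (sg {j} x) = f x) →
      (S.card : ℝ) ^ 2 / 4 * ∫ x, f x ^ 2 / (rr S x + δ) ≤ ∑ k ∈ S, ∫ x, pd k f x ^ 2 := by
  induction U using Finset.induction_on with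
  | empty =>
    intro _ f hf hc ho hinv
    have h1 : ∀ x, f x = 0 := by
      intro x
      have h2 := inv_all S (fun j hj => hinv j hj (Finset.notMem_empty _)) x
      have h3 := ho x
      linarith
    simp only [h1]
    simp only [ne_eq, OfNat.ofNat_ne_zero, not_false_eq_true, zero_pow, zero_div, integral_zero,
      mul_zero]
    exact Finset.sum_nonneg fun k _ => integral_nonneg fun x => sq_nonneg _
  | insert j U hj ih =>
    intro hU f hf hc ho hinv
    have hjS : j ∈ S := hU (Finset.mem_insert_self _ _)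
    have h1 := ih ((Finset.subset_insert _ _).trans hU) (ev j f) (contDiff_ev j hf) (hcs_ev j hc)
      (by
        intro x
        unfold ev
        rw [sg_comm {j} S x, ho, ho]
        ring)
      (by
        intro i hi hiU x
        by_cases hij : i = j
        · subst hij
          unfold ev
          rw [sg_sg]
          ring
        · have h2 := hinv i hi (by
            rw [Finset.mem_insert]
            push Not
            exact ⟨hij, hiU⟩)
          unfold ev
          rw [sg_comm {j} {i} x, h2, h2])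
    have h2 := hardy_coord (contDiff_od j hf) (hcs_od j hc) hjS (by
      intro x
      unfold od
      rw [sg_sg]
      ring) hδ
    rw [integral_finsetSum _ fun k _ => int_sq_pd (contDiff_od j hf) (hcs_od j hc) k] at h2
    rw [split_rr j hf hc S hδ, Finset.sum_congr rfl fun k _ => split_pd j hf hc k,
      Finset.sum_add_distrib, mul_add]
    exact add_le_add h1 h2

/-- Hardy's inequality for functions which change their sign with the coordinates in `S` -/
theorem hardy_odd (S : Finset (Fin d)) {δ : ℝ} (hδ : 0 < δ) {f : (Fin d → ℝ) → ℝ}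
    (hf : ContDiff ℝ 1 f) (hc : HasCompactSupport f) (ho : ∀ x, f (sg S x) = - f x) :
    (S.card : ℝ) ^ 2 / 4 * ∫ x, f x ^ 2 / (rr S x + δ) ≤ ∑ k ∈ S, ∫ x, pd k f x ^ 2 :=
  hardy_aux S hδ S (Finset.Subset.refl _) f hf hc ho fun _ h h' => absurd h h'

end Pool.Agent.U327.LT
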