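import Pool.Agent.U327.LT.C1
import Pool.Agent.U327.LT.H2

set_option autoImplicit false

/-!
# The rotated vectors and their derivatives
-/

open MeasureTheory Set Filter Topology Real
open scoped Matrix

namespace Pool.Agent.U327.LT

open LTd

/-- cosine of the angle -/
noncomputable def aa (b δ τ : ℝ) : ℝ := √(((1 - b) * τ + δ) / (τ + δ))

/-- sine of the angle divided by the distance -/
noncomputable def bb (b δ τ : ℝ) : ℝ := √(b / (τ + δ))

/-- derivative of `aa` -/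
noncomputable def da (b δ τ : ℝ) : ℝ := -(b * δ) / (2 * aa b δ τ * (τ + δ) ^ 2)

/-- derivative of `bb` -/
noncomputable def db (b δ τ : ℝ) : ℝ := - bb b δ τ / (2 * (τ + δ))

section
variable {b δ τ : ℝ}

theorem aa_arg_pos (hb : b < 1) (hδ : 0 < δ) (hτ : 0 ≤ τ) : 0 < ((1 - b) * τ + δ) / (τ + δ) := by
  have h1 : 0 < 1 - b := by linarith
  positivity

theorem aa_pos (hb : b < 1) (hδ : 0 < δ) (hτ : 0 ≤ τ) : 0 < aa b δ τ :=
  Real.sqrt_pos.2 (aa_arg_pos hb hδ hτ)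

theorem bb_pos (hb0 : 0 < b) (hδ : 0 < δ) (hτ : 0 ≤ τ) : 0 < bb b δ τ :=
  Real.sqrt_pos.2 (by positivity)

theorem aa_sq (hb : b < 1) (hδ : 0 < δ) (hτ : 0 ≤ τ) :
    aa b δ τ ^ 2 = ((1 - b) * τ + δ) / (τ + δ) := Real.sq_sqrt (aa_arg_pos hb hδ hτ).le

theorem bb_sq (hb0 : 0 < b) (hδ : 0 < δ) (hτ : 0 ≤ τ) : bb b δ τ ^ 2 = b / (τ + δ) :=
  Real.sq_sqrt (by positivity)

theorem ab_one (hb0 : 0 < b) (hb : b < 1) (hδ : 0 < δ) (hτ : 0 ≤ τ) :
    aa b δ τ ^ 2 + bb b δ τ ^ 2 * τ = 1 := by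
  rw [aa_sq hb hδ hτ, bb_sq hb0 hδ hτ]
  have : τ + δ ≠ 0 := by positivity
  field_simp
  ring

theorem hasDerivAt_aa (hb : b < 1) (hδ : 0 < δ) (hτ : 0 ≤ τ) :
    HasDerivAt (aa b δ) (da b δ τ) τ := by
  have hs : τ + δ ≠ 0 := by positivity
  have h1 : HasDerivAt (fun t : ℝ => ((1 - b) * t + δ) / (t + δ))
      (((1 - b) * (τ + δ) - ((1 - b) * τ + δ) * 1) / (τ + δ) ^ 2) τ := by
    have h2 : HasDerivAt (fun t : ℝ => (1 - b) * t + δ) (1 - b) τ := by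
      simpa using ((hasDerivAt_id τ).const_mul (1 - b)).add_const δ
    have h3 : HasDerivAt (fun t : ℝ => t + δ) 1 τ := (hasDerivAt_id τ).add_const δ
    exact h2.div h3 hs
  have h4 := h1.sqrt (aa_arg_pos hb hδ hτ).ne'
  refine h4.congr_deriv ?_
  unfold da
  have h5 := (aa_pos hb hδ hτ).ne'
  have h6 : √(((1 - b) * τ + δ) / (τ + δ)) = aa b δ τ := rfl
  rw [h6]
  field_simp
  ring

theorem hasDerivAt_bb (hb0 : 0 < b) (hδ : 0 < δ) (hτ : 0 ≤ τ) :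
    HasDerivAt (bb b δ) (db b δ τ) τ := by
  have hs : τ + δ ≠ 0 := by positivity
  have h1 : HasDerivAt (fun t : ℝ => b / (t + δ)) ((0 * (τ + δ) - b * 1) / (τ + δ) ^ 2) τ := by
    have h3 : HasDerivAt (fun t : ℝ => t + δ) 1 τ := (hasDerivAt_id τ).add_const δ
    exact (hasDerivAt_const τ b).div h3 hs
  have hpos : b / (τ + δ) ≠ 0 := by positivity
  have h4 := h1.sqrt hpos
  refine h4.congr_deriv ?_
  unfold db
  have h5 := (bb_pos hb0 hδ hτ).ne'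
  have h6 : √(b / (τ + δ)) = bb b δ τ := rfl
  have h7 := bb_sq hb0 hδ hτ
  rw [h6]
  rw [div_eq_div_iff (by positivity) (by positivity)]
  have h8 : bb b δ τ ^ 2 * (τ + δ) = b := by rw [h7]; field_simp
  have h9 : (0 * (τ + δ) - b * 1) / (τ + δ) ^ 2 * (2 * (τ + δ)) = -(2 * (b / (τ + δ))) := by
    field_simp
    ring
  rw [h9, ← h7]
  ring

theorem ab_deriv (hb0 : 0 < b) (hb : b < 1) (hδ : 0 < δ) (hτ : 0 ≤ τ) :
    2 * aa b δ τ * da b δ τ + 2 * bb b δ τ * db b δ τ * τ + bb b δ τ ^ 2 = 0 := by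
  have hs : τ + δ ≠ 0 := by positivity
  have h1 : 2 * aa b δ τ * da b δ τ = -(b * δ) / (τ + δ) ^ 2 := by
    unfold da
    have h5 := (aa_pos hb hδ hτ).ne'
    field_simp
  have h2 : 2 * bb b δ τ * db b δ τ * τ = - (bb b δ τ ^ 2 * τ) / (τ + δ) := by
    unfold db
    field_simp
  rw [h1, h2, bb_sq hb0 hδ hτ]
  field_simp
  ring

theorem zz_bound (hb0 : 0 < b) (hb : b < 1) (hδ : 0 < δ) (hτ : 0 ≤ τ) (m : ℝ) :
    4 * τ * da b δ τ ^ 2 + 4 * τ * db b δ τ ^ 2 * τ + m * bb b δ τ ^ 2 +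
      4 * τ * (db b δ τ * bb b δ τ) ≤
      (m - 1) * b * (1 / (τ + δ)) + b / (1 - b) * (δ ^ 2 / (τ + δ) ^ 3) := by
  have hs : τ + δ ≠ 0 := by positivity
  have h1b : 0 < 1 - b := by linarith
  have hA : 0 < (1 - b) * τ + δ := by positivity
  have e1 : 4 * τ * da b δ τ ^ 2 = τ * b ^ 2 * δ ^ 2 / (((1 - b) * τ + δ) * (τ + δ) ^ 3) := by
    have h2 : da b δ τ ^ 2 = (b * δ) ^ 2 / (4 * aa b δ τ ^ 2 * (τ + δ) ^ 4) := by
      unfold da
      rw [div_pow]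
      ring
    rw [h2, aa_sq hb hδ hτ]
    field_simp
  have e2 : 4 * τ * db b δ τ ^ 2 * τ = τ ^ 2 * bb b δ τ ^ 2 / (τ + δ) ^ 2 := by
    unfold db
    field_simp
    ring
  have e3 : 4 * τ * (db b δ τ * bb b δ τ) = - (2 * τ * bb b δ τ ^ 2) / (τ + δ) := by
    unfold db
    field_simp
    ring
  rw [e1, e2, e3, bb_sq hb0 hδ hτ]
  have h3 : τ * b ^ 2 * δ ^ 2 / (((1 - b) * τ + δ) * (τ + δ) ^ 3) ≤
      b ^ 2 / (1 - b) * (δ ^ 2 / (τ + δ) ^ 3) := by
    have h4 : τ / ((1 - b) * τ + δ) ≤ 1 / (1 - b) := by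
      rw [div_le_div_iff₀ hA h1b]
      nlinarith
    have h5 : τ * b ^ 2 * δ ^ 2 / (((1 - b) * τ + δ) * (τ + δ) ^ 3) =
        (b ^ 2 * (δ ^ 2 / (τ + δ) ^ 3)) * (τ / ((1 - b) * τ + δ)) := by
      field_simp
    rw [h5]
    calc _ ≤ (b ^ 2 * (δ ^ 2 / (τ + δ) ^ 3)) * (1 / (1 - b)) :=
          mul_le_mul_of_nonneg_left h4 (by positivity)
      _ = _ := by ring
  have h6 : τ ^ 2 * (b / (τ + δ)) / (τ + δ) ^ 2 + m * (b / (τ + δ)) +
      - (2 * τ * (b / (τ + δ))) / (τ + δ) + b ^ 2 / (1 - b) * (δ ^ 2 / (τ + δ) ^ 3) =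
      (m - 1) * b * (1 / (τ + δ)) + b / (1 - b) * (δ ^ 2 / (τ + δ) ^ 3) := by
    field_simp
    ring
  linarith
end

variable {d : ℕ} {κ : Type} [Fintype κ] [DecidableEq κ]
variable {S : Finset (Fin d)} {Γ : Fin d → Matrix κ κ ℝ}

theorem contDiff_aa (S : Finset (Fin d)) {b δ : ℝ} (hb : b < 1) (hδ : 0 < δ) :
    ContDiff ℝ 1 (fun x => aa b δ (rr S x)) := by
  unfold aa
  refine ContDiff.sqrt ?_ fun x => (aa_arg_pos hb hδ (rr_nonneg S x)).ne'
  exact ((contDiff_const.mul (contDiff_rr S)).add contDiff_const).div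
    ((contDiff_rr S).add contDiff_const) fun x =>
      (add_pos_of_nonneg_of_pos (rr_nonneg S x) hδ).ne'

theorem contDiff_bb (S : Finset (Fin d)) {b δ : ℝ} (hb0 : 0 < b) (hδ : 0 < δ) :
    ContDiff ℝ 1 (fun x => bb b δ (rr S x)) := by
  unfold bb
  refine ContDiff.sqrt ?_ fun x =>
    (div_pos hb0 (add_pos_of_nonneg_of_pos (rr_nonneg S x) hδ)).ne'
  exact contDiff_const.div ((contDiff_rr S).add contDiff_const) fun x =>
      (add_pos_of_nonneg_of_pos (rr_nonneg S x) hδ).ne'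

/-- the rotation with the regularised angle -/
noncomputable def Wd (S : Finset (Fin d)) (Γ : Fin d → Matrix κ κ ℝ) (b δ : ℝ)
    (x : Fin d → ℝ) : Matrix κ κ ℝ := WW S Γ (aa b δ (rr S x)) (bb b δ (rr S x)) x

theorem Wd_apply (b δ : ℝ) (x : Fin d → ℝ) (c a : κ) :
    Wd S Γ b δ x c a = aa b δ (rr S x) * (1 : Matrix κ κ ℝ) c a +
      bb b δ (rr S x) * ∑ k ∈ S, x k * Γ k c a := by
  unfold Wd WW XX
  rw [Matrix.add_apply, Matrix.smul_apply, Matrix.smul_apply, Matrix.sum_apply]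
  simp only [Matrix.smul_apply, smul_eq_mul]

theorem contDiff_Wd {b δ : ℝ} (hb0 : 0 < b) (hb : b < 1) (hδ : 0 < δ) (c a : κ) :
    ContDiff ℝ 1 (fun x => Wd S Γ b δ x c a) := by
  simp only [Wd_apply]
  exact ((contDiff_aa S hb hδ).mul contDiff_const).add ((contDiff_bb S hb0 hδ).mul
    (ContDiff.sum fun k _ => (contDiff_apply ℝ ℝ k).mul contDiff_const))

theorem sum_line (x : Fin d → ℝ) {k : Fin d} (hk : k ∈ S) (c a : κ) (t : ℝ) :
    ∑ l ∈ S, (x + t • (Pi.single k 1 : Fin d → ℝ)) l * Γ l c a =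
      (∑ l ∈ S, x l * Γ l c a) + t * Γ k c a := by
  have h1 : ∀ l ∈ S, (x + t • (Pi.single k 1 : Fin d → ℝ)) l * Γ l c a =
      x l * Γ l c a + if l = k then t * Γ k c a else 0 := by
    intro l _
    rw [line_apply]
    by_cases h : l = k
    · subst h; simp only [if_true]; ring
    · simp only [h, if_false]; ring
  rw [Finset.sum_congr rfl h1, Finset.sum_add_distrib, Finset.sum_ite_eq' S k, if_pos hk]

theorem sum_line_not (x : Fin d → ℝ) {k : Fin d} (hk : k ∉ S) (c a : κ) (t : ℝ) :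
    ∑ l ∈ S, (x + t • (Pi.single k 1 : Fin d → ℝ)) l * Γ l c a = ∑ l ∈ S, x l * Γ l c a := by
  refine Finset.sum_congr rfl fun l hl => ?_
  have hne : l ≠ k := fun h => hk (h ▸ hl)
  rw [line_apply, if_neg hne, add_zero]

theorem line_hasDerivAt {f : (Fin d → ℝ) → ℝ} {x : Fin d → ℝ} (k : Fin d)
    (hf : DifferentiableAt ℝ f x) :
    HasDerivAt (fun t : ℝ => f (x + t • (Pi.single k 1 : Fin d → ℝ))) (pd k f x) 0 := by
  have h1 : HasDerivAt (fun t : ℝ => x + t • (Pi.single k 1 : Fin d → ℝ))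
      (Pi.single k 1 : Fin d → ℝ) 0 := by
    have := ((hasDerivAt_id (0:ℝ)).smul_const (Pi.single k 1 : Fin d → ℝ)).const_add x
    simpa using this
  have h0 : x + (0:ℝ) • (Pi.single k 1 : Fin d → ℝ) = x := by simp
  have h2 : HasFDerivAt f (fderiv ℝ f x) (x + (0:ℝ) • (Pi.single k 1 : Fin d → ℝ)) := by
    rw [h0]; exact hf.hasFDerivAt
  exact h2.comp_hasDerivAt (0:ℝ) h1

theorem pd_w_mem {b δ : ℝ} (hb0 : 0 < b) (hb : b < 1) (hδ : 0 < δ) {F : (Fin d → ℝ) → ℝ}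
    (hF : ContDiff ℝ 1 F) {k : Fin d} (hk : k ∈ S) (c a : κ) (x : Fin d → ℝ) :
    pd k (fun x => Wd S Γ b δ x c a * F x) x =
      ((2 * x k * da b δ (rr S x)) • (1 : Matrix κ κ ℝ) + (2 * x k * db b δ (rr S x)) • XX S Γ x +
        bb b δ (rr S x) • Γ k) c a * F x + Wd S Γ b δ x c a * pd k F x := by
  refine pd_line (((contDiff_Wd hb0 hb hδ c a).mul hF).differentiable one_ne_zero x) ?_
  have h0 : rr S (x + (0:ℝ) • (Pi.single k 1 : Fin d → ℝ)) = rr S x := by simp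
  have hr := hasDerivAt_rr_line x hk
  have hA : HasDerivAt (fun t : ℝ => aa b δ (rr S (x + t • (Pi.single k 1 : Fin d → ℝ))))
      (da b δ (rr S x) * (2 * x k)) 0 := by
    have h1 := hasDerivAt_aa hb hδ (rr_nonneg S x)
    rw [← h0] at h1
    have h2 := h1.comp (0:ℝ) hr
    rw [h0] at h2
    exact h2
  have hB : HasDerivAt (fun t : ℝ => bb b δ (rr S (x + t • (Pi.single k 1 : Fin d → ℝ))))
      (db b δ (rr S x) * (2 * x k)) 0 := by
    have h1 := hasDerivAt_bb hb0 hδ (rr_nonneg S x)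
    rw [← h0] at h1
    have h2 := h1.comp (0:ℝ) hr
    rw [h0] at h2
    exact h2
  have hX : HasDerivAt (fun t : ℝ => ∑ l ∈ S, (x + t • (Pi.single k 1 : Fin d → ℝ)) l * Γ l c a)
      (Γ k c a) 0 := by
    simp only [sum_line x hk]
    have := ((hasDerivAt_id (0:ℝ)).mul_const (Γ k c a)).const_add (∑ l ∈ S, x l * Γ l c a)
    simpa using this
  have hFF := line_hasDerivAt k (hF.differentiable one_ne_zero x)
  have hall := ((hA.mul_const ((1 : Matrix κ κ ℝ) c a)).add (hB.mul hX)).mul hFF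
  simp only [Wd_apply]
  refine hall.congr_deriv ?_
  simp only [zero_smul, add_zero, Matrix.add_apply, Matrix.smul_apply, smul_eq_mul, XX,
    Matrix.sum_apply, Pi.add_apply, Pi.mul_apply, Pi.zero_apply]
  ring

theorem pd_w_not {b δ : ℝ} (hb0 : 0 < b) (hb : b < 1) (hδ : 0 < δ) {F : (Fin d → ℝ) → ℝ}
    (hF : ContDiff ℝ 1 F) {k : Fin d} (hk : k ∉ S) (c a : κ) (x : Fin d → ℝ) :
    pd k (fun x => Wd S Γ b δ x c a * F x) x = Wd S Γ b δ x c a * pd k F x := by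
  refine pd_line (((contDiff_Wd hb0 hb hδ c a).mul hF).differentiable one_ne_zero x) ?_
  have h1 := (line_hasDerivAt k (hF.differentiable one_ne_zero x)).const_mul (Wd S Γ b δ x c a)
  have h2 : (fun t : ℝ => Wd S Γ b δ (x + t • (Pi.single k 1 : Fin d → ℝ)) c a *
      F (x + t • (Pi.single k 1 : Fin d → ℝ))) = fun t : ℝ => Wd S Γ b δ x c a *
      F (x + t • (Pi.single k 1 : Fin d → ℝ)) := by
    funext t
    congr 1
    rw [Wd_apply, Wd_apply, rr_line_not x hk, sum_line_not x hk]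
  rw [h2]
  exact h1

end Pool.Agent.U327.LT
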