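import Pool.Agent.U327.LT.C2

set_option autoImplicit false

/-!
# The inequality for the rotated system, for a fixed regularisation
-/

open MeasureTheory Set Filter Topology Real
open scoped Matrix

namespace Pool.Agent.U327.LT

open LTd

variable {d : ℕ} {κ : Type} [Fintype κ] [DecidableEq κ]
variable {S : Finset (Fin d)} {Γ : Fin d → Matrix κ κ ℝ}

theorem kin_pt (h : Cl S Γ) {b δ : ℝ} (hb0 : 0 < b) (hb : b < 1) (hδ : 0 < δ) {N n : ℕ}
    (e : Fin N ≃ Fin n × κ) (F : Fin n → (Fin d → ℝ) → ℝ) (hF : ∀ i, ContDiff ℝ 1 (F i))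
    (x : Fin d → ℝ) :
    ∑ k, ∑ I, ∑ c, pd k (fun x => Wd S Γ b δ x c (e I).2 * F (e I).1 x) x ^ 2 ≤
      Fintype.card κ * ((∑ k, ∑ i, pd k (F i) x ^ 2) + (∑ i, F i x ^ 2) *
        ((S.card - 1) * b * (1 / (rr S x + δ)) + b / (1 - b) * (δ ^ 2 / (rr S x + δ) ^ 3))) := by
  have hτ := rr_nonneg S x
  set a' := da b δ (rr S x) with ha'
  set b' := db b δ (rr S x) with hb'
  set B := bb b δ (rr S x) with hB
  have hk : ∀ k, ∑ I, ∑ c, pd k (fun x => Wd S Γ b δ x c (e I).2 * F (e I).1 x) x ^ 2 =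
      Fintype.card κ * (∑ i, pd k (F i) x ^ 2) + if k ∈ S then (Fintype.card κ *
        ∑ i, F i x ^ 2) * (4 * x k ^ 2 * a' ^ 2 + 4 * x k ^ 2 * b' ^ 2 * rr S x +
        B ^ 2 + 4 * x k ^ 2 * (b' * B)) else 0 := by
    intro k
    rw [e.sum_comp (fun K : Fin n × κ => ∑ c, pd k (fun x => Wd S Γ b δ x c K.2 * F K.1 x) x ^ 2),
      Fintype.sum_prod_type]
    by_cases hkS : k ∈ S
    · simp only [hkS, if_true]
      have h1 : ∀ i, ∑ a, ∑ c, pd k (fun x => Wd S Γ b δ x c a * F i x) x ^ 2 =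
          Fintype.card κ * (pd k (F i) x ^ 2 + F i x ^ 2 * (4 * x k ^ 2 * a' ^ 2 +
            4 * x k ^ 2 * b' ^ 2 * rr S x + B ^ 2 + 4 * x k ^ 2 * (b' * B))) := by
        intro i
        rw [Finset.sum_comm, ← entries h (A := aa b δ (rr S x)) (B := B) (a' := a') (b' := b') x
          (ab_one hb0 hb hδ hτ) (ab_deriv hb0 hb hδ hτ) hkS (F i x) (pd k (F i) x)]
        refine Finset.sum_congr rfl fun c _ => Finset.sum_congr rfl fun a _ => ?_
        rw [pd_w_mem hb0 hb hδ (hF i) hkS c a x]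
        rfl
      rw [Finset.sum_congr rfl fun i _ => h1 i, ← Finset.mul_sum, Finset.sum_add_distrib,
        ← Finset.sum_mul]
      ring
    · simp only [hkS, if_false, add_zero]
      have h1 : ∀ i, ∑ a, ∑ c, pd k (fun x => Wd S Γ b δ x c a * F i x) x ^ 2 =
          Fintype.card κ * pd k (F i) x ^ 2 := by
        intro i
        rw [Finset.sum_comm, ← entries' h (A := aa b δ (rr S x)) (B := B) x
          (ab_one hb0 hb hδ hτ) (pd k (F i) x)]
        refine Finset.sum_congr rfl fun c _ => Finset.sum_congr rfl fun a _ => ?_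
        rw [pd_w_not hb0 hb hδ (hF i) hkS c a x]
        rfl
      rw [Finset.sum_congr rfl fun i _ => h1 i, ← Finset.mul_sum]
  rw [Finset.sum_congr rfl fun k _ => hk k, Finset.sum_add_distrib, ← Finset.mul_sum,
    Finset.sum_ite_mem, Finset.univ_inter, ← Finset.mul_sum]
  have h2 : ∑ k ∈ S, (4 * x k ^ 2 * a' ^ 2 + 4 * x k ^ 2 * b' ^ 2 * rr S x + B ^ 2 +
      4 * x k ^ 2 * (b' * B)) = 4 * rr S x * a' ^ 2 + 4 * rr S x * b' ^ 2 * rr S x +
        S.card * B ^ 2 + 4 * rr S x * (b' * B) := by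
    rw [Finset.sum_add_distrib, Finset.sum_add_distrib, Finset.sum_add_distrib,
      Finset.sum_const, nsmul_eq_mul, ← Finset.sum_mul, ← Finset.sum_mul, ← Finset.sum_mul,
      ← Finset.sum_mul, ← Finset.mul_sum]
    rfl
  rw [h2]
  have h3 := zz_bound hb0 hb hδ hτ (S.card : ℝ)
  have h4 : 0 ≤ (Fintype.card κ : ℝ) * ∑ i, F i x ^ 2 :=
    mul_nonneg (Nat.cast_nonneg _) (Finset.sum_nonneg fun i _ => sq_nonneg _)
  have h5 := mul_le_mul_of_nonneg_left h3 h4
  refine (add_le_add le_rfl h5).trans (le_of_eq ?_)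
  ring

/-- the splitting between the two eigenvalues -/
noncomputable def sig (S : Finset (Fin d)) (b δ : ℝ) (x : Fin d → ℝ) : ℝ :=
  2 * aa b δ (rr S x) * bb b δ (rr S x) * √(rr S x)

theorem sig_sq {b δ : ℝ} (x : Fin d → ℝ) :
    sig S b δ x ^ 2 = 4 * aa b δ (rr S x) ^ 2 * bb b δ (rr S x) ^ 2 * rr S x := by
  unfold sig
  rw [mul_pow, mul_pow, mul_pow, Real.sq_sqrt (rr_nonneg S x)]
  ring

theorem sig_nonneg {b δ : ℝ} (x : Fin d → ℝ) : 0 ≤ sig S b δ x := by
  unfold sig aa bb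
  positivity

theorem sig_lt_one {b δ : ℝ} (hb0 : 0 < b) (hb : b < 1 / 2) (hδ : 0 < δ) (x : Fin d → ℝ) :
    sig S b δ x < 1 := by
  have hτ := rr_nonneg S x
  have hs : 0 < rr S x + δ := by positivity
  have h1 : sig S b δ x ^ 2 < 1 := by
    rw [sig_sq, aa_sq (by linarith) hδ hτ, bb_sq hb0 hδ hτ]
    have e : 4 * (((1 - b) * rr S x + δ) / (rr S x + δ)) * (b / (rr S x + δ)) * rr S x =
        4 * ((1 - b) * rr S x + δ) * b * rr S x / (rr S x + δ) ^ 2 := by
      field_simp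
    rw [e, div_lt_one (by positivity)]
    have h2 : (rr S x + δ) ^ 2 - 4 * ((1 - b) * rr S x + δ) * b * rr S x =
        ((1 - 2 * b) * rr S x + δ) ^ 2 := by ring
    have h3 : 0 < ((1 - 2 * b) * rr S x + δ) ^ 2 := by
      have : 0 < (1 - 2 * b) * rr S x + δ := by
        have : 0 ≤ (1 - 2 * b) * rr S x := mul_nonneg (by linarith) hτ
        linarith
      positivity
    linarith
  nlinarith [sig_nonneg (S := S) (b := b) (δ := δ) x]

theorem sig_pos {b δ : ℝ} (hb0 : 0 < b) (hb : b < 1) (hδ : 0 < δ) {x : Fin d → ℝ}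
    (hx : 0 < rr S x) : 0 < sig S b δ x := by
  unfold sig
  have h1 := aa_pos hb hδ hx.le
  have h2 := bb_pos hb0 hδ hx.le
  have h3 := Real.sqrt_pos.2 hx
  positivity

theorem zero_of_rr {f : (Fin d → ℝ) → ℝ} (ho : ∀ x, f (sg S x) = - f x) {x : Fin d → ℝ}
    (hx : rr S x = 0) : f x = 0 := by
  have h1 : ∀ k ∈ S, x k ^ 2 = 0 :=
    (Finset.sum_eq_zero_iff_of_nonneg fun k _ => sq_nonneg _).1 hx
  have h2 : sg S x = x := by
    funext k
    unfold sg
    by_cases h : k ∈ S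
    · have := pow_eq_zero_iff (two_ne_zero) |>.1 (h1 k h)
      simp [h, this]
    · simp [h]
  have h3 := ho x
  rw [h2] at h3
  linarith

theorem XX_sg (x : Fin d → ℝ) : XX S Γ (sg S x) = - XX S Γ x := by
  unfold XX sg
  rw [← Finset.sum_neg_distrib]
  refine Finset.sum_congr rfl fun k hk => ?_
  simp only [hk, if_true, neg_smul]

theorem gram_pt (h : Cl S Γ) {b δ : ℝ} (hb0 : 0 < b) (hb : b < 1) (hδ : 0 < δ)
    (G : κ → ℝ) (x : Fin d → ℝ) :
    ∑ c, (∑ a, Wd S Γ b δ x c a * G a) ^ 2 = (∑ a, G a ^ 2) +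
      2 * aa b δ (rr S x) * bb b δ (rr S x) * ∑ a, ∑ a', XX S Γ x a a' * (G a * G a') := by
  have h1 : ∑ c, (∑ a, Wd S Γ b δ x c a * G a) ^ 2 =
      ∑ a, ∑ a', ((Wd S Γ b δ x)ᵀ * Wd S Γ b δ x) a a' * (G a * G a') := by
    have h2 : ∀ c, (∑ a, Wd S Γ b δ x c a * G a) ^ 2 =
        ∑ a, ∑ a', Wd S Γ b δ x c a * Wd S Γ b δ x c a' * (G a * G a') := by
      intro c
      rw [sq, Finset.sum_mul_sum]
      refine Finset.sum_congr rfl fun a _ => Finset.sum_congr rfl fun a' _ => ?_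
      ring
    rw [Finset.sum_congr rfl fun c _ => h2 c, Finset.sum_comm]
    refine Finset.sum_congr rfl fun a _ => ?_
    rw [Finset.sum_comm]
    refine Finset.sum_congr rfl fun a' _ => ?_
    rw [Matrix.mul_apply, Finset.sum_mul]
    rfl
  have h3 : (Wd S Γ b δ x)ᵀ * Wd S Γ b δ x =
      1 + (2 * aa b δ (rr S x) * bb b δ (rr S x)) • XX S Γ x :=
    ww_gram h x (ab_one hb0 hb hδ (rr_nonneg S x))
  rw [h1, h3, Finset.mul_sum]
  rw [← Finset.sum_add_distrib]
  refine Finset.sum_congr rfl fun a _ => ?_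
  have h4 : ∀ a', (1 + (2 * aa b δ (rr S x) * bb b δ (rr S x)) • XX S Γ x) a a' * (G a * G a') =
      (if a = a' then G a * G a' else 0) +
        2 * aa b δ (rr S x) * bb b δ (rr S x) * (XX S Γ x a a' * (G a * G a')) := by
    intro a'
    rw [Matrix.add_apply, Matrix.smul_apply, Matrix.one_apply, smul_eq_mul]
    split_ifs <;> ring
  rw [Finset.sum_congr rfl fun a' _ => h4 a', Finset.sum_add_distrib, Finset.sum_ite_eq,
    if_pos (Finset.mem_univ a), ← Finset.mul_sum, sq]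

theorem integral_odd {g : (Fin d → ℝ) → ℝ} (hg : ∀ x, g (sg S x) = - g x) : ∫ x, g x = 0 := by
  have h1 := integral_sg S g
  simp only [hg] at h1
  rw [integral_neg] at h1
  linarith

end Pool.Agent.U327.LT
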