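import Pool.Agent.U327.LT.C3

set_option autoImplicit false

/-!
# The inequality for odd systems, for a fixed regularisation
-/

open MeasureTheory Set Filter Topology Real
open scoped Matrix

namespace Pool.Agent.U327.LT

open LTd

variable {m' : ℕ} {κ : Type} [Fintype κ] [DecidableEq κ]
variable {S : Finset (Fin (m' + 1))} {Γ : Fin (m' + 1) → Matrix κ κ ℝ}

theorem pp_pos (m' : ℕ) : 0 < pp (3 / 2 + (m':ℝ) / 2) := by
  have hm : (0 : ℝ) ≤ m' := Nat.cast_nonneg m'
  rw [pp]
  apply div_pos <;> linarith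

theorem cs_of_zero {d n : ℕ} {F : Fin n → (Fin d → ℝ) → ℝ} (hFc : ∀ i, HasCompactSupport (F i))
    (g : (Fin d → ℝ) → ℝ) (h : ∀ x, (∀ i, F i x = 0) → g x = 0) : HasCompactSupport g :=
  cs_fam' F hFc g h

theorem fixed (h : Cl S Γ) (hκ : 0 < Fintype.card κ) {b δ : ℝ} (hb0 : 0 < b) (hb : b < 1 / 2)
    (hδ : 0 < δ) (n : ℕ)
    (F : Fin n → (Fin (m' + 1) → ℝ) → ℝ) (hF : ∀ i, ContDiff ℝ 1 (F i))
    (hFc : ∀ i, HasCompactSupport (F i)) (ho : ∀ i x, F i (sg S x) = - F i x)
    (hG : ∀ v : Fin n → ℝ, ∫ x, (∑ i, v i * F i x) ^ 2 ≤ ∑ i, v i ^ 2) :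
    bco (m' / 2) (3 / 2) (π ^ 2 / 4) * ∫ x, (Fintype.card κ / 2 : ℝ) *
        ((1 + sig S b δ x) ^ pp (3 / 2 + (m':ℝ) / 2) + (1 - sig S b δ x) ^ pp (3 / 2 + (m':ℝ) / 2)) *
          (∑ i, F i x ^ 2) ^ pp (3 / 2 + (m':ℝ) / 2) ≤
      Fintype.card κ * ((∫ x, ∑ k, ∑ i, pd k (F i) x ^ 2) + ∫ x, (∑ i, F i x ^ 2) *
        ((S.card - 1) * b * (1 / (rr S x + δ)) + b / (1 - b) * (δ ^ 2 / (rr S x + δ) ^ 3))) := by
  classical
  have hb1 : b < 1 := by linarith
  have hp := pp_pos m'
  set p := pp (3 / 2 + (m':ℝ) / 2) with hpdef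
  set q : ℝ := (Fintype.card κ : ℝ) with hq
  have hFcont : ∀ i, Continuous (F i) := fun i => (hF i).continuous
  obtain ⟨N, e, -⟩ : ∃ (N : ℕ) (_ : Fin N ≃ Fin n × κ), True :=
    ⟨Fintype.card (Fin n × κ), (Fintype.equivFin _).symm, trivial⟩
  have hσc : Continuous (sig S b δ) := by
    unfold sig
    exact ((continuous_const.mul (contDiff_aa S hb1 hδ).continuous).mul
      (contDiff_bb S hb0 hδ).continuous).mul (contDiff_rr S).continuous.sqrt
  have hρc : Continuous fun x => ∑ i, F i x ^ 2 :=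
    continuous_finsetSum _ fun i _ => (hFcont i).pow 2
  have hΦc : Continuous fun x => (q / 2 : ℝ) * ((1 + sig S b δ x) ^ p + (1 - sig S b δ x) ^ p) *
      (∑ i, F i x ^ 2) ^ p := by
    refine (continuous_const.mul ?_).mul (hρc.rpow_const fun _ => Or.inr hp.le)
    exact ((continuous_const.add hσc).rpow_const fun _ => Or.inr hp.le).add
      ((continuous_const.sub hσc).rpow_const fun _ => Or.inr hp.le)
  have hΦs : HasCompactSupport fun x => (q / 2 : ℝ) * ((1 + sig S b δ x) ^ p +
      (1 - sig S b δ x) ^ p) * (∑ i, F i x ^ 2) ^ p := by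
    refine cs_of_zero hFc _ fun x hx => ?_
    have h0 : ∑ i, F i x ^ 2 = 0 := Finset.sum_eq_zero fun i _ => by rw [hx i]; norm_num
    rw [h0, Real.zero_rpow hp.ne', mul_zero]
  have hWs : ∀ (I : Fin N) (c : κ), HasCompactSupport
      (fun x => Wd S Γ b δ x c (e I).2 * F (e I).1 x) := fun I c => (hFc _).mul_left
  have hWd : ∀ (I : Fin N) (c : κ), ContDiff ℝ 1
      (fun x => Wd S Γ b δ x c (e I).2 * F (e I).1 x) := fun I c =>
    (contDiff_Wd hb0 hb1 hδ c _).mul (hF _)
  have hcore := coreV (ι := κ) m' N (fun I c x => Wd S Γ b δ x c (e I).2 * F (e I).1 x)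
    hWd hWs ?_ (fun x => (q / 2 : ℝ) * ((1 + sig S b δ x) ^ p + (1 - sig S b δ x) ^ p) *
      (∑ i, F i x ^ 2) ^ p) hΦc hΦs ?_
  · refine hcore.trans ?_
    have hi1 : Integrable fun x => ∑ k, ∑ I, ∑ c,
        pd k (fun x => Wd S Γ b δ x c (e I).2 * F (e I).1 x) x ^ 2 :=
      integrable_finsetSum _ fun k _ => integrable_finsetSum _ fun I _ =>
        integrable_finsetSum _ fun c _ => int_sq_pd (hWd I c) (hWs I c) k
    have hi2 : Integrable fun x => ∑ k, ∑ i, pd k (F i) x ^ 2 :=
      integrable_finsetSum _ fun k _ => integrable_finsetSum _ fun i _ =>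
        int_sq_pd (hF i) (hFc i) k
    have hsc : Continuous fun x => rr S x + δ :=
      (contDiff_rr S).continuous.add continuous_const
    have hs0 : ∀ x, rr S x + δ ≠ 0 := fun x =>
      (add_pos_of_nonneg_of_pos (rr_nonneg S x) hδ).ne'
    have hi3 : Integrable fun x => (∑ i, F i x ^ 2) *
        ((S.card - 1) * b * (1 / (rr S x + δ)) + b / (1 - b) * (δ ^ 2 / (rr S x + δ) ^ 3)) := by
      have hc3 : Continuous fun x => (∑ i, F i x ^ 2) *
          ((S.card - 1) * b * (1 / (rr S x + δ)) + b / (1 - b) * (δ ^ 2 / (rr S x + δ) ^ 3)) :=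
        hρc.mul ((continuous_const.mul (continuous_const.div hsc hs0)).add
          (continuous_const.mul (continuous_const.div (hsc.pow 3) fun x => pow_ne_zero 3 (hs0 x))))
      refine hc3.integrable_of_hasCompactSupport (cs_of_zero hFc _ fun x hx => ?_)
      have h0 : ∑ i, F i x ^ 2 = 0 := Finset.sum_eq_zero fun i _ => by rw [hx i]; norm_num
      rw [h0, zero_mul]
    rw [← integral_add hi2 hi3, ← integral_const_mul]
    exact integral_mono hi1 ((hi2.add hi3).const_mul _) fun x =>
      kin_pt h hb0 hb1 hδ e F hF x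
  · -- the Gram matrix
    intro v
    set G : κ → (Fin (m' + 1) → ℝ) → ℝ := fun a x => ∑ i, v (e.symm (i, a)) * F i x with hGdef
    have hGc : ∀ a, Continuous (G a) := fun a =>
      continuous_finsetSum _ fun i _ => continuous_const.mul (hFcont i)
    have hGs : ∀ a, HasCompactSupport (G a) := fun a => cs_of_zero hFc _ fun x hx =>
      Finset.sum_eq_zero fun i _ => by rw [hx i, mul_zero]
    have hGo : ∀ a x, G a (sg S x) = - G a x := by
      intro a x
      simp only [hGdef, ho, mul_neg, Finset.sum_neg_distrib]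
    have e1 : ∀ x c, ∑ I, v I * (Wd S Γ b δ x c (e I).2 * F (e I).1 x) =
        ∑ a, Wd S Γ b δ x c a * G a x := by
      intro x c
      have h1 : ∀ I, v I * (Wd S Γ b δ x c (e I).2 * F (e I).1 x) =
          (fun K : Fin n × κ => v (e.symm K) * (Wd S Γ b δ x c K.2 * F K.1 x)) (e I) := by
        intro I
        simp only [Equiv.symm_apply_apply]
      rw [Finset.sum_congr rfl fun I _ => h1 I,
        e.sum_comp (fun K : Fin n × κ => v (e.symm K) * (Wd S Γ b δ x c K.2 * F K.1 x)),
        Fintype.sum_prod_type, Finset.sum_comm]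
      refine Finset.sum_congr rfl fun a _ => ?_
      rw [hGdef]
      simp only [Finset.mul_sum]
      refine Finset.sum_congr rfl fun i _ => ?_
      ring
    have e2 : ∀ x, ∑ c, (∑ I, v I * (Wd S Γ b δ x c (e I).2 * F (e I).1 x)) ^ 2 =
        (∑ a, G a x ^ 2) + 2 * aa b δ (rr S x) * bb b δ (rr S x) *
          ∑ a, ∑ a', XX S Γ x a a' * (G a x * G a' x) := by
      intro x
      rw [← gram_pt h hb0 hb1 hδ (fun a => G a x) x]
      exact Finset.sum_congr rfl fun c _ => by rw [e1 x c]
    have i1 : Integrable fun x => ∑ a, G a x ^ 2 := by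
      refine integrable_finsetSum _ fun a _ => ?_
      have c1 : Continuous fun x => G a x ^ 2 := (hGc a).pow 2
      have s1 : HasCompactSupport fun x => G a x ^ 2 :=
        (hGs a).comp_left (g := fun t : ℝ => t ^ 2) (by norm_num)
      exact c1.integrable_of_hasCompactSupport s1
    have i2 : Integrable fun x => 2 * aa b δ (rr S x) * bb b δ (rr S x) *
          ∑ a, ∑ a', XX S Γ x a a' * (G a x * G a' x) := by
      have hXc : ∀ a a', Continuous fun x => XX S Γ x a a' := by
        intro a a'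
        unfold XX
        simp only [Matrix.sum_apply, Matrix.smul_apply, smul_eq_mul]
        exact continuous_finsetSum _ fun k _ => (continuous_apply k).mul continuous_const
      have c2 : Continuous fun x => 2 * aa b δ (rr S x) * bb b δ (rr S x) *
          ∑ a, ∑ a', XX S Γ x a a' * (G a x * G a' x) :=
        ((continuous_const.mul (contDiff_aa S hb1 hδ).continuous).mul
          (contDiff_bb S hb0 hδ).continuous).mul
          (continuous_finsetSum _ fun a _ => continuous_finsetSum _ fun a' _ =>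
            (hXc a a').mul ((hGc a).mul (hGc a')))
      refine c2.integrable_of_hasCompactSupport (cs_of_zero hFc _ fun x hx => ?_)
      have h0 : ∀ a, G a x = 0 := fun a =>
        Finset.sum_eq_zero fun i _ => by rw [hx i, mul_zero]
      simp only [h0]
      simp
    have i3 : ∫ x, 2 * aa b δ (rr S x) * bb b δ (rr S x) *
          ∑ a, ∑ a', XX S Γ x a a' * (G a x * G a' x) = 0 := by
      refine integral_odd (S := S) fun x => ?_
      rw [rr_sg, XX_sg, ← mul_neg, ← Finset.sum_neg_distrib]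
      congr 1
      refine Finset.sum_congr rfl fun a _ => ?_
      rw [← Finset.sum_neg_distrib]
      refine Finset.sum_congr rfl fun a' _ => ?_
      rw [hGo, hGo, Matrix.neg_apply]
      ring
    have i4 : ∀ a, Integrable fun x => G a x ^ 2 := by
      intro a
      have c1 : Continuous fun x => G a x ^ 2 := (hGc a).pow 2
      have s1 : HasCompactSupport fun x => G a x ^ 2 :=
        (hGs a).comp_left (g := fun t : ℝ => t ^ 2) (by norm_num)
      exact c1.integrable_of_hasCompactSupport s1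
    rw [integral_congr_ae (Eventually.of_forall e2), integral_add i1 i2, i3, add_zero,
      integral_finsetSum _ fun a _ => i4 a]
    have h1 : ∀ a, ∫ x, G a x ^ 2 ≤ ∑ i, v (e.symm (i, a)) ^ 2 := fun a =>
      hG fun i => v (e.symm (i, a))
    refine (Finset.sum_le_sum fun a _ => h1 a).trans (le_of_eq ?_)
    rw [Finset.sum_comm, ← Fintype.sum_prod_type (fun K : Fin n × κ => v (e.symm K) ^ 2)]
    exact e.symm.sum_comp (fun I => v I ^ 2)
  · -- the spectral condition
    intro x
    have hτ := rr_nonneg S x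
    refine spec_kr e (fun i => F i x) (Wd S Γ b δ x) (σ := sig S b δ x) hp ?_ ?_ ?_
    · rcases hτ.eq_or_lt with h0 | h0
      · right
        exact Finset.sum_eq_zero fun i _ => by
          rw [zero_of_rr (ho i) h0.symm]; norm_num
      · exact Or.inl ⟨sig_pos hb0 hb1 hδ h0, sig_lt_one hb0 hb hδ x⟩
    · exact ww_sq h x (ab_one hb0 hb1 hδ hτ) (sig_sq x)
    · exact ww_trace h x (ab_one hb0 hb1 hδ hτ)

end Pool.Agent.U327.LT
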