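import Pool.Agent.U327.LT.C4

set_option autoImplicit false

/-!
# The limit: the inequality for odd systems of smooth functions
-/

open MeasureTheory Set Filter Topology Real
open scoped Matrix

namespace Pool.Agent.U327.LT

open LTd

theorem odd_bound {d : ℕ} {S : Finset (Fin d)} {f : (Fin d → ℝ) → ℝ} (hf : ContDiff ℝ 1 f)
    (hc : HasCompactSupport f) (ho : ∀ x, f (sg S x) = - f x) :
    ∃ C : ℝ, ∀ x, f x ^ 2 ≤ C * rr S x := by
  obtain ⟨C, hC⟩ := (hf.continuous_fderiv one_ne_zero).bounded_above_of_compact_support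
    (hc.fderiv ℝ)
  have hC0 : 0 ≤ C := (norm_nonneg _).trans (hC 0)
  refine ⟨C ^ 2, fun x => ?_⟩
  have h1 : ‖f x - f (sg S x)‖ ≤ C * ‖x - sg S x‖ :=
    convex_univ.norm_image_sub_le_of_norm_fderiv_le (𝕜 := ℝ)
      (fun y _ => hf.differentiable one_ne_zero y) (fun y _ => hC y) (mem_univ _) (mem_univ _)
  have h3 : ‖x - sg S x‖ ≤ 2 * √(rr S x) := by
    rw [pi_norm_le_iff_of_nonneg (by positivity)]
    intro i
    by_cases hi : i ∈ S
    · have h4 : (x - sg S x) i = 2 * x i := by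
        unfold sg
        simp only [Pi.sub_apply, hi, if_true]
        ring
      rw [h4, Real.norm_eq_abs, abs_mul, abs_of_pos (by norm_num : (0:ℝ) < 2)]
      refine mul_le_mul_of_nonneg_left ?_ (by norm_num)
      refine Real.abs_le_sqrt ?_
      exact Finset.single_le_sum (f := fun k => x k ^ 2) (fun k _ => sq_nonneg _) hi
    · have h4 : (x - sg S x) i = 0 := by
        unfold sg
        simp only [Pi.sub_apply, hi, if_false]
        ring
      rw [h4, norm_zero]
      positivity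
  have h5 : f x - f (sg S x) = 2 * f x := by rw [ho]; ring
  rw [h5, Real.norm_eq_abs, abs_mul, abs_of_pos (by norm_num : (0:ℝ) < 2)] at h1
  have h6 : |f x| ≤ C * √(rr S x) := by
    have := h1.trans (mul_le_mul_of_nonneg_left h3 hC0)
    nlinarith
  have h7 := mul_self_le_mul_self (abs_nonneg _) h6
  have e1 : |f x| * |f x| = f x ^ 2 := by rw [← sq, sq_abs]
  have e2 : C * √(rr S x) * (C * √(rr S x)) = C ^ 2 * rr S x := by
    have := Real.mul_self_sqrt (rr_nonneg S x)
    linear_combination (C ^ 2) * this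
  rw [e1, e2] at h7
  exact h7

theorem err_tendsto {d : ℕ} {S : Finset (Fin d)} {f : (Fin d → ℝ) → ℝ} (hf : ContDiff ℝ 1 f)
    (hc : HasCompactSupport f) (ho : ∀ x, f (sg S x) = - f x) :
    Tendsto (fun n : ℕ => ∫ x, f x ^ 2 * ((1 / ((n:ℝ) + 1)) ^ 2 / (rr S x + 1 / ((n:ℝ) + 1)) ^ 3))
      atTop (𝓝 0) := by
  obtain ⟨C, hC⟩ := odd_bound hf hc ho
  obtain ⟨M, hM⟩ := hc.isCompact.isBounded.subset_closedBall 0
  obtain ⟨C', hC'⟩ := cutoff d
  obtain ⟨χ, hχ1, hχ2, hχ3, hχ4, -⟩ := hC' (max 1 M) (le_max_left _ _)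
  have hone : ∀ x, f x ≠ 0 → χ x = 1 := by
    intro x hx
    have h1 := hM (subset_tsupport f hx)
    rw [Metric.mem_closedBall, dist_zero_right] at h1
    exact hχ4 x (h1.trans (le_max_right _ _))
  have hlim : Tendsto (fun n : ℕ => ∫ x, f x ^ 2 *
      ((1 / ((n:ℝ) + 1)) ^ 2 / (rr S x + 1 / ((n:ℝ) + 1)) ^ 3))
      atTop (𝓝 (∫ x : Fin d → ℝ, (0:ℝ))) := by
    refine tendsto_integral_of_dominated_convergence (fun x => |C| * χ x) ?_ ?_ ?_ ?_
    · intro n
      have hη : 0 < (1 / ((n:ℝ) + 1)) := by positivity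
      have hsc : Continuous fun x => rr S x + 1 / ((n:ℝ) + 1) :=
        (contDiff_rr S).continuous.add continuous_const
      have hs0 : ∀ x, rr S x + 1 / ((n:ℝ) + 1) ≠ 0 := fun x =>
        (add_pos_of_nonneg_of_pos (rr_nonneg S x) hη).ne'
      exact ((hf.continuous.pow 2).mul (continuous_const.div (hsc.pow 3)
        fun x => pow_ne_zero 3 (hs0 x))).aestronglyMeasurable
    · exact (continuous_const.mul hχ1.continuous).integrable_of_hasCompactSupport hχ2.mul_left
    · intro n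
      refine Eventually.of_forall fun x => ?_
      have hη : 0 < (1 / ((n:ℝ) + 1)) := by positivity
      generalize 1 / ((n:ℝ) + 1) = η at hη
      have hr := rr_nonneg S x
      have ht : 0 < rr S x + η := by positivity
      rw [Real.norm_eq_abs, abs_of_nonneg (by positivity)]
      by_cases hx : f x = 0
      · rw [hx]
        have h1 := (hχ3 x).1
        have : 0 ≤ |C| * χ x := by positivity
        simpa using this
      · rw [hone x hx, mul_one]
        have h1 : f x ^ 2 ≤ |C| * rr S x :=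
          (hC x).trans (mul_le_mul_of_nonneg_right (le_abs_self _) hr)
        have h2 : f x ^ 2 * (η ^ 2 / (rr S x + η) ^ 3) ≤
            |C| * rr S x * (η ^ 2 / (rr S x + η) ^ 3) :=
          mul_le_mul_of_nonneg_right h1 (by positivity)
        refine h2.trans ?_
        rw [mul_assoc]
        refine mul_le_of_le_one_right (abs_nonneg _) ?_
        rw [← mul_div_assoc, div_le_one (by positivity)]
        have h3 : rr S x * η ^ 2 ≤ (rr S x + η) * (rr S x + η) ^ 2 :=
          mul_le_mul (by linarith) (pow_le_pow_left₀ hη.le (by linarith) 2) (by positivity)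
            ht.le
        calc rr S x * η ^ 2 ≤ (rr S x + η) * (rr S x + η) ^ 2 := h3
          _ = (rr S x + η) ^ 3 := by ring
    · refine Eventually.of_forall fun x => ?_
      rcases (rr_nonneg S x).eq_or_lt with h0 | h0
      · rw [zero_of_rr ho h0.symm]
        simp
      · have hη : Tendsto (fun n : ℕ => (1 / ((n:ℝ) + 1))) atTop (𝓝 0) :=
          tendsto_one_div_add_atTop_nhds_zero_nat
        have hx2 : (rr S x + 0) ^ 3 ≠ 0 := by
          rw [add_zero]
          exact pow_ne_zero 3 h0.ne'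
        have h1 := ((hη.pow 2).div ((hη.const_add (rr S x)).pow 3) hx2).const_mul (f x ^ 2)
        simpa using h1
  rw [integral_zero] at hlim
  exact hlim

variable {m' : ℕ} {κ : Type} [Fintype κ] [DecidableEq κ]
variable {S : Finset (Fin (m' + 1))} {Γ : Fin (m' + 1) → Matrix κ κ ℝ}

theorem sig_tendsto {b : ℝ} (hb0 : 0 < b) (hb : b < 1) {x : Fin (m' + 1) → ℝ}
    (hx : 0 < rr S x) :
    Tendsto (fun n : ℕ => sig S b (1 / ((n:ℝ) + 1)) x) atTop (𝓝 (2 * √(b * (1 - b)))) := by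
  have hη : Tendsto (fun n : ℕ => (1 / ((n:ℝ) + 1))) atTop (𝓝 0) :=
    tendsto_one_div_add_atTop_nhds_zero_nat
  have h0 : rr S x + 0 ≠ 0 := by rw [add_zero]; exact hx.ne'
  have hA : Tendsto (fun n : ℕ => aa b (1 / ((n:ℝ) + 1)) (rr S x)) atTop (𝓝 (√(1 - b))) := by
    unfold aa
    have h1 := ((hη.const_add ((1 - b) * rr S x)).div (hη.const_add (rr S x)) h0).sqrt
    have e : ((1 - b) * rr S x + 0) / (rr S x + 0) = 1 - b := by
      rw [add_zero, add_zero]
      field_simp
    rw [e] at h1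
    exact h1
  have hB : Tendsto (fun n : ℕ => bb b (1 / ((n:ℝ) + 1)) (rr S x)) atTop (𝓝 (√(b / rr S x))) := by
    unfold bb
    have h1 := ((tendsto_const_nhds (x := b)).div (hη.const_add (rr S x)) h0).sqrt
    rw [add_zero] at h1
    exact h1
  have h2 := ((hA.const_mul 2).mul hB).mul_const (√(rr S x))
  have e : 2 * √(1 - b) * √(b / rr S x) * √(rr S x) = 2 * √(b * (1 - b)) := by
    have h1b : 0 < 1 - b := by linarith
    rw [mul_assoc, ← Real.sqrt_mul (by positivity), mul_assoc, ← Real.sqrt_mul (by positivity)]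
    congr 2
    field_simp
  rw [e] at h2
  exact h2

/-- The kinetic inequality for odd systems of functions of class C¹ with compact support. -/
theorem odd_smooth (h : Cl S Γ) (hκ : 0 < Fintype.card κ) (hS : 0 < S.card) {b : ℝ} (hb0 : 0 < b)
    (hb : b < 1 / 2) (n : ℕ)
    (F : Fin n → (Fin (m' + 1) → ℝ) → ℝ) (hF : ∀ i, ContDiff ℝ 1 (F i))
    (hFc : ∀ i, HasCompactSupport (F i)) (ho : ∀ i x, F i (sg S x) = - F i x)
    (hG : ∀ v : Fin n → ℝ, ∫ x, (∑ i, v i * F i x) ^ 2 ≤ ∑ i, v i ^ 2) :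
    bco (m' / 2) (3 / 2) (π ^ 2 / 4) *
        (((1 + 2 * √(b * (1 - b))) ^ pp (3 / 2 + (m':ℝ) / 2) +
          (1 - 2 * √(b * (1 - b))) ^ pp (3 / 2 + (m':ℝ) / 2)) / 2) *
        ∫ x, (∑ i, F i x ^ 2) ^ pp (3 / 2 + (m':ℝ) / 2) ≤
      (∫ x, ∑ k, ∑ i, pd k (F i) x ^ 2) +
        4 * (S.card - 1) * b / S.card ^ 2 * ∑ k ∈ S, ∑ i, ∫ x, pd k (F i) x ^ 2 := by
  classical
  have hb1 : b < 1 := by linarith
  have hp := pp_pos m'
  set p := pp (3 / 2 + (m':ℝ) / 2) with hpdef
  set q : ℝ := (Fintype.card κ : ℝ) with hq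
  have hq0 : 0 < q := by rw [hq]; exact_mod_cast hκ
  set s : ℝ := 2 * √(b * (1 - b)) with hs
  set m : ℝ := (S.card : ℝ) with hm
  have hm0 : 0 < m := by rw [hm]; exact_mod_cast hS
  have hm1 : 1 ≤ m := by rw [hm]; exact_mod_cast hS
  set TS : ℝ := ∑ k ∈ S, ∑ i, ∫ x, pd k (F i) x ^ 2 with hTS
  set T : ℝ := ∫ x, ∑ k, ∑ i, pd k (F i) x ^ 2 with hT
  have hFcont : ∀ i, Continuous (F i) := fun i => (hF i).continuous
  have hρc : Continuous fun x => ∑ i, F i x ^ 2 :=
    continuous_finsetSum _ fun i _ => (hFcont i).pow 2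
  have hρ0 : ∀ x, 0 ≤ ∑ i, F i x ^ 2 := fun x => Finset.sum_nonneg fun i _ => sq_nonneg _
  have hρz : ∀ x, (∀ i, F i x = 0) → ∑ i, F i x ^ 2 = 0 := fun x hx =>
    Finset.sum_eq_zero fun i _ => by rw [hx i]; norm_num
  have hρp : Integrable fun x => (∑ i, F i x ^ 2) ^ p :=
    (hρc.rpow_const fun _ => Or.inr hp.le).integrable_of_hasCompactSupport
      (cs_of_zero hFc _ fun x hx => by rw [hρz x hx, Real.zero_rpow hp.ne'])
  -- left hand side
  have hL : Tendsto (fun k : ℕ => bco (m' / 2) (3 / 2) (π ^ 2 / 4) * ∫ x, (q / 2 : ℝ) *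
        ((1 + sig S b (1 / ((k:ℝ) + 1)) x) ^ p + (1 - sig S b (1 / ((k:ℝ) + 1)) x) ^ p) *
          (∑ i, F i x ^ 2) ^ p) atTop
      (𝓝 (bco (m' / 2) (3 / 2) (π ^ 2 / 4) * ∫ x, (q / 2 : ℝ) *
        ((1 + s) ^ p + (1 - s) ^ p) * (∑ i, F i x ^ 2) ^ p)) := by
    refine Tendsto.const_mul _ ?_
    refine tendsto_integral_of_dominated_convergence
      (fun x => (q / 2) * (2 ^ p + 1) * (∑ i, F i x ^ 2) ^ p) ?_ ?_ ?_ ?_
    · intro k
      have hδ : 0 < (1 / ((k:ℝ) + 1)) := by positivity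
      have hσc : Continuous (sig S b (1 / ((k:ℝ) + 1))) := by
        unfold sig
        exact ((continuous_const.mul (contDiff_aa S hb1 hδ).continuous).mul
          (contDiff_bb S hb0 hδ).continuous).mul (contDiff_rr S).continuous.sqrt
      exact ((continuous_const.mul (((continuous_const.add hσc).rpow_const
        fun _ => Or.inr hp.le).add ((continuous_const.sub hσc).rpow_const
          fun _ => Or.inr hp.le))).mul (hρc.rpow_const fun _ => Or.inr hp.le)).aestronglyMeasurable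
    · exact hρp.const_mul _
    · intro k
      refine Eventually.of_forall fun x => ?_
      have hδ : 0 < (1 / ((k:ℝ) + 1)) := by positivity
      have h1 := sig_nonneg (S := S) (b := b) (δ := 1 / ((k:ℝ) + 1)) x
      have h2 := sig_lt_one (S := S) hb0 hb hδ x
      have h3 : 0 ≤ (∑ i, F i x ^ 2) ^ p := Real.rpow_nonneg (hρ0 x) _
      have h4 : (1 + sig S b (1 / ((k:ℝ) + 1)) x) ^ p ≤ 2 ^ p :=
        Real.rpow_le_rpow (by linarith) (by linarith) hp.le
      have h5 : (1 - sig S b (1 / ((k:ℝ) + 1)) x) ^ p ≤ 1 :=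
        Real.rpow_le_one (by linarith) (by linarith) hp.le
      have h6 : 0 ≤ (1 + sig S b (1 / ((k:ℝ) + 1)) x) ^ p := Real.rpow_nonneg (by linarith) _
      have h7 : 0 ≤ (1 - sig S b (1 / ((k:ℝ) + 1)) x) ^ p := Real.rpow_nonneg (by linarith) _
      rw [Real.norm_eq_abs, abs_of_nonneg (by positivity)]
      refine mul_le_mul_of_nonneg_right ?_ h3
      refine mul_le_mul_of_nonneg_left ?_ (by positivity)
      linarith
    · refine Eventually.of_forall fun x => ?_
      rcases (rr_nonneg S x).eq_or_lt with h0 | h0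
      · have h1 : ∑ i, F i x ^ 2 = 0 := hρz x fun i => zero_of_rr (ho i) h0.symm
        rw [h1, Real.zero_rpow hp.ne']
        simp
      · have h1 := sig_tendsto (S := S) hb0 hb1 h0
        have h2 := ((h1.const_add 1).rpow_const (p := p) (Or.inr hp.le)).add
          ((h1.const_sub 1).rpow_const (p := p) (Or.inr hp.le))
        exact ((h2.const_mul (q / 2)).mul_const _)
  -- right hand side
  have hE : Tendsto (fun k : ℕ => q * (T + (4 * (m - 1) * b / m ^ 2 * TS) +
      b / (1 - b) * ∑ i, ∫ x, F i x ^ 2 *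
        ((1 / ((k:ℝ) + 1)) ^ 2 / (rr S x + 1 / ((k:ℝ) + 1)) ^ 3))) atTop
      (𝓝 (q * (T + (4 * (m - 1) * b / m ^ 2 * TS) + b / (1 - b) * ∑ i : Fin n, (0:ℝ)))) := by
    refine Tendsto.const_mul _ (Tendsto.const_add _ (Tendsto.const_mul _ ?_))
    exact tendsto_finsetSum _ fun i _ => err_tendsto (hF i) (hFc i) (ho i)
  have hcmp : ∀ k : ℕ, bco (m' / 2) (3 / 2) (π ^ 2 / 4) * ∫ x, (q / 2 : ℝ) *
        ((1 + sig S b (1 / ((k:ℝ) + 1)) x) ^ p + (1 - sig S b (1 / ((k:ℝ) + 1)) x) ^ p) *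
          (∑ i, F i x ^ 2) ^ p ≤ q * (T + (4 * (m - 1) * b / m ^ 2 * TS) +
      b / (1 - b) * ∑ i, ∫ x, F i x ^ 2 *
        ((1 / ((k:ℝ) + 1)) ^ 2 / (rr S x + 1 / ((k:ℝ) + 1)) ^ 3)) := by
    intro k
    have hδ : 0 < (1 / ((k:ℝ) + 1)) := by positivity
    have h1 := fixed h hκ hb0 hb hδ n F hF hFc ho hG
    generalize 1 / ((k:ℝ) + 1) = δ at hδ h1 ⊢
    refine h1.trans ?_
    refine mul_le_mul_of_nonneg_left ?_ hq0.le
    rw [add_assoc]
    refine add_le_add le_rfl ?_
    have i1 : ∀ i, Integrable fun x => F i x ^ 2 / (rr S x + δ) := fun i =>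
      int_sq_rr (hFcont i) (hFc i) S hδ
    have hsc : Continuous fun x => rr S x + δ :=
      (contDiff_rr S).continuous.add continuous_const
    have hs0 : ∀ x, rr S x + δ ≠ 0 := fun x =>
      (add_pos_of_nonneg_of_pos (rr_nonneg S x) hδ).ne'
    have i2 : ∀ i, Integrable fun x => F i x ^ 2 * (δ ^ 2 / (rr S x + δ) ^ 3) := by
      intro i
      have hc2 : HasCompactSupport (fun x => F i x ^ 2) :=
        (hFc i).comp_left (g := fun t : ℝ => t ^ 2) (by norm_num)
      exact (((hFcont i).pow 2).mul (continuous_const.div (hsc.pow 3)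
        fun x => pow_ne_zero 3 (hs0 x))).integrable_of_hasCompactSupport hc2.mul_right
    have e1 : ∀ x, (∑ i, F i x ^ 2) * ((m - 1) * b * (1 / (rr S x + δ)) +
        b / (1 - b) * (δ ^ 2 / (rr S x + δ) ^ 3)) =
        (m - 1) * b * (∑ i, F i x ^ 2 / (rr S x + δ)) +
          b / (1 - b) * ∑ i, F i x ^ 2 * (δ ^ 2 / (rr S x + δ) ^ 3) := by
      intro x
      rw [← Finset.sum_mul, ← Finset.sum_div]
      ring
    rw [integral_congr_ae (Eventually.of_forall e1), integral_add
      ((integrable_finsetSum _ fun i _ => i1 i).const_mul _)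
      ((integrable_finsetSum _ fun i _ => i2 i).const_mul _), integral_const_mul,
      integral_const_mul, integral_finsetSum _ fun i _ => i1 i,
      integral_finsetSum _ fun i _ => i2 i]
    refine add_le_add ?_ le_rfl
    have h2 : ∀ i, ∫ x, F i x ^ 2 / (rr S x + δ) ≤
        4 / m ^ 2 * ∑ k ∈ S, ∫ x, pd k (F i) x ^ 2 := by
      intro i
      have h3 := hardy_odd S hδ (hF i) (hFc i) (ho i)
      rw [← hm] at h3
      have h4 : 4 / m ^ 2 * (m ^ 2 / 4 * ∫ x, F i x ^ 2 / (rr S x + δ)) =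
          ∫ x, F i x ^ 2 / (rr S x + δ) := by
        field_simp
      rw [← h4]
      exact mul_le_mul_of_nonneg_left h3 (by positivity)
    have h5 : ∑ i, ∫ x, F i x ^ 2 / (rr S x + δ) ≤ 4 / m ^ 2 * TS := by
      refine (Finset.sum_le_sum fun i _ => h2 i).trans (le_of_eq ?_)
      rw [← Finset.mul_sum, Finset.sum_comm]
    have h6 : 0 ≤ (m - 1) * b := mul_nonneg (by linarith) hb0.le
    refine (mul_le_mul_of_nonneg_left h5 h6).trans (le_of_eq ?_)
    ring
  have hfin := le_of_tendsto_of_tendsto' hL hE hcmp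
  rw [Finset.sum_const_zero, mul_zero, add_zero, integral_const_mul] at hfin
  have h8 : q * (bco (m' / 2) (3 / 2) (π ^ 2 / 4) * (((1 + s) ^ p + (1 - s) ^ p) / 2) *
      ∫ x, (∑ i, F i x ^ 2) ^ p) ≤ q * (T + 4 * (m - 1) * b / m ^ 2 * TS) := by
    refine le_trans (le_of_eq ?_) hfin
    ring
  exact le_of_mul_le_mul_left h8 hq0

end Pool.Agent.U327.LT
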