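import Pool.Agent.U327.LT.C5

set_option autoImplicit false

/-!
# Existence of the Clifford matrices
-/

open MeasureTheory Set Filter Topology Real
open scoped Matrix Kronecker

namespace Pool.Agent.U327.LT

/-- `σ_z` -/
def sz : Matrix (Fin 2) (Fin 2) ℝ := !![1, 0; 0, -1]

/-- `σ_x` -/
def sx : Matrix (Fin 2) (Fin 2) ℝ := !![0, 1; 1, 0]

theorem sz_t : szᵀ = sz := by
  ext i j; fin_cases i <;> fin_cases j <;> rfl

theorem sx_t : sxᵀ = sx := by
  ext i j; fin_cases i <;> fin_cases j <;> rfl

theorem sz_sq : sz * sz = 1 := by
  ext i j; fin_cases i <;> fin_cases j <;> simp [sz, Matrix.mul_apply, Fin.sum_univ_two]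

theorem sx_sq : sx * sx = 1 := by
  ext i j; fin_cases i <;> fin_cases j <;> simp [sx, Matrix.mul_apply, Fin.sum_univ_two]

theorem szx : sz * sx + sx * sz = 0 := by
  ext i j; fin_cases i <;> fin_cases j <;> simp [sz, sx, Matrix.mul_apply, Fin.sum_univ_two]

theorem sz_tr : sz.trace = 0 := by
  simp [sz, Matrix.trace, Fin.sum_univ_two]

theorem sx_tr : sx.trace = 0 := by
  simp [sx, Matrix.trace, Fin.sum_univ_two]

theorem exists_cl {d : ℕ} (S : Finset (Fin d)) :
    ∃ (κ : Type) (_ : Fintype κ) (_ : DecidableEq κ) (Γ : Fin d → Matrix κ κ ℝ),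
      0 < Fintype.card κ ∧ Cl S Γ := by
  classical
  induction S using Finset.induction_on with
  | empty =>
    refine ⟨Unit, inferInstance, inferInstance, fun _ => 0, by simp, ?_⟩
    exact ⟨fun k hk => absurd hk (Finset.notMem_empty k),
      fun k hk => absurd hk (Finset.notMem_empty k),
      fun k hk => absurd hk (Finset.notMem_empty k)⟩
  | insert a S ha ih =>
    obtain ⟨κ, i1, i2, Γ, hκ, h⟩ := ih
    have hne : ∀ k ∈ S, k ≠ a := fun k hk e => ha (e ▸ hk)
    refine ⟨κ × Fin 2, inferInstance, inferInstance,
      fun k => if k = a then (1 : Matrix κ κ ℝ) ⊗ₖ sx else Γ k ⊗ₖ sz, ?_, ?_⟩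
    · rw [Fintype.card_prod, Fintype.card_fin]
      positivity
    · have hsym : ∀ A : Matrix κ κ ℝ, ∀ B : Matrix (Fin 2) (Fin 2) ℝ,
          (A ⊗ₖ B)ᵀ = Aᵀ ⊗ₖ Bᵀ := fun A B => by
        ext ⟨i, i'⟩ ⟨j, j'⟩
        rfl
      refine ⟨?_, ?_, ?_⟩
      · intro k hk
        rcases Finset.mem_insert.1 hk with rfl | hk
        · simp only [if_true]
          rw [hsym, Matrix.transpose_one, sx_t]
        · simp only [hne k hk, if_false]
          rw [hsym, h.sym k hk, sz_t]
      · intro k hk l hl
        rcases Finset.mem_insert.1 hk with rfl | hk'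
        · rcases Finset.mem_insert.1 hl with rfl | hl'
          · simp only [if_true]
            rw [← Matrix.mul_kronecker_mul, Matrix.one_mul, sx_sq, Matrix.one_kronecker_one,
              two_smul]
          · have e : ¬ (k = l) := fun e => hne l hl' e.symm
            simp only [hne l hl', if_true, if_false, e]
            rw [← Matrix.mul_kronecker_mul, ← Matrix.mul_kronecker_mul, Matrix.one_mul,
              Matrix.mul_one, ← Matrix.kronecker_add, add_comm (sx * sz), szx,
              Matrix.kronecker_zero]
        · rcases Finset.mem_insert.1 hl with rfl | hl'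
          · simp only [hne k hk', if_true, if_false]
            rw [← Matrix.mul_kronecker_mul, ← Matrix.mul_kronecker_mul, Matrix.one_mul,
              Matrix.mul_one, ← Matrix.kronecker_add, szx, Matrix.kronecker_zero]
          · simp only [hne k hk', hne l hl', if_false]
            rw [← Matrix.mul_kronecker_mul, ← Matrix.mul_kronecker_mul, sz_sq,
              ← Matrix.add_kronecker, h.anti k hk' l hl']
            by_cases e : k = l
            · simp only [e, if_true]
              rw [Matrix.smul_kronecker, Matrix.one_kronecker_one]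
            · simp only [e, if_false]
              rw [Matrix.zero_kronecker]
      · intro k hk
        rcases Finset.mem_insert.1 hk with rfl | hk
        · simp only [if_true]
          rw [Matrix.trace_kronecker, sx_tr, mul_zero]
        · simp only [hne k hk, if_false]
          rw [Matrix.trace_kronecker, sz_tr, mul_zero]

end Pool.Agent.U327.LT
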