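import Pool.Agent.U327.LT.C6
import Pool.Agent.Helper717.LT.P_final_thm

set_option autoImplicit false

/-!
# Scaling of the coordinates in `S`
-/

open MeasureTheory Set Filter Topology Real
open scoped Matrix

namespace Pool.Agent.U327.LT

open LTd

/-- the diagonal scaling as a homeomorphism -/
noncomputable def dgH {d : ℕ} (D : Fin d → ℝ) (hD : ∀ k, D k ≠ 0) : (Fin d → ℝ) ≃ₜ (Fin d → ℝ) where
  toFun x := fun k => D k * x k
  invFun x := fun k => (D k)⁻¹ * x k
  left_inv x := by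
    funext k
    change (D k)⁻¹ * (D k * x k) = x k
    rw [inv_mul_cancel_left₀ (hD k)]
  right_inv x := by
    funext k
    change D k * ((D k)⁻¹ * x k) = x k
    rw [mul_inv_cancel_left₀ (hD k)]
  continuous_toFun := by fun_prop
  continuous_invFun := by fun_prop

theorem int_diag {d : ℕ} (D : Fin d → ℝ) (hD : ∀ k, 0 < D k) (f : (Fin d → ℝ) → ℝ) :
    (∏ k, D k) * ∫ x : Fin d → ℝ, f (fun k => D k * x k) = ∫ x, f x := by
  have hdet : (Matrix.diagonal D).det = ∏ k, D k := Matrix.det_diagonal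
  have hpos : 0 < ∏ k, D k := Finset.prod_pos fun k _ => hD k
  have h := Real.smul_map_diagonal_volume_pi (D := D) (by rw [hdet]; exact hpos.ne')
  have hL : ⇑(Matrix.toLin' (Matrix.diagonal D)) = dgH D (fun k => (hD k).ne') := by
    funext x
    ext k
    simp [dgH, Matrix.toLin'_apply, Matrix.mulVec_diagonal]
  rw [hL, hdet, abs_of_pos hpos] at h
  conv_rhs => rw [← h, integral_smul_measure,
    (dgH D (fun k => (hD k).ne')).measurableEmbedding.integral_map]
  rw [ENNReal.toReal_ofReal hpos.le, smul_eq_mul]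
  rfl

/-- the diagonal scaling as a linear map -/
noncomputable def dgL {d : ℕ} (D : Fin d → ℝ) : (Fin d → ℝ) →L[ℝ] (Fin d → ℝ) :=
  ContinuousLinearMap.pi fun k => D k • ContinuousLinearMap.proj k

theorem dgL_apply {d : ℕ} (D : Fin d → ℝ) (x : Fin d → ℝ) : dgL D x = fun k => D k * x k := by
  funext k
  simp [dgL]

/-- the scaled function -/
noncomputable def sc {d : ℕ} (D : Fin d → ℝ) (f : (Fin d → ℝ) → ℝ) (x : Fin d → ℝ) : ℝ :=
  √(∏ k, D k) * f (fun k => D k * x k)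

theorem contDiff_sc {d : ℕ} (D : Fin d → ℝ) {f : (Fin d → ℝ) → ℝ} (hf : ContDiff ℝ 1 f) :
    ContDiff ℝ 1 (sc D f) := by
  unfold sc
  refine contDiff_const.mul (hf.comp ?_)
  have h : (fun x : Fin d → ℝ => fun k => D k * x k) = dgL D := by
    funext x
    rw [dgL_apply]
  rw [h]
  exact (dgL D).contDiff

theorem hcs_sc {d : ℕ} (D : Fin d → ℝ) (hD : ∀ k, D k ≠ 0) {f : (Fin d → ℝ) → ℝ}
    (hf : HasCompactSupport f) : HasCompactSupport (sc D f) := by
  unfold sc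
  exact (hf.comp_homeomorph (dgH D hD)).mul_left

theorem pd_sc {d : ℕ} (D : Fin d → ℝ) {f : (Fin d → ℝ) → ℝ} (hf : ContDiff ℝ 1 f) (k : Fin d)
    (x : Fin d → ℝ) :
    pd k (sc D f) x = √(∏ k, D k) * (D k * pd k f (fun k => D k * x k)) := by
  have h1 : HasFDerivAt (sc D f)
      (√(∏ k, D k) • ((fderiv ℝ f (fun k => D k * x k)).comp (dgL D))) x := by
    have h2 : HasFDerivAt f (fderiv ℝ f (fun k => D k * x k)) (dgL D x) := by
      rw [dgL_apply]
      exact (hf.differentiable one_ne_zero _).hasFDerivAt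
    have h3 := (h2.comp x (dgL D).hasFDerivAt).const_mul (√(∏ k, D k))
    refine h3.congr_of_eventuallyEq (Eventually.of_forall fun y => ?_)
    change √(∏ k, D k) * f (fun k => D k * y k) = √(∏ k, D k) * f (dgL D y)
    rw [dgL_apply]
  have h4 : dgL D (Pi.single k 1) = D k • Pi.single k 1 := by
    rw [dgL_apply]
    funext j
    by_cases e : j = k
    · subst e; simp
    · simp [e]
  unfold pd
  rw [h1.fderiv, smul_apply, ContinuousLinearMap.comp_apply, h4, map_smul,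
    smul_eq_mul, smul_eq_mul]

theorem sq_int_pd_sc {d : ℕ} (D : Fin d → ℝ) (hD : ∀ k, 0 < D k) {f : (Fin d → ℝ) → ℝ}
    (hf : ContDiff ℝ 1 f) (k : Fin d) :
    ∫ x, pd k (sc D f) x ^ 2 = D k ^ 2 * ∫ x, pd k f x ^ 2 := by
  have hpos : 0 < ∏ k, D k := Finset.prod_pos fun k _ => hD k
  have h1 := int_diag D hD (fun x => pd k f x ^ 2)
  have h2 : ∀ x, pd k (sc D f) x ^ 2 =
      (D k ^ 2 * ∏ k, D k) * (pd k f (fun k => D k * x k)) ^ 2 := by
    intro x
    rw [pd_sc D hf, mul_pow, mul_pow, Real.sq_sqrt hpos.le]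
    ring
  simp only [h2]
  rw [integral_const_mul, mul_assoc, h1]

variable {m' : ℕ} {S : Finset (Fin (m' + 1))}

/-- The kinetic inequality for odd systems of functions of class C¹ with compact support. -/
theorem odd_scaled (hS : 0 < S.card) {b : ℝ} (hb0 : 0 < b)
    (hb : b < 1 / 2) (n : ℕ)
    (F : Fin n → (Fin (m' + 1) → ℝ) → ℝ) (hF : ∀ i, ContDiff ℝ 1 (F i))
    (hFc : ∀ i, HasCompactSupport (F i)) (ho : ∀ i x, F i (sg S x) = - F i x)
    (hG : ∀ v : Fin n → ℝ, ∫ x, (∑ i, v i * F i x) ^ 2 ≤ ∑ i, v i ^ 2) :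
    bco (m' / 2) (3 / 2) (π ^ 2 / 4) *
        (((1 + 2 * √(b * (1 - b))) ^ pp (3 / 2 + (m':ℝ) / 2) +
          (1 - 2 * √(b * (1 - b))) ^ pp (3 / 2 + (m':ℝ) / 2)) / 2) *
        (1 + 4 * (S.card - 1) * b / S.card ^ 2) ^ (-((S.card : ℝ) / (m' + 1))) *
        ∫ x, (∑ i, F i x ^ 2) ^ pp (3 / 2 + (m':ℝ) / 2) ≤
      ∫ x, ∑ k, ∑ i, pd k (F i) x ^ 2 := by
  classical
  obtain ⟨κ, i1, i2, Γ, hκ, h⟩ := exists_cl S
  set m : ℝ := (S.card : ℝ) with hm
  have hm0 : 0 < m := by rw [hm]; exact_mod_cast hS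
  have hm1 : 1 ≤ m := by rw [hm]; exact_mod_cast hS
  set c : ℝ := 4 * (m - 1) * b / m ^ 2 with hc
  have hc0 : 0 ≤ c := by
    have : 0 ≤ m - 1 := by linarith
    positivity
  have h1c : 0 < 1 + c := by positivity
  set μ : ℝ := (1 + c) ^ (-(1/2) : ℝ) with hμ
  have hμ0 : 0 < μ := Real.rpow_pos_of_pos h1c _
  have hμ2 : μ ^ 2 * (1 + c) = 1 := by
    rw [hμ, ← Real.rpow_natCast, ← Real.rpow_mul h1c.le]
    norm_num
    rw [Real.rpow_neg_one]
    exact inv_mul_cancel₀ h1c.ne'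
  set D : Fin (m' + 1) → ℝ := fun k => if k ∈ S then μ else 1 with hDdef
  have hD : ∀ k, 0 < D k := by
    intro k
    rw [hDdef]
    by_cases hk : k ∈ S
    · simp only [hk, if_true]; exact hμ0
    · simp only [hk, if_false]; exact one_pos
  have hDS : ∀ k ∈ S, D k = μ := fun k hk => by simp only [hDdef, hk, if_true]
  have hDn : ∀ k, k ∉ S → D k = 1 := fun k hk => by simp only [hDdef, hk, if_false]
  obtain ⟨J, hJ⟩ : ∃ J, J = ∏ k, D k := ⟨_, rfl⟩
  have hJ0 : 0 < J := by rw [hJ]; exact Finset.prod_pos fun k _ => hD k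
  have hJv : J = μ ^ S.card := by
    rw [hJ, ← Finset.prod_subset (Finset.subset_univ S) (fun k _ hk => hDn k hk),
      Finset.prod_congr rfl hDS, Finset.prod_const]
  set p := pp (3 / 2 + (m':ℝ) / 2) with hpdef
  have hp0 : 0 < p := pp_pos m'
  have hpv : p = 1 + 2 / ((m':ℝ) + 1) := by
    rw [hpdef, final_thm_pp]
    push_cast
    rfl
  have hJp : J ^ p = J * (1 + c) ^ (-(m / (m' + 1))) := by
    rw [hpv, Real.rpow_add hJ0, Real.rpow_one]
    congr 1
    rw [hJv, hμ, ← Real.rpow_natCast, ← Real.rpow_mul h1c.le, ← Real.rpow_mul h1c.le]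
    congr 1
    rw [← hm]
    have : (m':ℝ) + 1 ≠ 0 := by positivity
    field_simp
  have hodd : ∀ i x, sc D (F i) (sg S x) = - sc D (F i) x := by
    intro i x
    unfold sc
    have e : (fun k => D k * sg S x k) = sg S (fun k => D k * x k) := by
      funext k
      unfold sg
      by_cases hk : k ∈ S
      · simp only [hk, if_true]; ring
      · simp only [hk, if_false]
    rw [e, ho]
    ring
  have hGram : ∀ v : Fin n → ℝ, ∫ x, (∑ i, v i * sc D (F i) x) ^ 2 ≤ ∑ i, v i ^ 2 := by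
    intro v
    have h1 := int_diag D hD (fun x => (∑ i, v i * F i x) ^ 2)
    have h2 : ∀ x, (∑ i, v i * sc D (F i) x) ^ 2 =
        J * (∑ i, v i * F i (fun k => D k * x k)) ^ 2 := by
      intro x
      have e : ∑ i, v i * sc D (F i) x = √J * ∑ i, v i * F i (fun k => D k * x k) := by
        rw [Finset.mul_sum]
        refine Finset.sum_congr rfl fun i _ => ?_
        unfold sc
        rw [← hJ]
        ring
      rw [e, mul_pow, Real.sq_sqrt hJ0.le]
    simp only [h2]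
    rw [integral_const_mul, hJ, h1]
    exact hG v
  have hmain := odd_smooth h hκ hS hb0 hb n (fun i => sc D (F i)) (fun i => contDiff_sc D (hF i))
    (fun i => hcs_sc D (fun k => (hD k).ne') (hFc i)) hodd hGram
  rw [← hpdef, ← hm, ← hc] at hmain
  have hρ0 : ∀ x, 0 ≤ ∑ i, F i x ^ 2 := fun x => Finset.sum_nonneg fun i _ => sq_nonneg _
  have hL : ∫ x, (∑ i, sc D (F i) x ^ 2) ^ p =
      (1 + c) ^ (-(m / (m' + 1))) * ∫ x, (∑ i, F i x ^ 2) ^ p := by
    have h1 := int_diag D hD (fun x => (∑ i, F i x ^ 2) ^ p)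
    have h2 : ∀ x, (∑ i, sc D (F i) x ^ 2) ^ p =
        J ^ p * (∑ i, F i (fun k => D k * x k) ^ 2) ^ p := by
      intro x
      rw [← Real.mul_rpow hJ0.le (hρ0 _)]
      congr 1
      rw [Finset.mul_sum]
      refine Finset.sum_congr rfl fun i _ => ?_
      unfold sc
      rw [← hJ, mul_pow, Real.sq_sqrt hJ0.le]
    simp only [h2]
    rw [integral_const_mul, hJp, ← h1, ← hJ]
    ring
  have hI : ∀ k i, Integrable fun x => pd k (sc D (F i)) x ^ 2 := fun k i =>
    int_sq_pd (contDiff_sc D (hF i)) (hcs_sc D (fun k => (hD k).ne') (hFc i)) k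
  have hI' : ∀ k i, Integrable fun x => pd k (F i) x ^ 2 := fun k i =>
    int_sq_pd (hF i) (hFc i) k
  have hR : (∫ x, ∑ k, ∑ i, pd k (sc D (F i)) x ^ 2) +
      c * ∑ k ∈ S, ∑ i, ∫ x, pd k (sc D (F i)) x ^ 2 = ∫ x, ∑ k, ∑ i, pd k (F i) x ^ 2 := by
    rw [integral_finsetSum _ (fun k _ => integrable_finsetSum _ (fun i _ => hI k i)),
      integral_finsetSum _ (fun k _ => integrable_finsetSum _ (fun i _ => hI' k i))]
    have e1 : ∀ k, ∫ x, ∑ i, pd k (sc D (F i)) x ^ 2 = D k ^ 2 * ∑ i, ∫ x, pd k (F i) x ^ 2 := by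
      intro k
      rw [integral_finsetSum _ (fun i _ => hI k i), Finset.mul_sum]
      exact Finset.sum_congr rfl fun i _ => sq_int_pd_sc D hD (hF i) k
    have e2 : ∀ k, ∑ i, ∫ x, pd k (sc D (F i)) x ^ 2 = D k ^ 2 * ∑ i, ∫ x, pd k (F i) x ^ 2 := by
      intro k
      rw [Finset.mul_sum]
      exact Finset.sum_congr rfl fun i _ => sq_int_pd_sc D hD (hF i) k
    have e3 : ∀ k, ∫ x, ∑ i, pd k (F i) x ^ 2 = ∑ i, ∫ x, pd k (F i) x ^ 2 := fun k =>
      integral_finsetSum _ (fun i _ => hI' k i)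
    simp only [e1, e2, e3]
    rw [← Finset.sum_add_sum_compl S, ← Finset.sum_add_sum_compl S
      (fun k => ∑ i, ∫ x, pd k (F i) x ^ 2)]
    have e4 : ∑ k ∈ S, D k ^ 2 * ∑ i, ∫ x, pd k (F i) x ^ 2 =
        μ ^ 2 * ∑ k ∈ S, ∑ i, ∫ x, pd k (F i) x ^ 2 := by
      rw [Finset.mul_sum]
      exact Finset.sum_congr rfl fun k hk => by rw [hDS k hk]
    have e5 : ∑ k ∈ Sᶜ, D k ^ 2 * ∑ i, ∫ x, pd k (F i) x ^ 2 =
        ∑ k ∈ Sᶜ, ∑ i, ∫ x, pd k (F i) x ^ 2 := by
      refine Finset.sum_congr rfl fun k hk => ?_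
      rw [hDn k (Finset.mem_compl.1 hk), one_pow, one_mul]
    rw [e4, e5]
    linear_combination (∑ k ∈ S, ∑ i, ∫ x, pd k (F i) x ^ 2) * hμ2
  rw [hR, hL] at hmain
  calc _ = _ := by ring
    _ ≤ _ := hmain

end Pool.Agent.U327.LT
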