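import Pool.Agent.U327.LT.C7
import Pool.Agent.Helper717.LT.P_H_approx

set_option autoImplicit false

/-!
# From smooth odd systems to odd systems in `H¹`
-/

open MeasureTheory Set Filter Topology Real
open scoped Matrix

namespace Pool.Agent.U327.LT

open LTd

variable {d : ℕ}

/-- the odd part with respect to `sg S` -/
noncomputable def odS (S : Finset (Fin d)) (f : (Fin d → ℝ) → ℝ) (x : Fin d → ℝ) : ℝ :=
  (f x - f (sg S x)) / 2

theorem contDiff_odS (S : Finset (Fin d)) {f : (Fin d → ℝ) → ℝ} (hf : ContDiff ℝ 1 f) :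
    ContDiff ℝ 1 (odS S f) := (hf.sub (contDiff_comp_sg S hf)).div_const 2

theorem hcs_odS (S : Finset (Fin d)) {f : (Fin d → ℝ) → ℝ} (hf : HasCompactSupport f) :
    HasCompactSupport (odS S f) := by
  have h1 : HasCompactSupport (fun x => f x - f (sg S x)) :=
    hf.sub (hf.comp_homeomorph (sgH S))
  exact h1.comp_left (g := fun t : ℝ => t / 2) (by norm_num)

theorem odS_sg (S : Finset (Fin d)) (f : (Fin d → ℝ) → ℝ) (x : Fin d → ℝ) :
    odS S f (sg S x) = - odS S f x := by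
  unfold odS
  rw [sg_sg]
  ring

theorem pd_odS (S : Finset (Fin d)) {f : (Fin d → ℝ) → ℝ} (hf : ContDiff ℝ 1 f) (k : Fin d)
    (x : Fin d → ℝ) :
    pd k (odS S f) x = (pd k f x - (if k ∈ S then -1 else 1) * pd k f (sg S x)) / 2 := by
  have h1 := pd_comp_sg S hf k x
  have h2 : HasFDerivAt (odS S f) ((2:ℝ)⁻¹ • (fderiv ℝ f x - fderiv ℝ (fun x => f (sg S x)) x)) x := by
    have h3 := ((hf.differentiable one_ne_zero x).hasFDerivAt.sub
      ((contDiff_comp_sg S hf).differentiable one_ne_zero x).hasFDerivAt).const_mul (2:ℝ)⁻¹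
    refine h3.congr_of_eventuallyEq (Eventually.of_forall fun y => ?_)
    unfold odS
    simp only [Pi.sub_apply]
    ring
  rw [← h1]
  unfold pd
  rw [h2.fderiv]
  simp only [_root_.smul_apply, _root_.sub_apply, smul_eq_mul]
  ring

theorem int_comp_sg (S : Finset (Fin d)) {f : (Fin d → ℝ) → ℝ} (hf : Integrable f) :
    Integrable fun x => f (sg S x) :=
  ((mp_sg S).integrable_comp_emb (sgH S).measurableEmbedding).2 hf

theorem int_pd_odS_le (S : Finset (Fin d)) {f : (Fin d → ℝ) → ℝ} (hf : ContDiff ℝ 1 f)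
    (hc : HasCompactSupport f) (k : Fin d) :
    ∫ x, pd k (odS S f) x ^ 2 ≤ ∫ x, pd k f x ^ 2 := by
  have hI := int_sq_pd hf hc k
  have hI' : Integrable fun x => pd k f (sg S x) ^ 2 := int_comp_sg S hI
  have h1 : ∫ x, pd k (odS S f) x ^ 2 ≤
      ∫ x, ((1 / 2) * pd k f x ^ 2 + (1 / 2) * pd k f (sg S x) ^ 2) := by
    refine integral_mono_of_nonneg (Eventually.of_forall fun x => sq_nonneg _)
      ((hI.const_mul _).add (hI'.const_mul _)) (Eventually.of_forall fun x => ?_)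
    simp only
    rw [pd_odS S hf]
    by_cases hk : k ∈ S
    · simp only [hk, if_true]
      nlinarith [sq_nonneg (pd k f x - pd k f (sg S x))]
    · simp only [hk, if_false]
      nlinarith [sq_nonneg (pd k f x + pd k f (sg S x))]
  refine h1.trans (le_of_eq ?_)
  rw [integral_add (hI.const_mul _) (hI'.const_mul _), integral_const_mul, integral_const_mul,
    integral_sg S (fun x => pd k f x ^ 2)]
  ring

/-- From systems of functions of class C¹ with compact support to systems in `H¹`. -/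
theorem H_odd {n : ℕ} (S : Finset (Fin d)) {b p : ℝ} (hb : 0 < b) (hp : 0 < p)
    (hsm : ∀ F : Fin n → (Fin d → ℝ) → ℝ, (∀ i, ContDiff ℝ 1 (F i)) →
      (∀ i, HasCompactSupport (F i)) → (∀ i x, F i (sg S x) = - F i x) →
      (∀ v : Fin n → ℝ, ∫ x, (∑ i, v i * F i x) ^ 2 ≤ ∑ i, v i ^ 2) →
      b * ∫ x, (∑ i, F i x ^ 2) ^ p ≤ ∫ x, ∑ k, ∑ i, pd k (F i) x ^ 2)
    (f : Fin n → (Fin d → ℝ) → ℝ)
    (g : Fin n → Fin d → (Fin d → ℝ) → ℝ) (hf : ∀ i, WGrad (f i) (g i))
    (ho : ∀ i, ∀ᵐ x, f i (sg S x) = - f i x)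
    (hG : ∀ v : Fin n → ℝ, ∫ x, (∑ i, v i * f i x) ^ 2 ≤ ∑ i, v i ^ 2) :
    Integrable (fun x => (∑ i, f i x ^ 2) ^ p) ∧
    b * ∫ x, (∑ i, f i x ^ 2) ^ p ≤ ∫ x, ∑ j, ∑ i, g i j x ^ 2 := by
  set E := ∫ x, ∑ j, ∑ i, g i j x ^ 2 with hE
  have hE0 : 0 ≤ E := integral_nonneg fun x =>
    Finset.sum_nonneg fun j _ => Finset.sum_nonneg fun i _ => sq_nonneg _
  obtain ⟨F0, hF01, hF02, hF03, hF04, hF05⟩ := H_approx f g hf
  obtain ⟨F, hFdef⟩ : ∃ F : ℕ → Fin n → (Fin d → ℝ) → ℝ, F = fun k i => odS S (F0 k i) :=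
    ⟨_, rfl⟩
  have hF1 : ∀ k i, ContDiff ℝ 1 (F k i) := fun k i => by
    rw [hFdef]; exact contDiff_odS S (hF01 k i)
  have hF2 : ∀ k i, HasCompactSupport (F k i) := fun k i => by
    rw [hFdef]; exact hcs_odS S (hF02 k i)
  have hFo : ∀ k i x, F k i (sg S x) = - F k i x := fun k i x => by
    rw [hFdef]; exact odS_sg S _ x
  have hF3 : ∀ k (v : Fin n → ℝ), ∫ x, (∑ i, v i * F k i x) ^ 2 ≤ ∑ i, v i ^ 2 := by
    intro k v
    refine le_trans ?_ ((hF03 k v).trans (hG v))
    have hI : Integrable fun x => (∑ i, v i * F0 k i x) ^ 2 := by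
      have hc : Continuous fun x => (∑ i, v i * F0 k i x) ^ 2 :=
        (continuous_finsetSum _ fun i _ => continuous_const.mul (hF01 k i).continuous).pow 2
      exact hc.integrable_of_hasCompactSupport
        (cs_of_zero (hF02 k) _ fun x hx => by simp [hx])
    have hI' : Integrable fun x => (∑ i, v i * F0 k i (sg S x)) ^ 2 :=
      int_comp_sg S hI
    have h1 : ∫ x, (∑ i, v i * F k i x) ^ 2 ≤ ∫ x, ((1 / 2) * (∑ i, v i * F0 k i x) ^ 2 +
        (1 / 2) * (∑ i, v i * F0 k i (sg S x)) ^ 2) := by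
      refine integral_mono_of_nonneg (Eventually.of_forall fun x => sq_nonneg _)
        ((hI.const_mul _).add (hI'.const_mul _)) (Eventually.of_forall fun x => ?_)
      simp only
      have e : ∑ i, v i * F k i x = (∑ i, v i * F0 k i x - ∑ i, v i * F0 k i (sg S x)) / 2 := by
        rw [hFdef, ← Finset.sum_sub_distrib, Finset.sum_div]
        refine Finset.sum_congr rfl fun i _ => ?_
        unfold odS
        ring
      rw [e]
      nlinarith [sq_nonneg (∑ i, v i * F0 k i x + ∑ i, v i * F0 k i (sg S x))]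
    refine h1.trans (le_of_eq ?_)
    rw [integral_add (hI.const_mul _) (hI'.const_mul _), integral_const_mul, integral_const_mul,
      integral_sg S (fun x => (∑ i, v i * F0 k i x) ^ 2)]
    ring
  have hF4 : ∀ᵐ x, ∀ i, Tendsto (fun k => F k i x) atTop (𝓝 (f i x)) := by
    have h1 : ∀ᵐ x, ∀ i, Tendsto (fun k => F0 k i (sg S x)) atTop (𝓝 (f i (sg S x))) :=
      (mp_sg S).quasiMeasurePreserving.ae hF04
    have h2 : ∀ᵐ x, ∀ i, f i (sg S x) = - f i x := ae_all_iff.2 ho
    filter_upwards [hF04, h1, h2] with x hx1 hx2 hx3 i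
    have h4 := ((hx1 i).sub (hx2 i)).div_const 2
    rw [hx3 i] at h4
    have e : (f i x - - f i x) / 2 = f i x := by ring
    rw [e] at h4
    rw [hFdef]
    exact h4
  have hF5 : ∀ k : ℕ, ∫ x, ∑ j, ∑ i, pd j (F k i) x ^ 2 ≤ E + 1 / ((k:ℝ) + 1) := by
    intro k
    refine le_trans ?_ (hF05 k)
    rw [integral_finsetSum _ (fun j _ => integrable_finsetSum _
        (fun i _ => int_sq_pd (hF1 k i) (hF2 k i) j)),
      integral_finsetSum _ (fun j _ => integrable_finsetSum _
        (fun i _ => int_sq_pd (hF01 k i) (hF02 k i) j))]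
    refine Finset.sum_le_sum fun j _ => ?_
    rw [integral_finsetSum _ (fun i _ => int_sq_pd (hF1 k i) (hF2 k i) j),
      integral_finsetSum _ (fun i _ => int_sq_pd (hF01 k i) (hF02 k i) j)]
    refine Finset.sum_le_sum fun i _ => ?_
    rw [hFdef]
    exact int_pd_odS_le S (hF01 k i) (hF02 k i) j
  have hcont : ∀ k, Continuous fun x => (∑ i, F k i x ^ 2) ^ p := by
    intro k
    refine Continuous.rpow_const ?_ (fun x => Or.inr hp.le)
    exact continuous_finsetSum _ fun i _ => ((hF1 k i).continuous.pow 2)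
  have hint : ∀ k, Integrable fun x => (∑ i, F k i x ^ 2) ^ p := fun k =>
    (hcont k).integrable_of_hasCompactSupport (cs_of_zero (hF2 k) _ fun x hx => by
      simp [hx, Real.zero_rpow hp.ne'])
  have hnn : ∀ k x, 0 ≤ (∑ i, F k i x ^ 2) ^ p := fun k x =>
    Real.rpow_nonneg (Finset.sum_nonneg fun i _ => sq_nonneg _) _
  have hnn' : ∀ x, 0 ≤ (∑ i, f i x ^ 2) ^ p := fun x =>
    Real.rpow_nonneg (Finset.sum_nonneg fun i _ => sq_nonneg _) _
  have hbound : ∀ k : ℕ, ∫ x, (∑ i, F k i x ^ 2) ^ p ≤ (E + 1 / ((k:ℝ) + 1)) / b := by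
    intro k
    rw [le_div_iff₀' hb]
    exact (hsm (F k) (hF1 k) (hF2 k) (hFo k) (hF3 k)).trans (hF5 k)
  have hlim : ∀ᵐ x, Tendsto (fun k => (∑ i, F k i x ^ 2) ^ p) atTop (𝓝 ((∑ i, f i x ^ 2) ^ p)) := by
    filter_upwards [hF4] with x hx
    exact (tendsto_finsetSum _ fun i _ => (hx i).pow 2).rpow_const (Or.inr hp.le)
  have haesm : AEStronglyMeasurable (fun x => (∑ i, f i x ^ 2) ^ p) volume :=
    aestronglyMeasurable_of_tendsto_ae atTop (fun k => (hint k).aestronglyMeasurable) hlim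
  have hfatou : ∫⁻ x, ENNReal.ofReal ((∑ i, f i x ^ 2) ^ p) ≤ ENNReal.ofReal (E / b) := by
    calc ∫⁻ x, ENNReal.ofReal ((∑ i, f i x ^ 2) ^ p)
        = ∫⁻ x, liminf (fun k => ENNReal.ofReal ((∑ i, F k i x ^ 2) ^ p)) atTop := by
          apply lintegral_congr_ae
          filter_upwards [hlim] with x hx
          exact ((ENNReal.continuous_ofReal.tendsto _).comp hx).liminf_eq.symm
      _ ≤ liminf (fun k => ∫⁻ x, ENNReal.ofReal ((∑ i, F k i x ^ 2) ^ p)) atTop :=
          lintegral_liminf_le' fun k => (hcont k).measurable.ennreal_ofReal.aemeasurable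
      _ ≤ liminf (fun k : ℕ => ENNReal.ofReal ((E + 1 / ((k:ℝ) + 1)) / b)) atTop := by
          refine liminf_le_liminf (Eventually.of_forall fun k => ?_)
          change ∫⁻ x, ENNReal.ofReal ((∑ i, F k i x ^ 2) ^ p) ≤ _
          rw [← ofReal_integral_eq_lintegral_ofReal (hint k) (Eventually.of_forall (hnn k))]
          exact ENNReal.ofReal_le_ofReal (hbound k)
      _ = ENNReal.ofReal (E / b) := by
          apply Tendsto.liminf_eq
          apply (ENNReal.continuous_ofReal.tendsto _).comp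
          have h1 : Tendsto (fun k : ℕ => (E + 1 / ((k:ℝ) + 1)) / b) atTop (𝓝 ((E + 0) / b)) :=
            (tendsto_one_div_add_atTop_nhds_zero_nat.const_add E).div_const b
          rwa [add_zero] at h1
  have hI : Integrable (fun x => (∑ i, f i x ^ 2) ^ p) := by
    refine ⟨haesm, ?_⟩
    rw [hasFiniteIntegral_iff_ofReal (Eventually.of_forall hnn')]
    exact lt_of_le_of_lt hfatou ENNReal.ofReal_lt_top
  refine ⟨hI, ?_⟩
  rw [← le_div_iff₀' hb, integral_eq_lintegral_of_nonneg_ae (Eventually.of_forall hnn') haesm]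
  exact ENNReal.toReal_le_of_le_ofReal (by positivity) hfatou

end Pool.Agent.U327.LT
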