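import Pool.Agent.U327.LT.C8
import Pool.Agent.Helper717.LT.P_final_thm
import Pool.Agent.Helper717.LT.P_bco_pos

set_option autoImplicit false

/-!
# The inequality for complex orthonormal systems which are odd in the variables of `S`
-/

open MeasureTheory Set Filter Topology Real
open scoped Matrix

namespace Pool.Agent.U327.LT

open LTd

theorem s_bounds {b : ℝ} (hb0 : 0 < b) (hb : b < 1 / 2) :
    0 < 2 * √(b * (1 - b)) ∧ 2 * √(b * (1 - b)) < 1 := by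
  have h1 : 0 < b * (1 - b) := mul_pos hb0 (by linarith)
  refine ⟨by positivity, ?_⟩
  have h2 : b * (1 - b) < (1 / 2) ^ 2 := by nlinarith [sq_nonneg (b - 1 / 2), mul_pos (sub_pos.2 hb) (sub_pos.2 hb)]
  have h3 : √(b * (1 - b)) < 1 / 2 := (Real.sqrt_lt' (by norm_num)).2 h2
  linarith

theorem odd_complex (d : ℕ) (hd : 1 ≤ d) (S : Finset (Fin d)) (hS : 0 < S.card) {b : ℝ}
    (hb0 : 0 < b) (hb : b < 1 / 2) (N : ℕ) (u : Fin N → (Fin d → ℝ) → ℂ)
    (g : Fin N → Fin d → (Fin d → ℝ) → ℂ) (hu : ∀ i, WGradC (u i) (g i))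
    (ho : ∀ i j, ∫ x, (starRingEnd ℂ) (u i x) * u j x = if i = j then 1 else 0)
    (hodd : ∀ i, ∀ᵐ x, u i (sg S x) = - u i x) :
    Integrable (fun x => (∑ i, ‖u i x‖ ^ 2) ^ (1 + 2 / (d:ℝ))) ∧
    (3 / 4 : ℝ) ^ (1 / (d:ℝ)) * Kcl d *
      (((1 + 2 * √(b * (1 - b))) ^ (1 + 2 / (d:ℝ)) +
          (1 - 2 * √(b * (1 - b))) ^ (1 + 2 / (d:ℝ))) / 2) *
      (1 + 4 * (S.card - 1) * b / S.card ^ 2) ^ (-((S.card : ℝ) / d)) *
      ∫ x, (∑ i, ‖u i x‖ ^ 2) ^ (1 + 2 / (d:ℝ)) ≤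
      ∑ i, ∑ k, ∫ x, ‖g i k x‖ ^ 2 := by
  obtain ⟨m, rfl⟩ : ∃ m, d = m + 1 := ⟨d - 1, by omega⟩
  have hsq : ∀ z : ℂ, ‖z‖ ^ 2 = z.re ^ 2 + z.im ^ 2 := by
    intro z
    rw [Complex.sq_norm, Complex.normSq_apply]; ring
  let F : Fin (N + N) → (Fin (m + 1) → ℝ) → ℝ :=
    Fin.append (fun i x => (u i x).re) (fun i x => (u i x).im)
  let G : Fin (N + N) → Fin (m + 1) → (Fin (m + 1) → ℝ) → ℝ :=
    Fin.append (fun i k x => (g i k x).re) (fun i k x => (g i k x).im)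
  have hFl : ∀ i, F (Fin.castAdd N i) = fun x => (u i x).re := fun i => Fin.append_left _ _ i
  have hFr : ∀ i, F (Fin.natAdd N i) = fun x => (u i x).im := fun i => Fin.append_right _ _ i
  have hGl : ∀ i, G (Fin.castAdd N i) = fun k x => (g i k x).re := fun i => Fin.append_left _ _ i
  have hGr : ∀ i, G (Fin.natAdd N i) = fun k x => (g i k x).im := fun i => Fin.append_right _ _ i
  have hW : ∀ i, WGrad (F i) (G i) := by
    intro i
    refine Fin.addCases (fun i => ?_) (fun i => ?_) i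
    · rw [hFl, hGl]
      exact (split_complex (hu i)).1
    · rw [hFr, hGr]
      exact (split_complex (hu i)).2
  have hFodd : ∀ i, ∀ᵐ x, F i (sg S x) = - F i x := by
    intro i
    refine Fin.addCases (fun i => ?_) (fun i => ?_) i
    · rw [hFl]
      filter_upwards [hodd i] with x hx
      rw [hx, Complex.neg_re]
    · rw [hFr]
      filter_upwards [hodd i] with x hx
      rw [hx, Complex.neg_im]
  have hG : ∀ v : Fin (N + N) → ℝ, ∫ x, (∑ i, v i * F i x) ^ 2 ≤ ∑ i, v i ^ 2 := by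
    intro v
    have h1 := gram_complex u (fun i => (hu i).f2) ho (fun i => v (Fin.castAdd N i))
      (fun i => v (Fin.natAdd N i))
    have h2 : ∀ x, ∑ i, v i * F i x = ∑ i : Fin N, (v (Fin.castAdd N i) * (u i x).re +
        v (Fin.natAdd N i) * (u i x).im) := by
      intro x
      rw [Fin.sum_univ_add, Finset.sum_add_distrib]
      simp only [hFl, hFr]
    have h3 : ∑ i, v i ^ 2 = ∑ i : Fin N, (v (Fin.castAdd N i) ^ 2 + v (Fin.natAdd N i) ^ 2) := by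
      rw [Fin.sum_univ_add, Finset.sum_add_distrib]
    simp only [h2]
    rw [h3]
    exact h1
  obtain ⟨hs0, hs1⟩ := s_bounds hb0 hb
  have hm1 : (1:ℝ) ≤ (S.card : ℝ) := by exact_mod_cast hS
  have hc : 0 < 1 + 4 * ((S.card : ℝ) - 1) * b / (S.card : ℝ) ^ 2 := by
    have : 0 ≤ (S.card : ℝ) - 1 := by linarith
    positivity
  have hbco : 0 < bco ((m:ℝ) / 2) (3 / 2) (π ^ 2 / 4) :=
    bco_pos (by positivity) (by norm_num) (by positivity)
  have hκ : 0 < ((1 + 2 * √(b * (1 - b))) ^ pp (3 / 2 + (m:ℝ) / 2) +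
      (1 - 2 * √(b * (1 - b))) ^ pp (3 / 2 + (m:ℝ) / 2)) / 2 := by
    have h1 : 0 < (1 + 2 * √(b * (1 - b))) ^ pp (3 / 2 + (m:ℝ) / 2) :=
      Real.rpow_pos_of_pos (by linarith) _
    have h2 : 0 < (1 - 2 * √(b * (1 - b))) ^ pp (3 / 2 + (m:ℝ) / 2) :=
      Real.rpow_pos_of_pos (by linarith) _
    positivity
  have hK := mul_pos (mul_pos hbco hκ) (Real.rpow_pos_of_pos hc (-((S.card : ℝ) / ((m:ℝ) + 1))))
  have hH := H_odd S hK (pp_pos m) (fun F h1 h2 h3 h4 => odd_scaled hS hb0 hb (N + N) F h1 h2 h3 h4)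
    F G hW hFodd hG
  have hFs : ∀ x, ∑ i, F i x ^ 2 = ∑ i, ‖u i x‖ ^ 2 := by
    intro x
    rw [Fin.sum_univ_add, ← Finset.sum_add_distrib]
    simp only [hFl, hFr, hsq]
  have hGs : ∀ x, ∑ j, ∑ i, G i j x ^ 2 = ∑ i, ∑ j, ‖g i j x‖ ^ 2 := by
    intro x
    rw [Finset.sum_comm, Fin.sum_univ_add, ← Finset.sum_add_distrib]
    refine Finset.sum_congr rfl fun i _ => ?_
    rw [← Finset.sum_add_distrib]
    simp only [hGl, hGr, hsq]
  simp only [hFs, hGs, const_final, final_thm_pp] at hH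
  refine ⟨hH.1, ?_⟩
  have hI : ∀ i k, Integrable (fun x => ‖g i k x‖ ^ 2) := by
    intro i k
    have := (hu i).g2 k
    exact this.integrable_norm_pow two_ne_zero
  have hint : ∫ x, ∑ i, ∑ j, ‖g i j x‖ ^ 2 = ∑ i, ∑ k, ∫ x, ‖g i k x‖ ^ 2 := by
    rw [integral_finset_sum _ (fun i _ => integrable_finset_sum _ (fun k _ => hI i k))]
    refine Finset.sum_congr rfl fun i _ => ?_
    rw [integral_finset_sum _ (fun k _ => hI i k)]
  rw [hint] at hH
  have h5 := hH.2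
  have h6 : ((m + 1 : ℕ) : ℝ) = (m : ℝ) + 1 := by push_cast; ring
  rw [h6] at h5 ⊢
  exact h5

end Pool.Agent.U327.LT
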