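import Pool.Agent.Helper717.LT.P_core
import Pool.Agent.Helper717.LT.P_H_approx

set_option autoImplicit false

/-!
# The Lieb-Thirring kinetic inequality for vector valued functions (smooth, compact support)
-/

open MeasureTheory Set Filter Topology Real
open scoped Matrix

namespace Pool.Agent.U327.LT

open LTd

/-- `φ` is at most the trace of the power `p` of the Gram matrix of the vectors `w i`. -/
def Spec {ι : Type} [Fintype ι] {n : ℕ} (w : Fin n → ι → ℝ) (p φ : ℝ) : Prop :=
  ∀ (V : Mat n) (r : Fin n → ℝ), V * Vᵀ = 1 → Vᵀ * V = 1 → (∀ i, 0 ≤ r i) →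
    (Matrix.of fun i j => ∑ c, w i c * w j c : Mat n) = V * Matrix.diagonal r * Vᵀ →
    φ ≤ ∑ i, r i ^ p

/-- The semiclassical inequality for vector valued functions. -/
def TV (ι : Type) [Fintype ι] (m : ℕ) (g : ℝ) : Prop :=
  ∀ (a : ℝ), 0 < a → ∀ (n : ℕ) (w : Fin n → ι → (Fin m → ℝ) → ℝ) (l : Fin n → ℝ)
    (Φ : (Fin m → ℝ) → ℝ),
    (∀ i c, ContDiff ℝ 1 (w i c)) → (∀ i c, HasCompactSupport (w i c)) →
    (∀ i, 0 ≤ l i) →
    (∀ i j, ∫ x, ∑ c, w i c x * w j c x = if i = j then l i else 0) →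
    Continuous Φ → HasCompactSupport Φ →
    (∀ x, Spec (fun i c => w i c x) (pp (g + m / 2)) (Φ x)) →
    bco (m / 2) g a * ∫ x, Φ x ≤
      (∫ x, ∑ k, ∑ i, ∑ c, pd k (w i c) x ^ 2) + a * ∑ i, l i ^ pp g

variable {ι : Type} [Fintype ι]

theorem TV_zero {g : ℝ} (hg : 1 < g) : TV ι 0 g := by
  intro a ha n w l Φ hw hwc hl0 hwl hΦ hΦc hS
  have key : ∀ f : (Fin 0 → ℝ) → ℝ, ∫ x, f x = f default := by
    intro f
    rw [MeasureTheory.Measure.volume_pi_eq_dirac (default : Fin 0 → ℝ), integral_dirac]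
  have hpe : pp (g + ((0:ℕ):ℝ) / 2) = pp g := by simp
  rw [T_zero_bco hg ha, key, key]
  have h0 : (∑ k : Fin 0, ∑ i, ∑ c, pd k (w i c) default ^ 2) = 0 := by simp
  rw [h0, zero_add]
  refine mul_le_mul_of_nonneg_left ?_ ha.le
  have h1 := hS default 1 l (by simp) (by simp) hl0 (by
    ext i j
    have := hwl i j
    rw [key] at this
    rw [Matrix.of_apply, this, Matrix.transpose_one, Matrix.mul_one, Matrix.one_mul,
      Matrix.diagonal_apply])
  rw [hpe] at h1
  exact h1

theorem rot_sum {n : ℕ} (V : Mat n) (hV : V * Vᵀ = 1) (f : Fin n → ι → ℝ) :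
    ∑ i, ∑ c, (∑ j, V j i * f j c) ^ 2 = ∑ j, ∑ c, f j c ^ 2 := by
  rw [Finset.sum_comm, Finset.sum_comm (f := fun j c => f j c ^ 2)]
  exact Finset.sum_congr rfl fun c _ => tsl_rot V hV fun j => f j c

theorem gram_rot {n : ℕ} (V : Mat n) (w : Fin n → ι → ℝ) :
    (Matrix.of fun i j => ∑ c, (∑ p, V p i * w p c) * (∑ q, V q j * w q c) : Mat n) =
      Vᵀ * (Matrix.of fun i j => ∑ c, w i c * w j c : Mat n) * V := by
  ext i j
  rw [Matrix.of_apply, Matrix.mul_apply]
  simp only [Matrix.mul_apply, Matrix.transpose_apply, Matrix.of_apply]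
  have h1 : ∀ c, (∑ p, V p i * w p c) * (∑ q, V q j * w q c) =
      ∑ q, ∑ p, V p i * (w p c * w q c) * V q j := by
    intro c
    rw [Finset.mul_sum]
    refine Finset.sum_congr rfl fun q _ => ?_
    rw [Finset.sum_mul]
    refine Finset.sum_congr rfl fun p _ => ?_
    ring
  rw [Finset.sum_congr rfl fun c _ => h1 c, Finset.sum_comm]
  refine Finset.sum_congr rfl fun q _ => ?_
  rw [Finset.sum_comm, Finset.sum_mul]
  refine Finset.sum_congr rfl fun p _ => ?_
  rw [Finset.mul_sum, Finset.sum_mul]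

theorem spec_rot {n : ℕ} (V : Mat n) (hV : V * Vᵀ = 1) (hV' : Vᵀ * V = 1) {w : Fin n → ι → ℝ}
    {p φ : ℝ} (h : Spec w p φ) : Spec (fun i c => ∑ j, V j i * w j c) p φ := by
  intro U s hU hU' hs hG
  rw [gram_rot V w] at hG
  refine h (V * U) s ?_ ?_ hs ?_
  · rw [Matrix.transpose_mul]
    calc V * U * (Uᵀ * Vᵀ) = V * (U * Uᵀ) * Vᵀ := by simp only [Matrix.mul_assoc]
      _ = 1 := by rw [hU, Matrix.mul_one, hV]
  · rw [Matrix.transpose_mul]
    calc Uᵀ * Vᵀ * (V * U) = Uᵀ * (Vᵀ * V) * U := by simp only [Matrix.mul_assoc]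
      _ = 1 := by rw [hV', Matrix.mul_one, hU']
  · rw [Matrix.transpose_mul]
    calc (Matrix.of fun i j => ∑ c, w i c * w j c : Mat n)
        = (V * Vᵀ) * (Matrix.of fun i j => ∑ c, w i c * w j c : Mat n) * (V * Vᵀ) := by
          rw [hV, Matrix.one_mul, Matrix.mul_one]
      _ = V * (Vᵀ * (Matrix.of fun i j => ∑ c, w i c * w j c : Mat n) * V) * Vᵀ := by
          simp only [Matrix.mul_assoc]
      _ = V * (U * Matrix.diagonal s * Uᵀ) * Vᵀ := by rw [hG]
      _ = _ := by simp only [Matrix.mul_assoc]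

theorem TV_slice {m n : ℕ} {g a : ℝ} (ha : 0 < a) (hT : TV ι m g)
    (w : Fin n → ι → (Fin m → ℝ) → ℝ) (hw : ∀ i c, ContDiff ℝ 1 (w i c))
    (hc : ∀ i c, HasCompactSupport (w i c)) (Φ : (Fin m → ℝ) → ℝ) (hΦ : Continuous Φ)
    (hΦc : HasCompactSupport Φ)
    (hS : ∀ x, Spec (fun i c => w i c x) (pp (g + m / 2)) (Φ x))
    (V : Mat n) (r : Fin n → ℝ) (hV : V * Vᵀ = 1)
    (hV' : Vᵀ * V = 1) (hr : ∀ i, 0 ≤ r i)
    (hR : (Matrix.of fun i j => ∫ x, ∑ c, w i c x * w j c x : Mat n) =
      V * Matrix.diagonal r * Vᵀ) :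
    bco (m / 2) g a * ∫ x, Φ x ≤
      (∫ x, ∑ k, ∑ i, ∑ c, pd k (w i c) x ^ 2) + a * ∑ i, r i ^ pp g := by
  have h1 := hT a ha n (fun i c x => ∑ j, V j i * w j c x) r Φ
    (fun i c => ContDiff.sum fun j _ => contDiff_const.mul (hw j c)) (by
      intro i c
      apply HasCompactSupport.intro (K := ⋃ j, tsupport (w j c)) (isCompact_iUnion fun j => hc j c)
      intro x hx
      rw [Set.mem_iUnion, not_exists] at hx
      apply Finset.sum_eq_zero
      intro j _
      rw [image_eq_zero_of_notMem_tsupport (hx j), mul_zero]) hr (by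
      intro i j
      have hint : ∀ p q : Fin n, Integrable (fun x => ∑ c, w p c x * w q c x) := by
        intro p q
        refine integrable_finsetSum _ fun c _ => ?_
        apply Continuous.integrable_of_hasCompactSupport
        · exact (hw p c).continuous.mul (hw q c).continuous
        · exact (hc p c).mul_right
      have h2 : (fun x => ∑ c, (∑ p, V p i * w p c x) * (∑ q, V q j * w q c x)) =
          fun x => ∑ p, ∑ q, (V p i * V q j) * (∑ c, w p c x * w q c x) := by
        funext x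
        have e := congrFun (congrFun (congrArg (fun M : Mat n => (M : Fin n → Fin n → ℝ))
          (gram_rot V fun i c => w i c x)) i) j
        simp only [Matrix.of_apply, Matrix.mul_apply, Matrix.transpose_apply] at e
        rw [e, Finset.sum_comm]
        refine Finset.sum_congr rfl fun q _ => ?_
        rw [Finset.sum_mul]
        refine Finset.sum_congr rfl fun p _ => ?_
        ring
      show ∫ x, ∑ c, (∑ p, V p i * w p c x) * (∑ q, V q j * w q c x) = _
      rw [h2, integral_finsetSum]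
      · have h3 : ∀ p ∈ (Finset.univ : Finset (Fin n)),
            ∫ x, ∑ q, (V p i * V q j) * (∑ c, w p c x * w q c x) =
            ∑ q, (V p i * V q j) *
              (Matrix.of fun i j => ∫ x, ∑ c, w i c x * w j c x : Mat n) p q := by
          intro p _
          rw [integral_finsetSum]
          · apply Finset.sum_congr rfl
            intro q _
            rw [integral_const_mul]
            rfl
          · intro q _
            exact (hint p q).const_mul _
        rw [Finset.sum_congr rfl h3, hR]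
        have h4 : Vᵀ * (V * Matrix.diagonal r * Vᵀ) * V = Matrix.diagonal r := by
          rw [← Matrix.mul_assoc, ← Matrix.mul_assoc, hV', Matrix.one_mul, Matrix.mul_assoc, hV',
            Matrix.mul_one]
        have h5 : (Vᵀ * (V * Matrix.diagonal r * Vᵀ) * V) i j =
            ∑ p, ∑ q, (V p i * V q j) * (V * Matrix.diagonal r * Vᵀ) p q := by
          rw [Matrix.mul_apply, Finset.sum_comm]
          apply Finset.sum_congr rfl
          intro q _
          rw [Matrix.mul_apply, Finset.sum_mul]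
          apply Finset.sum_congr rfl
          intro p _
          rw [Matrix.transpose_apply]
          ring
        rw [← h5, h4, Matrix.diagonal_apply]
      · intro p _
        apply integrable_finsetSum
        intro q _
        exact (hint p q).const_mul _) hΦ hΦc (fun x => spec_rot V hV hV' (hS x))
  have h3 : ∀ x, ∑ k, ∑ i, ∑ c, pd k (fun y => ∑ j, V j i * w j c y) x ^ 2 =
      ∑ k, ∑ i, ∑ c, pd k (w i c) x ^ 2 := by
    intro x
    apply Finset.sum_congr rfl
    intro k _
    rw [← rot_sum V hV (fun j c => pd k (w j c) x)]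
    refine Finset.sum_congr rfl fun i _ => Finset.sum_congr rfl fun c _ => ?_
    rw [pd_sum (fun j => w j c) (fun j => hw j c) (fun j => V j i) k x]
  simp only [h3] at h1
  exact h1

theorem sys_sum {n : ℕ} {R S Q : ι → ℝ → Mat n} (h : ∀ c, Sys (R c) (S c) (Q c)) :
    Sys (fun x => ∑ c, R c x) (fun x => ∑ c, S c x) (fun x => ∑ c, Q c x) := by
  refine ⟨?_, ?_, ?_, ?_, ?_, ?_⟩
  · intro x i j
    simp only [Matrix.sum_apply]
    exact Finset.sum_congr rfl fun c _ => (h c).symR x i j
  · intro x i j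
    simp only [Matrix.sum_apply]
    rw [← Finset.sum_add_distrib]
    exact HasDerivAt.fun_sum fun c _ => (h c).der x i j
  · intro i j
    simp only [Matrix.sum_apply]
    exact continuous_finsetSum _ fun c _ => (h c).cS i j
  · intro i j
    simp only [Matrix.sum_apply]
    exact continuous_finsetSum _ fun c _ => (h c).cQ i j
  · choose M hM using fun c => (h c).supp
    refine ⟨∑ c, |M c|, fun x hx => ?_⟩
    have h1 : ∀ c, M c < |x| := fun c =>
      lt_of_le_of_lt ((le_abs_self _).trans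
        (Finset.single_le_sum (f := fun c => |M c|) (fun c _ => abs_nonneg _)
          (Finset.mem_univ c))) hx
    refine ⟨Finset.sum_eq_zero fun c _ => (hM c x (h1 c)).1,
      Finset.sum_eq_zero fun c _ => (hM c x (h1 c)).2.1,
      Finset.sum_eq_zero fun c _ => (hM c x (h1 c)).2.2⟩
  · intro x X Y
    have e : (X * (∑ c, Q c x) * Xᵀ).trace - 2 * (X * (∑ c, S c x) * Yᵀ).trace +
        (Y * (∑ c, R c x) * Yᵀ).trace =
        ∑ c, ((X * Q c x * Xᵀ).trace - 2 * (X * S c x * Yᵀ).trace +
          (Y * R c x * Yᵀ).trace) := by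
      rw [Finset.mul_sum, Finset.mul_sum, Finset.mul_sum, Finset.sum_mul, Finset.sum_mul,
        Finset.sum_mul, Matrix.trace_sum, Matrix.trace_sum, Matrix.trace_sum, Finset.mul_sum,
        Finset.sum_add_distrib, Finset.sum_sub_distrib]
    rw [e]
    exact Finset.sum_nonneg fun c _ => (h c).key x X Y

theorem TV_succ {m : ℕ} {g : ℝ} (hg : 3 / 2 ≤ g) (hT : TV ι m (g + 1 / 2)) :
    TV ι (m + 1) g := by
  intro a ha n w l Φ hw hc hl0 hgram hΦ hΦc hS
  have hwc : ∀ i c, Continuous (w i c) := fun i c => (hw i c).continuous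
  have hm0 : (0 : ℝ) ≤ (m : ℝ) := Nat.cast_nonneg m
  have hsys := sys_sum fun c => slice_sys (fun i => w i c) (fun i => hw i c) (fun i => hc i c)
  have hcw2 : ∀ i j c, HasCompactSupport (fun z => w i c z * w j c z) := fun i j c =>
    (hc i c).mul_right (f' := w j c)
  have hRint : ∀ c i j, Integrable (fun x : ℝ => RS (fun i => w i c) x i j) := by
    intro c i j
    exact ts_slice_integrable (f := fun z => w i c z * w j c z)
      ((hwc i c).mul (hwc j c)) (hcw2 i j c)
  have hTot : Tot (fun x => ∑ c, RS (fun i => w i c) x) = Matrix.diagonal l := by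
    ext i j
    have h1 : ∀ c, ∫ z, w i c z * w j c z = ∫ x : ℝ, RS (fun i => w i c) x i j := fun c =>
      slice_int (f := fun z => w i c z * w j c z) ((hwc i c).mul (hwc j c)) (hcw2 i j c)
    have h2 : Tot (fun x => ∑ c, RS (fun i => w i c) x) i j =
        ∫ x, ∑ c, RS (fun i => w i c) x i j := by
      unfold Tot
      rw [Matrix.of_apply]
      refine integral_congr_ae (Eventually.of_forall fun x => ?_)
      simp only [Matrix.sum_apply]
    have hI : ∀ c, Integrable (fun z => w i c z * w j c z) := fun c =>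
      ((hwc i c).mul (hwc j c)).integrable_of_hasCompactSupport (hcw2 i j c)
    rw [h2, integral_finsetSum _ fun c _ => hRint c i j,
      ← Finset.sum_congr rfl fun c _ => h1 c, ← integral_finsetSum _ fun c _ => hI c, hgram i j,
      Matrix.diagonal_apply]
  obtain ⟨G, hGc, hGs, hG1, hG2⟩ := blockC hsys l hTot hg ha
  have ha' : 0 < bco (1 / 2) g a := bco_pos (by norm_num) (by linarith) ha
  have hpd : ∀ (k : Fin (m + 1)) (i : Fin n) (c : ι), Continuous (pd k (w i c)) ∧
      HasCompactSupport (pd k (w i c)) := fun k i c => pd_basic (hw i c) (hc i c) k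
  have hsqc : ∀ (k : Fin (m + 1)) (i : Fin n) (c : ι), Continuous (fun z => pd k (w i c) z ^ 2) :=
    fun k i c => (hpd k i c).1.pow 2
  have hsqs : ∀ (k : Fin (m + 1)) (i : Fin n) (c : ι),
      HasCompactSupport (fun z => pd k (w i c) z ^ 2) :=
    fun k i c => (hpd k i c).2.comp_left (g := fun t : ℝ => t ^ 2) (by norm_num)
  have hsqi : ∀ (k : Fin (m + 1)) (i : Fin n) (c : ι), Integrable (fun z => pd k (w i c) z ^ 2) :=
    fun k i c => (hsqc k i c).integrable_of_hasCompactSupport (hsqs k i c)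
  have hexp : g + 1 / 2 + (m : ℝ) / 2 = g + ((m + 1 : ℕ) : ℝ) / 2 := by
    push_cast
    ring
  -- the gradient part
  have hDc : Continuous (fun z => ∑ k : Fin m, ∑ i, ∑ c, pd k.succ (w i c) z ^ 2) :=
    continuous_finsetSum _ fun k _ => continuous_finsetSum _ fun i _ =>
      continuous_finsetSum _ fun c _ => hsqc k.succ i c
  have hDs : HasCompactSupport (fun z => ∑ k : Fin m, ∑ i, ∑ c, pd k.succ (w i c) z ^ 2) := by
    refine cs_fam' (ι := Fin m × Fin n × ι) (fun q z => pd q.1.succ (w q.2.1 q.2.2) z ^ 2)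
      (fun q => hsqs q.1.succ q.2.1 q.2.2) _ fun z hz => ?_
    refine Finset.sum_eq_zero fun k _ => Finset.sum_eq_zero fun i _ =>
      Finset.sum_eq_zero fun c _ => hz (k, i, c)
  -- pointwise inequality
  have hpoint : ∀ x : ℝ, bco (((m + 1 : ℕ) : ℝ) / 2) g a *
      (∫ y : Fin m → ℝ, Φ (Fin.cons x y : Fin (m + 1) → ℝ)) ≤
      (∫ y : Fin m → ℝ, ∑ k : Fin m, ∑ i, ∑ c,
        pd k.succ (w i c) (Fin.cons x y : Fin (m + 1) → ℝ) ^ 2) + G x := by
    intro x
    obtain ⟨V, r, hV, hV', hr, hR⟩ := specP (sys_psd hsys x)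
    have hR' : (Matrix.of fun i j => ∫ y : Fin m → ℝ, ∑ c,
        w i c (Fin.cons x y : Fin (m + 1) → ℝ) * w j c (Fin.cons x y : Fin (m + 1) → ℝ) : Mat n) =
        V * Matrix.diagonal r * Vᵀ := by
      rw [← hR]
      ext i j
      rw [Matrix.of_apply, Matrix.sum_apply, integral_finsetSum]
      · rfl
      · intro c _
        have := slice_cont (f := fun z => w i c z * w j c z) ((hwc i c).mul (hwc j c))
          (hcw2 i j c)
        exact (this.2.1 x).integrable_of_hasCompactSupport (this.2.2.1 x)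
    have h1 := TV_slice ha' hT (fun i c (y : Fin m → ℝ) => w i c (Fin.cons x y : Fin (m + 1) → ℝ))
      (fun i c => (slice_pd (hw i c) x).1) (fun i c => (slice_cont (hwc i c) (hc i c)).2.2.1 x)
      (fun y => Φ (Fin.cons x y : Fin (m + 1) → ℝ)) ((slice_cont hΦ hΦc).2.1 x)
      ((slice_cont hΦ hΦc).2.2.1 x) (fun y => by rw [hexp]; exact hS _) V r hV hV' hr hR'
    have h2 := hG1 x V r hV hV' hr hR
    have h3 : ∀ (k : Fin m) (i : Fin n) (c : ι) (y : Fin m → ℝ),
        pd k (fun y : Fin m → ℝ => w i c (Fin.cons x y : Fin (m + 1) → ℝ)) y =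
          pd k.succ (w i c) (Fin.cons x y : Fin (m + 1) → ℝ) := fun k i c y =>
      (slice_pd (hw i c) x).2 k y
    simp only [h3] at h1
    rw [bco_succ m hg ha] at h1
    linarith
  -- integrate
  have hint := integral_mono
    ((ts_slice_integrable hΦ hΦc).const_mul (bco (((m + 1 : ℕ) : ℝ) / 2) g a))
    ((ts_slice_integrable hDc hDs).add (hGc.integrable_of_hasCompactSupport hGs)) hpoint
  rw [integral_const_mul, ← slice_int hΦ hΦc] at hint
  have hadd : ∫ x : ℝ, ((fun x : ℝ => ∫ y : Fin m → ℝ,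
      ∑ k : Fin m, ∑ i, ∑ c, pd k.succ (w i c) (Fin.cons x y : Fin (m + 1) → ℝ) ^ 2) + G) x =
      (∫ z, ∑ k : Fin m, ∑ i, ∑ c, pd k.succ (w i c) z ^ 2) + ∫ x, G x := by
    rw [slice_int hDc hDs]
    exact integral_add (ts_slice_integrable hDc hDs) (hGc.integrable_of_hasCompactSupport hGs)
  have htr : ∫ x, (∑ c, QS (fun i => w i c) x).trace = ∫ z, ∑ i, ∑ c, pd 0 (w i c) z ^ 2 := by
    rw [integral_finsetSum _ (fun i _ => integrable_finsetSum _ fun c _ => hsqi 0 i c)]
    have h4 : ∀ x, (∑ c, QS (fun i => w i c) x).trace = ∑ i, ∑ c, ∫ y : Fin m → ℝ,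
        pd 0 (w i c) (Fin.cons x y : Fin (m + 1) → ℝ) ^ 2 := by
      intro x
      unfold Matrix.trace
      refine Finset.sum_congr rfl fun i _ => ?_
      simp only [Matrix.diag_apply, Matrix.sum_apply, QS, Matrix.of_apply, ← sq]
    simp_rw [h4]
    rw [integral_finsetSum _ (fun i _ => integrable_finsetSum _ fun c _ =>
      ts_slice_integrable (hsqc 0 i c) (hsqs 0 i c))]
    refine Finset.sum_congr rfl fun i _ => ?_
    rw [integral_finsetSum _ (fun c _ => ts_slice_integrable (hsqc 0 i c) (hsqs 0 i c)),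
      integral_finsetSum _ (fun c _ => hsqi 0 i c)]
    refine Finset.sum_congr rfl fun c _ => ?_
    exact (slice_int (hsqc 0 i c) (hsqs 0 i c)).symm
  have hsplit : ∫ z, ∑ k : Fin (m + 1), ∑ i, ∑ c, pd k (w i c) z ^ 2 =
      (∫ z, ∑ i, ∑ c, pd 0 (w i c) z ^ 2) +
        ∫ z, ∑ k : Fin m, ∑ i, ∑ c, pd k.succ (w i c) z ^ 2 := by
    simp_rw [Fin.sum_univ_succ]
    exact integral_add (integrable_finsetSum _ fun i _ => integrable_finsetSum _ fun c _ =>
      hsqi 0 i c) (hDc.integrable_of_hasCompactSupport hDs)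
  rw [hsplit]
  rw [htr] at hG2
  have hint' := hint.trans (le_of_eq hadd)
  linarith

theorem TV_all (m : ℕ) : ∀ g : ℝ, 3 / 2 ≤ g → TV ι m g := by
  induction m with
  | zero => exact fun g hg => TV_zero (by linarith)
  | succ m ih => exact fun g hg => TV_succ hg (ih _ (by linarith))

end Pool.Agent.U327.LT
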