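import Pool.Agent.U327.LT.V1

set_option autoImplicit false

/-!
# Vector valued Lieb-Thirring inequality: Gram matrix at most one
-/

open MeasureTheory Set Filter Topology Real
open scoped Matrix

namespace Pool.Agent.U327.LT

open LTd

variable {ι : Type} [Fintype ι]

theorem tot_entry {m n : ℕ} (w : Fin n → ι → (Fin (m + 1) → ℝ) → ℝ)
    (hw : ∀ i c, Continuous (w i c)) (hc : ∀ i c, HasCompactSupport (w i c)) (i j : Fin n) :
    Tot (fun x => ∑ c, RS (fun i => w i c) x) i j = ∫ z, ∑ c, w i c z * w j c z := by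
  have hcw2 : ∀ c, HasCompactSupport (fun z => w i c z * w j c z) := fun c =>
    (hc i c).mul_right (f' := w j c)
  have h1 : ∀ c, ∫ z, w i c z * w j c z = ∫ x : ℝ, RS (fun i => w i c) x i j := fun c =>
    slice_int (f := fun z => w i c z * w j c z) ((hw i c).mul (hw j c)) (hcw2 c)
  have h2 : Tot (fun x => ∑ c, RS (fun i => w i c) x) i j =
      ∫ x, ∑ c, RS (fun i => w i c) x i j := by
    unfold Tot
    rw [Matrix.of_apply]
    refine integral_congr_ae (Eventually.of_forall fun x => ?_)
    simp only [Matrix.sum_apply]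
  have hI : ∀ c, Integrable (fun z => w i c z * w j c z) := fun c =>
    ((hw i c).mul (hw j c)).integrable_of_hasCompactSupport (hcw2 c)
  have hJ : ∀ c, Integrable (fun x : ℝ => RS (fun i => w i c) x i j) := fun c =>
    ts_slice_integrable (f := fun z => w i c z * w j c z) ((hw i c).mul (hw j c)) (hcw2 c)
  rw [h2, integral_finsetSum _ fun c _ => hJ c,
    ← Finset.sum_congr rfl fun c _ => h1 c, ← integral_finsetSum _ fun c _ => hI c]

theorem psd_tot {m n : ℕ} (w : Fin n → ι → (Fin (m + 1) → ℝ) → ℝ)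
    (hw : ∀ i c, Continuous (w i c)) (hc : ∀ i c, HasCompactSupport (w i c))
    (hG : ∀ v : Fin n → ℝ, ∫ x, ∑ c, (∑ i, v i * w i c x) ^ 2 ≤ ∑ i, v i ^ 2) :
    PSD (1 - Tot (fun x => ∑ c, RS (fun i => w i c) x)) := by
  classical
  have hT := tot_entry w hw hc
  have iW : ∀ i j, Integrable (fun z => ∑ c, w i c z * w j c z) volume := fun i j =>
    integrable_finsetSum _ fun c _ =>
      ((hw i c).mul (hw j c)).integrable_of_hasCompactSupport ((hc i c).mul_right)
  refine ⟨?_, ?_⟩
  · intro i j
    rw [Matrix.sub_apply, Matrix.sub_apply, hT, hT, Matrix.one_apply, Matrix.one_apply]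
    congr 1
    · simp only [eq_comm]
    · congr 1
      funext z
      exact Finset.sum_congr rfl fun c _ => mul_comm _ _
  · intro v
    have e1 : ∑ i, ∑ j, v i * v j * (1 - Tot (fun x => ∑ c, RS (fun i => w i c) x)) i j =
        ∑ i, v i ^ 2 - ∫ x, ∑ c, (∑ i, v i * w i c x) ^ 2 := by
      have h1 : ∫ x, ∑ c, (∑ i, v i * w i c x) ^ 2 =
          ∑ i, ∑ j, v i * v j * ∫ z, ∑ c, w i c z * w j c z := by
        have h2 : ∀ x, ∑ c, (∑ i, v i * w i c x) ^ 2 =
            ∑ i, ∑ j, v i * v j * (∑ c, w i c x * w j c x) := by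
          intro x
          have e : ∀ c, (∑ i, v i * w i c x) ^ 2 =
              ∑ i, ∑ j, v i * v j * (w i c x * w j c x) := by
            intro c
            rw [sq, Finset.sum_mul_sum]
            refine Finset.sum_congr rfl fun i _ => Finset.sum_congr rfl fun j _ => ?_
            ring
          rw [Finset.sum_congr rfl fun c _ => e c, Finset.sum_comm]
          refine Finset.sum_congr rfl fun i _ => ?_
          rw [Finset.sum_comm]
          refine Finset.sum_congr rfl fun j _ => ?_
          rw [Finset.mul_sum]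
        rw [integral_congr_ae (Eventually.of_forall h2), integral_finsetSum]
        · refine Finset.sum_congr rfl fun i _ => ?_
          rw [integral_finsetSum]
          · refine Finset.sum_congr rfl fun j _ => ?_
            rw [integral_const_mul]
          · intro j _
            exact (iW i j).const_mul _
        · intro i _
          exact integrable_finsetSum _ fun j _ => (iW i j).const_mul _
      rw [h1, ← Finset.sum_sub_distrib]
      refine Finset.sum_congr rfl fun i _ => ?_
      have h3 : ∀ j, v i * v j * (1 - Tot (fun x => ∑ c, RS (fun i => w i c) x)) i j =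
          (if i = j then v i * v j else 0) - v i * v j * ∫ z, ∑ c, w i c z * w j c z := by
        intro j
        rw [Matrix.sub_apply, hT, Matrix.one_apply]
        split_ifs <;> ring
      rw [Finset.sum_congr rfl fun j _ => h3 j, Finset.sum_sub_distrib]
      congr 1
      rw [Finset.sum_ite_eq]
      simp [sq]
    rw [e1]
    linarith [hG v]

/-- The vector valued Lieb-Thirring inequality for Gram matrices at most one. -/
theorem coreV (m n : ℕ) (w : Fin n → ι → (Fin (m + 1) → ℝ) → ℝ)
    (hw : ∀ i c, ContDiff ℝ 1 (w i c)) (hc : ∀ i c, HasCompactSupport (w i c))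
    (hG : ∀ v : Fin n → ℝ, ∫ x, ∑ c, (∑ i, v i * w i c x) ^ 2 ≤ ∑ i, v i ^ 2)
    (Φ : (Fin (m + 1) → ℝ) → ℝ) (hΦ : Continuous Φ) (hΦc : HasCompactSupport Φ)
    (hS : ∀ x, Spec (fun i c => w i c x) (pp (3 / 2 + m / 2)) (Φ x)) :
    bco (m / 2) (3 / 2) (π ^ 2 / 4) * ∫ x, Φ x ≤
      ∫ x, ∑ k, ∑ i, ∑ c, pd k (w i c) x ^ 2 := by
  classical
  have hwc : ∀ i c, Continuous (w i c) := fun i c => (hw i c).continuous
  have h := sys_sum fun c => slice_sys (fun i => w i c) (fun i => hw i c) (fun i => hc i c)
  have hA := blockA h (psd_tot w hwc hc hG)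
  have hsqs : ∀ (k : Fin (m + 1)) (i : Fin n) (c : ι),
      HasCompactSupport (fun z => pd k (w i c) z ^ 2) :=
    fun k i c => (pd_basic (hw i c) (hc i c) k).2.comp_left (g := fun t : ℝ => t ^ 2) (by norm_num)
  have hsqc : ∀ (k : Fin (m + 1)) (i : Fin n) (c : ι), Continuous (fun z => pd k (w i c) z ^ 2) :=
    fun k i c => (pd_basic (hw i c) (hc i c) k).1.pow 2
  -- the tangential derivatives
  set D : (Fin (m + 1) → ℝ) → ℝ := fun z => ∑ k : Fin m, ∑ i, ∑ c, pd k.succ (w i c) z ^ 2 with hD
  have hDc : Continuous D :=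
    continuous_finsetSum _ fun k _ => continuous_finsetSum _ fun i _ =>
      continuous_finsetSum _ fun c _ => hsqc k.succ i c
  have hDs : HasCompactSupport D := by
    refine cs_fam' (ι := Fin m × Fin n × ι) (fun q z => pd q.1.succ (w q.2.1 q.2.2) z ^ 2)
      (fun q => hsqs q.1.succ q.2.1 q.2.2) D fun z hz => ?_
    exact Finset.sum_eq_zero fun k _ => Finset.sum_eq_zero fun i _ =>
      Finset.sum_eq_zero fun c _ => hz (k, i, c)
  -- the normal derivatives
  set E : (Fin (m + 1) → ℝ) → ℝ := fun z => ∑ i, ∑ c, pd 0 (w i c) z ^ 2 with hE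
  have hEc : Continuous E :=
    continuous_finsetSum _ fun i _ => continuous_finsetSum _ fun c _ => hsqc 0 i c
  have hEs : HasCompactSupport E := by
    refine cs_fam' (ι := Fin n × ι) (fun q z => pd 0 (w q.1 q.2) z ^ 2)
      (fun q => hsqs 0 q.1 q.2) E fun z hz => ?_
    exact Finset.sum_eq_zero fun i _ => Finset.sum_eq_zero fun c _ => hz (i, c)
  have hQ : ∫ x, (∑ c, QS (fun i => w i c) x).trace = ∫ z, E z := by
    rw [slice_int hEc hEs]
    refine integral_congr_ae (Eventually.of_forall fun x => ?_)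
    show (∑ c, QS (fun i => w i c) x).trace = ∫ y : Fin m → ℝ, E (Fin.cons x y : Fin (m + 1) → ℝ)
    have h2 : ∀ i c, Integrable (fun y : Fin m → ℝ =>
        pd 0 (w i c) (Fin.cons x y : Fin (m + 1) → ℝ) ^ 2) volume := by
      intro i c
      have h3 := slice_cont (f := fun z => pd 0 (w i c) z ^ 2) (hsqc 0 i c) (hsqs 0 i c)
      exact (h3.2.1 x).integrable_of_hasCompactSupport (h3.2.2.1 x)
    rw [hE]
    dsimp only
    rw [integral_finsetSum _ fun i _ => integrable_finsetSum _ fun c _ => h2 i c, Matrix.trace]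
    refine Finset.sum_congr rfl fun i _ => ?_
    rw [Matrix.diag_apply, Matrix.sum_apply, integral_finsetSum _ fun c _ => h2 i c]
    refine Finset.sum_congr rfl fun c _ => ?_
    show ∫ y : Fin m → ℝ, pd 0 (w i c) (Fin.cons x y : Fin (m + 1) → ℝ) *
      pd 0 (w i c) (Fin.cons x y : Fin (m + 1) → ℝ) = _
    congr 1
    funext y
    ring
  set R : ℝ → Mat n := fun x => ∑ c, RS (fun i => w i c) x with hRdef
  have htr : Integrable (fun x => (R x * R x * R x).trace) volume := by
    have hRc : ∀ i j, Continuous fun x => R x i j := fun i j =>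
      continuous_iff_continuousAt.2 fun x => (h.der x i j).continuousAt
    have hcont : Continuous fun x => (R x * R x * R x).trace := by
      have hR : Continuous fun x => R x := continuous_matrix hRc
      exact ((hR.matrix_mul hR).matrix_mul hR).matrix_trace
    obtain ⟨M, hM⟩ := h.supp
    refine hcont.integrable_of_hasCompactSupport ?_
    refine HasCompactSupport.intro (isCompact_Icc (a := -M) (b := M)) fun x hx => ?_
    have h2 : M < |x| := by
      by_contra hcon
      push Not at hcon
      exact hx (abs_le.1 hcon)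
    have h3 : R x = 0 := (hM x h2).1
    rw [h3]
    simp
  -- the slices
  have hslice : ∀ x : ℝ, bco (m / 2) (3 / 2) (π ^ 2 / 4) *
      ∫ y : Fin m → ℝ, Φ (Fin.cons x y : Fin (m + 1) → ℝ) ≤
      (∫ y : Fin m → ℝ, D (Fin.cons x y : Fin (m + 1) → ℝ)) +
        π ^ 2 / 4 * (R x * R x * R x).trace := by
    intro x
    obtain ⟨V, r, hV, hV', hr, hR⟩ := specP (sys_psd h x)
    have hR' : (Matrix.of fun i j => ∫ y : Fin m → ℝ, ∑ c,
        w i c (Fin.cons x y : Fin (m + 1) → ℝ) * w j c (Fin.cons x y : Fin (m + 1) → ℝ) : Mat n) =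
        V * Matrix.diagonal r * Vᵀ := by
      rw [← hR]
      ext i j
      have hRx : R x = ∑ c, RS (fun i => w i c) x := rfl
      rw [hRx, Matrix.of_apply, Matrix.sum_apply, integral_finsetSum]
      · rfl
      · intro c _
        have := slice_cont (f := fun z => w i c z * w j c z) ((hwc i c).mul (hwc j c))
          ((hc i c).mul_right (f' := w j c))
        exact (this.2.1 x).integrable_of_hasCompactSupport (this.2.2.1 x)
    have h1 := TV_slice (m := m) (n := n) (g := 3 / 2) (a := π ^ 2 / 4) (by positivity)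
      (TV_all (ι := ι) m (3 / 2) le_rfl)
      (fun i c y => w i c (Fin.cons x y : Fin (m + 1) → ℝ))
      (fun i c => (slice_pd (hw i c) x).1) (fun i c => (slice_cont (hwc i c) (hc i c)).2.2.1 x)
      (fun y => Φ (Fin.cons x y : Fin (m + 1) → ℝ)) ((slice_cont hΦ hΦc).2.1 x)
      ((slice_cont hΦ hΦc).2.2.1 x) (fun y => hS _) V r hV hV' hr hR'
    have hR2 : R x = V * Matrix.diagonal r * Vᵀ := hR
    have e1 : ∑ i, r i ^ pp (3 / 2) = (R x * R x * R x).trace := by
      have e2 : pp (3 / 2) = ((3 : ℕ) : ℝ) := by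
        rw [pp]
        norm_num
      have e3 : R x * R x * R x = V * Matrix.diagonal (fun i => r i ^ 3) * Vᵀ := by
        have e4 : ∀ X Y : Mat n, (V * X * Vᵀ) * (V * Y * Vᵀ) = V * (X * Y) * Vᵀ := by
          intro X Y
          calc (V * X * Vᵀ) * (V * Y * Vᵀ) = V * X * (Vᵀ * V) * Y * Vᵀ := by
                simp only [Matrix.mul_assoc]
            _ = _ := by rw [hV', Matrix.mul_one]; simp only [Matrix.mul_assoc]
        rw [hR2, e4, e4, Matrix.diagonal_mul_diagonal, Matrix.diagonal_mul_diagonal]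
        congr 3
        funext i
        ring
      rw [e3, Matrix.trace_mul_comm, ← Matrix.mul_assoc, hV', Matrix.one_mul,
        Matrix.trace_diagonal]
      refine Finset.sum_congr rfl fun i _ => ?_
      rw [e2, Real.rpow_natCast]
    rw [e1] at h1
    have e5 : ∀ y : Fin m → ℝ, (∑ k, ∑ i, ∑ c, pd k (fun y : Fin m → ℝ =>
        w i c (Fin.cons x y : Fin (m + 1) → ℝ)) y ^ 2) = D (Fin.cons x y : Fin (m + 1) → ℝ) := by
      intro y
      refine Finset.sum_congr rfl fun k _ => Finset.sum_congr rfl fun i _ =>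
        Finset.sum_congr rfl fun c _ => ?_
      rw [(slice_pd (hw i c) x).2 k y]
    rw [integral_congr_ae (Eventually.of_forall e5)] at h1
    exact h1
  have hint := integral_mono ((slice_integrable' hΦ hΦc).const_mul _)
    ((slice_integrable' hDc hDs).add (htr.const_mul _)) hslice
  rw [integral_const_mul, ← slice_int hΦ hΦc] at hint
  have hsum : ∫ x, ((∫ y : Fin m → ℝ, D (Fin.cons x y : Fin (m + 1) → ℝ)) +
        π ^ 2 / 4 * (R x * R x * R x).trace) =
      (∫ z, D z) + π ^ 2 / 4 * ∫ x, (R x * R x * R x).trace := by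
    rw [integral_add (slice_integrable' hDc hDs) (htr.const_mul _), integral_const_mul,
      ← slice_int hDc hDs]
  have hfin : ∫ x, ∑ k, ∑ i, ∑ c, pd k (w i c) x ^ 2 = (∫ z, E z) + ∫ z, D z := by
    rw [← integral_add (hEc.integrable_of_hasCompactSupport hEs)
      (hDc.integrable_of_hasCompactSupport hDs)]
    refine integral_congr_ae (Eventually.of_forall fun z => ?_)
    show ∑ k, ∑ i, ∑ c, pd k (w i c) z ^ 2 = (∑ i, ∑ c, pd 0 (w i c) z ^ 2) +
      ∑ k : Fin m, ∑ i, ∑ c, pd k.succ (w i c) z ^ 2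
    rw [Fin.sum_univ_succ]
  rw [hfin]
  have hint' := hint.trans_eq hsum
  rw [hQ] at hA
  linarith

end Pool.Agent.U327.LT
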