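import Pool.Agent.U327.LT.V2

set_option autoImplicit false

/-!
# The spectrum of the Gram matrix of the rotated vectors
-/

open MeasureTheory Set Filter Topology Real
open scoped Matrix

namespace Pool.Agent.U327.LT

open LTd

variable {κ : Type} [Fintype κ] [DecidableEq κ]

/-- The tensor product of `f fᵀ` and `M`. -/
def kr {N n : ℕ} (e : Fin N ≃ Fin n × κ) (f : Fin n → ℝ) (M : Matrix κ κ ℝ) : Mat N :=
  Matrix.of fun I J => f (e I).1 * f (e J).1 * M (e I).2 (e J).2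

omit [DecidableEq κ] in
theorem kr_mul {N n : ℕ} (e : Fin N ≃ Fin n × κ) (f : Fin n → ℝ) (A B : Matrix κ κ ℝ) :
    kr e f A * kr e f B = (∑ i, f i ^ 2) • kr e f (A * B) := by
  ext I J
  rw [Matrix.mul_apply, Matrix.smul_apply, kr, kr, kr]
  simp only [Matrix.of_apply, smul_eq_mul, Matrix.mul_apply]
  rw [e.sum_comp (fun K : Fin n × κ => f (e I).1 * f K.1 * A (e I).2 K.2 *
    (f K.1 * f (e J).1 * B K.2 (e J).2)), Fintype.sum_prod_type, Finset.sum_mul]
  refine Finset.sum_congr rfl fun i _ => ?_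
  rw [Finset.mul_sum, Finset.mul_sum]
  refine Finset.sum_congr rfl fun a _ => ?_
  ring

omit [DecidableEq κ] in
theorem kr_trace {N n : ℕ} (e : Fin N ≃ Fin n × κ) (f : Fin n → ℝ) (A : Matrix κ κ ℝ) :
    (kr e f A).trace = (∑ i, f i ^ 2) * A.trace := by
  rw [Matrix.trace, Matrix.trace, kr]
  simp only [Matrix.diag_apply, Matrix.of_apply]
  rw [e.sum_comp (fun K : Fin n × κ => f K.1 * f K.1 * A K.2 K.2), Fintype.sum_prod_type,
    Finset.sum_mul]
  refine Finset.sum_congr rfl fun i _ => ?_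
  rw [Finset.mul_sum]
  refine Finset.sum_congr rfl fun a _ => ?_
  ring

theorem pow_three {N : ℕ} {A B p q : ℝ} (hp : 0 < p) (hB : 0 < B) (hAB : B < A)
    (r : Fin N → ℝ) (hr : ∀ i, r i = 0 ∨ r i = A ∨ r i = B)
    (h1 : ∑ i, r i = q / 2 * (A + B)) (h2 : ∑ i, r i ^ 2 = q / 2 * (A ^ 2 + B ^ 2)) :
    ∑ i, r i ^ p = q / 2 * (A ^ p + B ^ p) := by
  have hA : 0 < A := hB.trans hAB
  have hd : A - B ≠ 0 := (sub_pos.2 hAB).ne'
  set β : ℝ := (A ^ (p - 1) - B ^ (p - 1)) / (A - B) with hβ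
  set α : ℝ := A ^ (p - 1) - β * A with hα
  have eA : α * A + β * A ^ 2 = A ^ p := by
    have : A ^ p = A ^ (p - 1) * A := by
      rw [← Real.rpow_add_one hA.ne']
      congr 1
      ring
    rw [this, hα]
    ring
  have eB : α * B + β * B ^ 2 = B ^ p := by
    have : B ^ p = B ^ (p - 1) * B := by
      rw [← Real.rpow_add_one hB.ne']
      congr 1
      ring
    rw [this, hα]
    have h3 : β * (A - B) = A ^ (p - 1) - B ^ (p - 1) := by
      rw [hβ]
      field_simp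
    linear_combination (-B) * h3
  have e : ∀ i, r i ^ p = α * r i + β * r i ^ 2 := by
    intro i
    rcases hr i with h | h | h
    · rw [h, Real.zero_rpow hp.ne']
      ring
    · rw [h, eA]
    · rw [h, eB]
  rw [Finset.sum_congr rfl fun i _ => e i, Finset.sum_add_distrib, ← Finset.mul_sum,
    ← Finset.mul_sum, h1, h2, ← eA, ← eB]
  ring

/-- The spectral condition for the vectors `f i • W e_a`. -/
theorem spec_kr {N n : ℕ} (e : Fin N ≃ Fin n × κ) (f : Fin n → ℝ) (W : Matrix κ κ ℝ) {σ p : ℝ}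
    (hp : 0 < p) (hσ : (0 < σ ∧ σ < 1) ∨ ∑ i, f i ^ 2 = 0)
    (hM : (Wᵀ * W) * (Wᵀ * W) = (2:ℝ) • (Wᵀ * W) - (1 - σ ^ 2) • 1)
    (hM1 : (Wᵀ * W).trace = Fintype.card κ) :
    Spec (fun I c => W c (e I).2 * f (e I).1) p
      ((Fintype.card κ / 2) * ((1 + σ) ^ p + (1 - σ) ^ p) * (∑ i, f i ^ 2) ^ p) := by
  intro V r hV hV' hr hG
  set ρ : ℝ := ∑ i, f i ^ 2 with hρ
  set q : ℝ := (Fintype.card κ : ℝ) with hq
  have hρ0 : 0 ≤ ρ := Finset.sum_nonneg fun i _ => sq_nonneg _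
  have hK : (Matrix.of fun I J => ∑ c, (W c (e I).2 * f (e I).1) * (W c (e J).2 * f (e J).1) :
      Mat N) = kr e f (Wᵀ * W) := by
    ext I J
    rw [kr, Matrix.of_apply, Matrix.of_apply, Matrix.mul_apply, Finset.mul_sum]
    refine Finset.sum_congr rfl fun c _ => ?_
    rw [Matrix.transpose_apply]
    ring
  have hG' : kr e f (Wᵀ * W) = V * Matrix.diagonal r * Vᵀ := by rw [← hK]; exact hG
  have hlin : kr e f ((2:ℝ) • (Wᵀ * W) - (1 - σ ^ 2) • 1) =
      (2:ℝ) • kr e f (Wᵀ * W) - (1 - σ ^ 2) • kr e f 1 := by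
    ext I J
    simp only [kr, Matrix.of_apply, Matrix.sub_apply, Matrix.smul_apply, smul_eq_mul]
    ring
  have hsq : kr e f (Wᵀ * W) * kr e f (Wᵀ * W) =
      ρ • ((2:ℝ) • kr e f (Wᵀ * W) - (1 - σ ^ 2) • kr e f 1) := by
    rw [kr_mul, hM, hlin]
  have hcu : kr e f (Wᵀ * W) * (kr e f (Wᵀ * W) * kr e f (Wᵀ * W)) =
      (2 * ρ) • (kr e f (Wᵀ * W) * kr e f (Wᵀ * W)) -
        (ρ ^ 2 * (1 - σ ^ 2)) • kr e f (Wᵀ * W) := by
    conv_lhs => rw [hsq]
    rw [Matrix.mul_smul, Matrix.mul_sub, Matrix.mul_smul, Matrix.mul_smul, kr_mul e f _ 1,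
      Matrix.mul_one, ← hρ]
    module
  -- transfer to the diagonal matrix
  have e4 : ∀ X Y : Mat N, (V * X * Vᵀ) * (V * Y * Vᵀ) = V * (X * Y) * Vᵀ := by
    intro X Y
    calc (V * X * Vᵀ) * (V * Y * Vᵀ) = V * X * (Vᵀ * V) * Y * Vᵀ := by
          simp only [Matrix.mul_assoc]
      _ = _ := by rw [hV', Matrix.mul_one]; simp only [Matrix.mul_assoc]
  have hinv : ∀ X Y : Mat N, V * X * Vᵀ = V * Y * Vᵀ → X = Y := by
    intro X Y h
    calc X = Vᵀ * (V * X * Vᵀ) * V := by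
          calc X = (Vᵀ * V) * X * (Vᵀ * V) := by rw [hV']; simp
            _ = _ := by simp only [Matrix.mul_assoc]
      _ = Vᵀ * (V * Y * Vᵀ) * V := by rw [h]
      _ = (Vᵀ * V) * Y * (Vᵀ * V) := by simp only [Matrix.mul_assoc]
      _ = Y := by rw [hV']; simp
  have hcube : ∀ i, r i * (r i * r i) = 2 * ρ * (r i * r i) - ρ ^ 2 * (1 - σ ^ 2) * r i := by
    rw [hG', e4, e4] at hcu
    have h1 : V * (Matrix.diagonal r * (Matrix.diagonal r * Matrix.diagonal r)) * Vᵀ =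
        V * ((2 * ρ) • (Matrix.diagonal r * Matrix.diagonal r) -
          (ρ ^ 2 * (1 - σ ^ 2)) • Matrix.diagonal r) * Vᵀ := by
      rw [hcu, Matrix.mul_sub, Matrix.sub_mul, Matrix.mul_smul, Matrix.smul_mul, Matrix.mul_smul,
        Matrix.smul_mul]
    have h2 := hinv _ _ h1
    rw [Matrix.diagonal_mul_diagonal, Matrix.diagonal_mul_diagonal] at h2
    intro i
    have h3 := congrFun (congrFun h2 i) i
    simpa [Matrix.sub_apply, Matrix.smul_apply, Matrix.diagonal_apply_eq] using h3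
  have htr : ∀ X : Mat N, (V * X * Vᵀ).trace = X.trace := by
    intro X
    rw [Matrix.trace_mul_comm, ← Matrix.mul_assoc, hV', Matrix.one_mul]
  have hs1 : ∑ i, r i = ρ * q := by
    have h1 := kr_trace e f (Wᵀ * W)
    rw [hG', htr, Matrix.trace_diagonal, hM1] at h1
    exact h1
  have hs2 : ∑ i, r i ^ 2 = ρ ^ 2 * q * (1 + σ ^ 2) := by
    have h1 := congrArg Matrix.trace hsq
    rw [Matrix.trace_smul, Matrix.trace_sub, Matrix.trace_smul, Matrix.trace_smul, kr_trace,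
      kr_trace, hM1, Matrix.trace_one, hG', e4, htr, Matrix.diagonal_mul_diagonal,
      Matrix.trace_diagonal] at h1
    simp only [smul_eq_mul] at h1
    have h2 : ∑ i, r i ^ 2 = ∑ i, r i * r i := Finset.sum_congr rfl fun i _ => sq _
    rw [h2, h1, ← hρ, ← hq]
    ring
  rcases hρ0.eq_or_lt with h0 | hρp
  · rw [← h0, Real.zero_rpow hp.ne', mul_zero]
    exact Finset.sum_nonneg fun i _ => Real.rpow_nonneg (hr i) _
  · have hσ' : 0 < σ ∧ σ < 1 := by
      rcases hσ with h | h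
      · exact h
      · exact absurd h hρp.ne'
    have hroot : ∀ i, r i = 0 ∨ r i = ρ * (1 + σ) ∨ r i = ρ * (1 - σ) := by
      intro i
      have h1 : r i * ((r i - ρ * (1 + σ)) * (r i - ρ * (1 - σ))) = 0 := by
        linear_combination hcube i
      rcases mul_eq_zero.1 h1 with h | h
      · exact Or.inl h
      · rcases mul_eq_zero.1 h with h | h
        · exact Or.inr (Or.inl (by linarith))
        · exact Or.inr (Or.inr (by linarith))
    have h3 := pow_three (q := q) hp (A := ρ * (1 + σ)) (B := ρ * (1 - σ))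
      (mul_pos hρp (by linarith)) (mul_lt_mul_of_pos_left (by linarith) hρp) r hroot
      (by rw [hs1]; ring) (by rw [hs2]; ring)
    rw [h3, Real.mul_rpow hρ0 (by linarith), Real.mul_rpow hρ0 (by linarith)]
    apply le_of_eq
    ring

end Pool.Agent.U327.LT
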